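import Pool.Agent.helper21.NI.Types

/-! The types of prime degree with solvable monodromy. -/

namespace WildN

open Polynomial WildRat WildS WildV WildH

/-- All fibres are unramified, totally ramified, or `(m, .., m, 1)`. -/
def Aff (C : RF) : Prop := ∀ c : P1, pas C c = Multiset.replicate C.n 1 ∨ pas C c = {C.n} ∨
  ∃ m k, 2 ≤ m ∧ C.n = k * m + 1 ∧ pas C c = 1 ::ₘ Multiset.replicate k m

/-- The type of `z ^ n`. -/
def TyZ (C : RF) : Prop := HasTy C [[C.n], [C.n]]

/-- The type of the Chebyshev polynomial of odd degree. -/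
def TyT (C : RF) : Prop := ∃ k, C.n = 2 * k + 1 ∧
  HasTy C [[C.n], 1 :: List.replicate k 2, 1 :: List.replicate k 2]

/-- The types of the Lattes maps: `(2,2,2,2)`, `(3,3,3)`, `(2,4,4)`, `(2,3,6)`. -/
def TyL (C : RF) : Prop :=
  (∃ k, C.n = 2 * k + 1 ∧ HasTy C (List.replicate 4 (1 :: List.replicate k 2))) ∨
  (∃ k, C.n = 3 * k + 1 ∧ HasTy C (List.replicate 3 (1 :: List.replicate k 3))) ∨
  (∃ k, C.n = 4 * k + 1 ∧ HasTy C [1 :: List.replicate (2 * k) 2, 1 :: List.replicate k 4,
    1 :: List.replicate k 4]) ∨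
  ∃ k, C.n = 6 * k + 1 ∧ HasTy C [1 :: List.replicate (3 * k) 2, 1 :: List.replicate (2 * k) 3,
    1 :: List.replicate k 6]

/-- The weight of `m, .., m, 1`. -/
theorem aff_wt (k m : ℕ) (_hm : 1 ≤ m) :
    wt (((1 :: List.replicate k m : List ℕ)) : Multiset ℕ) = k * (m - 1) := by
  have h : (((1 :: List.replicate k m : List ℕ)) : Multiset ℕ) =
      Multiset.replicate k m + {1} := by
    rw [← Multiset.cons_coe, Multiset.coe_replicate, ← Multiset.singleton_add, add_comm]
  rw [h, wt_replicate_add]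
  have h1 : wt ({1} : Multiset ℕ) = 0 := by
    unfold wt
    simp
  rw [h1]
  simp

theorem aff_wt_single (n : ℕ) : wt ((([n] : List ℕ)) : Multiset ℕ) = 0 := by
  unfold wt
  simp

theorem aff_hasTy2 {C : RF} {a b : P1} (hab : a ≠ b) {l1 l2 : List ℕ}
    (h1 : pas C a = (l1 : Multiset ℕ)) (h2 : pas C b = (l2 : Multiset ℕ)) :
    HasTy C [l1, l2] := by
  refine ⟨![a, b], ?_, ?_⟩
  · intro i j hij
    change Fin 2 at i j
    fin_cases i <;> fin_cases j <;> simp_all [eq_comm]
  · intro i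
    change Fin 2 at i
    fin_cases i
    · exact h1
    · exact h2

theorem aff_hasTy3 {C : RF} {a b c : P1} (hab : a ≠ b) (hac : a ≠ c) (hbc : b ≠ c)
    {l1 l2 l3 : List ℕ} (h1 : pas C a = (l1 : Multiset ℕ)) (h2 : pas C b = (l2 : Multiset ℕ))
    (h3 : pas C c = (l3 : Multiset ℕ)) : HasTy C [l1, l2, l3] := by
  refine ⟨![a, b, c], ?_, ?_⟩
  · intro i j hij
    change Fin 3 at i j
    fin_cases i <;> fin_cases j <;> simp_all [eq_comm]
  · intro i
    change Fin 3 at i
    fin_cases i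
    · exact h1
    · exact h2
    · exact h3

theorem aff_hasTy4 {C : RF} {a b c d : P1} (hab : a ≠ b) (hac : a ≠ c) (had : a ≠ d)
    (hbc : b ≠ c) (hbd : b ≠ d) (hcd : c ≠ d)
    {l1 l2 l3 l4 : List ℕ} (h1 : pas C a = (l1 : Multiset ℕ)) (h2 : pas C b = (l2 : Multiset ℕ))
    (h3 : pas C c = (l3 : Multiset ℕ)) (h4 : pas C d = (l4 : Multiset ℕ)) :
    HasTy C [l1, l2, l3, l4] := by
  refine ⟨![a, b, c, d], ?_, ?_⟩
  · intro i j hij
    change Fin 4 at i j
    fin_cases i <;> fin_cases j <;> simp_all [eq_comm]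
  · intro i
    change Fin 4 at i
    fin_cases i
    · exact h1
    · exact h2
    · exact h3
    · exact h4

/-- The arithmetic of three terms; `0` stands for infinity. -/
theorem aff_three {x y z : ℕ} (hxy : x ≤ y) (hyz : y ≤ z) (hx : x = 0 ∨ 2 ≤ x)
    (hy : y = 0 ∨ 2 ≤ y) (hz : z = 0 ∨ 2 ≤ z)
    (h : (1 : ℚ) / x + 1 / y + 1 / z = 1) :
    (x = 0 ∧ y = 2 ∧ z = 2) ∨ (x = 3 ∧ y = 3 ∧ z = 3) ∨ (x = 2 ∧ y = 4 ∧ z = 4) ∨
      (x = 2 ∧ y = 3 ∧ z = 6) := by
  rcases Nat.eq_zero_or_pos x with h0 | hx0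
  · subst h0
    rcases Nat.eq_zero_or_pos y with h1 | hy0
    · subst h1
      exfalso
      rcases hz with h2 | h2
      · subst h2
        norm_num at h
      · have h3 : (0 : ℚ) < z := by exact_mod_cast (by omega : 0 < z)
        simp only [Nat.cast_zero, div_zero, zero_add] at h
        rw [div_eq_iff h3.ne', one_mul] at h
        have h4 : (1 : ℕ) = z := by exact_mod_cast h
        omega
    · left
      have hy2 : 2 ≤ y := by omega
      have h2 : (0 : ℚ) < y := by exact_mod_cast hy0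
      have h3 : (0 : ℚ) < z := by exact_mod_cast (by omega : 0 < z)
      simp only [Nat.cast_zero, div_zero, zero_add] at h
      rw [div_add_div _ _ h2.ne' h3.ne', div_eq_one_iff_eq (by positivity)] at h
      have h4 : 1 * z + y * 1 = y * z := by exact_mod_cast h
      have h5 : y ≤ 2 := by
        by_contra h6
        have h7 : 3 * z ≤ y * z := Nat.mul_le_mul_right _ (by omega)
        omega
      have h6 : y = 2 := by omega
      subst h6
      omega
  · right
    have hx2 : 2 ≤ x := by omega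
    have h1 : (0 : ℚ) < x := by exact_mod_cast hx0
    have h2 : (0 : ℚ) < y := by exact_mod_cast (by omega : 0 < y)
    have h3 : (0 : ℚ) < z := by exact_mod_cast (by omega : 0 < z)
    have h4 : (y : ℚ) * z + x * z + x * y = x * y * z := by
      field_simp at h
      linarith
    have h5 : y * z + x * z + x * y = x * y * z := by exact_mod_cast h4
    have h6 : x ≤ 3 := by
      by_contra h7
      have h8 : 4 * (y * z) ≤ x * (y * z) := Nat.mul_le_mul_right _ (by omega)
      have h9 : x * z ≤ y * z := Nat.mul_le_mul_right _ hxy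
      have h10 : x * y ≤ y * z := by
        rw [mul_comm x y]
        exact Nat.mul_le_mul_left _ (by omega)
      have h11 : 0 < y * z := Nat.mul_pos (by omega) (by omega)
      have h12 : x * y * z = x * (y * z) := mul_assoc _ _ _
      omega
    have h7 : x = 2 ∨ x = 3 := by omega
    rcases h7 with h7 | h7
    · subst h7
      have h8 : y ≤ 4 := by
        by_contra h9
        have h10 : 5 * z ≤ y * z := Nat.mul_le_mul_right _ (by omega)
        have h11 : 2 * y * z = 2 * (y * z) := mul_assoc _ _ _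
        omega
      have h9 : y = 2 ∨ y = 3 ∨ y = 4 := by omega
      rcases h9 with h9 | h9 | h9
      · subst h9
        omega
      · subst h9
        omega
      · subst h9
        omega
    · subst h7
      have h8 : y ≤ 3 := by
        by_contra h9
        have h10 : 4 * z ≤ y * z := Nat.mul_le_mul_right _ (by omega)
        have h11 : 3 * y * z = 3 * (y * z) := mul_assoc _ _ _
        omega
      have h9 : y = 3 := by omega
      subst h9
      omega

theorem aff_inv_le {x : ℕ} (hx : x = 0 ∨ 2 ≤ x) : (0 : ℚ) ≤ 1 / x ∧ (1 : ℚ) / x ≤ 1 / 2 := by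
  refine ⟨by positivity, ?_⟩
  rcases hx with h | h
  · subst h
    norm_num
  · exact one_div_le_one_div_of_le (by norm_num) (by exact_mod_cast h)

/-- The numerical classification. -/
theorem aff_num {α : Type} [DecidableEq α] (T : Finset α) (μ : α → ℕ)
    (hμ : ∀ c ∈ T, μ c = 0 ∨ 2 ≤ μ c) (h : ∑ c ∈ T, (1 - (1 : ℚ) / μ c) = 2) :
    (∃ a b, a ≠ b ∧ T = {a, b} ∧ μ a = 0 ∧ μ b = 0) ∨
    (∃ a b c, a ≠ b ∧ a ≠ c ∧ b ≠ c ∧ T = {a, b, c} ∧
      ((μ a = 0 ∧ μ b = 2 ∧ μ c = 2) ∨ (μ a = 3 ∧ μ b = 3 ∧ μ c = 3) ∨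
        (μ a = 2 ∧ μ b = 4 ∧ μ c = 4) ∨ (μ a = 2 ∧ μ b = 3 ∧ μ c = 6))) ∨
    (∃ a b c d, a ≠ b ∧ a ≠ c ∧ a ≠ d ∧ b ≠ c ∧ b ≠ d ∧ c ≠ d ∧ T = {a, b, c, d} ∧
      μ a = 2 ∧ μ b = 2 ∧ μ c = 2 ∧ μ d = 2) := by
  have h1 : ∑ c ∈ T, (1 - (1 : ℚ) / μ c) ≤ ∑ _c ∈ T, (1 : ℚ) :=
    Finset.sum_le_sum fun c hc => by
      have := (aff_inv_le (hμ c hc)).1
      linarith
  have h2 : ∑ _c ∈ T, ((1 : ℚ) / 2) ≤ ∑ c ∈ T, (1 - (1 : ℚ) / μ c) :=
    Finset.sum_le_sum fun c hc => by
      have := (aff_inv_le (hμ c hc)).2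
      linarith
  rw [h, Finset.sum_const, nsmul_eq_mul] at h1 h2
  have h3 : 2 ≤ T.card := by
    have : (2 : ℚ) ≤ T.card := by linarith
    exact_mod_cast this
  have h4 : T.card ≤ 4 := by
    have : (T.card : ℚ) ≤ 4 := by linarith
    exact_mod_cast this
  have h5 : T.card = 2 ∨ T.card = 3 ∨ T.card = 4 := by omega
  rcases h5 with h5 | h5 | h5
  · left
    obtain ⟨a, b, hab, rfl⟩ := Finset.card_eq_two.1 h5
    rw [Finset.sum_pair hab] at h
    have ha := hμ a (by simp)
    have hb := hμ b (by simp)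
    have ha' := aff_inv_le ha
    have hb' := aff_inv_le hb
    have ha0 : (1 : ℚ) / μ a = 0 := by linarith
    have hb0 : (1 : ℚ) / μ b = 0 := by linarith
    refine ⟨a, b, hab, rfl, ?_, ?_⟩
    · simpa using ha0
    · simpa using hb0
  · right
    left
    obtain ⟨a, b, c, hab, hac, hbc, rfl⟩ := Finset.card_eq_three.1 h5
    have hs : (1 : ℚ) / μ a + 1 / μ b + 1 / μ c = 1 := by
      rw [Finset.sum_insert (by simp [hab, hac]), Finset.sum_pair hbc] at h
      linarith
    have ha := hμ a (by simp)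
    have hb := hμ b (by simp)
    have hc := hμ c (by simp)
    rcases le_total (μ a) (μ b) with h6 | h6 <;> rcases le_total (μ b) (μ c) with h7 | h7 <;>
      rcases le_total (μ a) (μ c) with h8 | h8
    · exact ⟨a, b, c, hab, hac, hbc, rfl, aff_three h6 h7 ha hb hc (by linarith)⟩
    · exact ⟨a, b, c, hab, hac, hbc, rfl, aff_three h6 h7 ha hb hc (by linarith)⟩
    · exact ⟨a, c, b, hac, hab, hbc.symm, by rw [Finset.pair_comm b c],
        aff_three h8 h7 ha hc hb (by linarith)⟩
    · exact ⟨c, a, b, hac.symm, hbc.symm, hab, by rw [Finset.pair_comm b c, Finset.insert_comm],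
        aff_three h8 h6 hc ha hb (by linarith)⟩
    · exact ⟨b, a, c, hab.symm, hbc, hac, by rw [Finset.insert_comm],
        aff_three h6 h8 hb ha hc (by linarith)⟩
    · exact ⟨b, c, a, hbc, hab.symm, hac.symm, by rw [Finset.insert_comm, Finset.pair_comm a c],
        aff_three h7 h8 hb hc ha (by linarith)⟩
    · exact ⟨c, b, a, hbc.symm, hac.symm, hab.symm,
        by rw [Finset.pair_comm b c, Finset.insert_comm, Finset.pair_comm a b],
        aff_three h7 h6 hc hb ha (by linarith)⟩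
    · exact ⟨c, b, a, hbc.symm, hac.symm, hab.symm,
        by rw [Finset.pair_comm b c, Finset.insert_comm, Finset.pair_comm a b],
        aff_three h7 h6 hc hb ha (by linarith)⟩
  · right
    right
    obtain ⟨a, b, c, d, hab, hac, had, hbc, hbd, hcd, rfl⟩ := Finset.card_eq_four.1 h5
    have hs : (1 : ℚ) / μ a + 1 / μ b + 1 / μ c + 1 / μ d = 2 := by
      rw [Finset.sum_insert (by simp [hab, hac, had]), Finset.sum_insert (by simp [hbc, hbd]),
        Finset.sum_pair hcd] at h
      linarith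
    have ha := aff_inv_le (hμ a (by simp))
    have hb := aff_inv_le (hμ b (by simp))
    have hc := aff_inv_le (hμ c (by simp))
    have hd := aff_inv_le (hμ d (by simp))
    have key : ∀ x : ℕ, (1 : ℚ) / x = 1 / 2 → x = 2 := by
      intro x hx
      have h9 : (x : ℚ) = 2 := by
        have := congrArg (fun t => 1 / t) hx
        simpa using this
      exact_mod_cast h9
    exact ⟨a, b, c, d, hab, hac, had, hbc, hbd, hcd, rfl, key _ (by linarith), key _ (by linarith),
      key _ (by linarith), key _ (by linarith)⟩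

/-- The shape of a fibre; `0` stands for infinity. -/
def AffP (C : RF) (c : P1) (m : ℕ) : Prop :=
  (m = 0 ∧ pas C c = {C.n}) ∨
    (2 ≤ m ∧ ∃ k, C.n = k * m + 1 ∧ pas C c = 1 ::ₘ Multiset.replicate k m)

theorem AffP.zero {C : RF} {c : P1} (h : AffP C c 0) :
    pas C c = (([C.n] : List ℕ) : Multiset ℕ) := by
  rcases h with h | h
  · rw [h.2]
    rfl
  · exact absurd h.1 (by omega)

theorem AffP.pos {C : RF} {c : P1} {m : ℕ} (hm : m ≠ 0) (h : AffP C c m) :
    ∃ k, C.n = k * m + 1 ∧ pas C c = ((1 :: List.replicate k m : List ℕ) : Multiset ℕ) := by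
  rcases h with h | h
  · exact absurd h.1 hm
  · obtain ⟨k, h1, h2⟩ := h.2
    exact ⟨k, h1, by rw [h2]; rfl⟩

theorem AffP.at {C : RF} {c : P1} {m k : ℕ} (hm : m ≠ 0) (h : AffP C c m)
    (hk : C.n = k * m + 1) : pas C c = ((1 :: List.replicate k m : List ℕ) : Multiset ℕ) := by
  obtain ⟨k', h1, h2⟩ := h.pos hm
  have h3 : k' = k := by
    have h4 : k' * m = k * m := by omega
    exact Nat.eq_of_mul_eq_mul_right (Nat.pos_of_ne_zero hm) h4
  rw [h2, h3]

/-- The fibres of the critical values. -/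
theorem aff_core {C : RF} (hn : 2 ≤ C.n) (h : Aff C) :
    ∃ μ : P1 → ℕ, (∀ c ∈ critV C (by omega : 1 ≤ C.n), AffP C c (μ c)) ∧
      ∑ c ∈ critV C (by omega : 1 ≤ C.n), (1 - (1 : ℚ) / μ c) = 2 := by
  have hn1 : 1 ≤ C.n := by omega
  have h1 : ∀ c, ∃ m : ℕ, c ∈ critV C hn1 → AffP C c m := by
    intro c
    by_cases hc : c ∈ critV C hn1
    · obtain ⟨z, hz, he⟩ := (mem_critV hn1).1 hc
      have h2 := card_pas_lt hn1 hz he
      rcases h c with h3 | h3 | ⟨m, k, hm, hk, h3⟩
      · rw [h3, Multiset.card_replicate] at h2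
        exact absurd h2 (lt_irrefl _)
      · exact ⟨0, fun _ => Or.inl ⟨rfl, h3⟩⟩
      · exact ⟨m, fun _ => Or.inr ⟨hm, k, hk, h3⟩⟩
    · exact ⟨0, fun h2 => absurd h2 hc⟩
  choose μ hμ using h1
  refine ⟨μ, hμ, ?_⟩
  have h2 : ∀ c ∈ critV C hn1, (((C.n : ℤ) - Multiset.card (pas C c) : ℤ) : ℚ) =
      ((C.n : ℚ) - 1) * (1 - 1 / μ c) := by
    intro c hc
    rcases hμ c hc with h3 | h3
    · rw [h3.1, h3.2, Multiset.card_singleton]
      push_cast
      simp
    · obtain ⟨k, hk, h4⟩ := h3.2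
      rw [h4, Multiset.card_cons, Multiset.card_replicate, hk]
      have h5 : (μ c : ℚ) ≠ 0 := by
        have : 0 < μ c := by omega
        exact_mod_cast this.ne'
      push_cast
      field_simp
      ring
  have h3 := rh_fibres hn1
  have h4 : ((∑ c ∈ critV C hn1, ((C.n : ℤ) - Multiset.card (pas C c)) : ℤ) : ℚ) =
      ((2 * C.n - 2 : ℤ) : ℚ) := by rw [h3]
  rw [Int.cast_sum, Finset.sum_congr rfl h2, ← Finset.mul_sum] at h4
  push_cast at h4
  have h5 : (0 : ℚ) < (C.n : ℚ) - 1 := by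
    have : (2 : ℚ) ≤ C.n := by exact_mod_cast hn
    linarith
  have h6 : ((C.n : ℚ) - 1) * ∑ c ∈ critV C hn1, (1 - (1 : ℚ) / μ c) = ((C.n : ℚ) - 1) * 2 := by
    rw [h4]
    ring
  exact mul_left_cancel₀ h5.ne' h6

theorem aff_core2 {C : RF} (hn : 2 ≤ C.n) (h : Aff C) :
    TyZ C ∨ TyT C ∨ (TyL C ∧ ∀ z, C.e z ≠ C.n) := by
  classical
  have hn1 : 1 ≤ C.n := by omega
  obtain ⟨μ, hμ, hs⟩ := aff_core hn h
  -- no totally ramified point if no `μ` is zero
  have hz : (∀ c ∈ critV C hn1, μ c ≠ 0) → ∀ z, C.e z ≠ C.n := by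
    intro h0 z hz
    have hc : C.val z ∈ critV C hn1 := (mem_critV hn1).2 ⟨z, rfl, by omega⟩
    obtain ⟨k, hk, h1⟩ := (hμ _ hc).pos (h0 _ hc)
    have h2 := mem_pas hn1 (rfl : C.val z = C.val z)
    rw [h1, hz, Multiset.mem_coe, List.mem_cons, List.mem_replicate] at h2
    rcases h2 with h2 | ⟨h2, h3⟩
    · omega
    · have h4 : 1 * μ (C.val z) ≤ k * μ (C.val z) :=
        Nat.mul_le_mul_right _ (by omega)
      omega
  rcases aff_num (critV C hn1) μ (fun c hc => by
      rcases hμ c hc with h1 | h1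
      · exact Or.inl h1.1
      · exact Or.inr h1.1) hs with
    ⟨a, b, hab, hT, ha, hb⟩ | ⟨a, b, c, hab, hac, hbc, hT, h1⟩ |
      ⟨a, b, c, d, hab, hac, had, hbc, hbd, hcd, hT, ha, hb, hc, hd⟩
  · left
    have h1 := hμ a (by rw [hT]; simp)
    have h2 := hμ b (by rw [hT]; simp)
    rw [ha] at h1
    rw [hb] at h2
    exact aff_hasTy2 hab h1.zero h2.zero
  · have h2 := hμ a (by rw [hT]; simp)
    have h3 := hμ b (by rw [hT]; simp)
    have h4 := hμ c (by rw [hT]; simp)
    rcases h1 with ⟨ha, hb, hc⟩ | ⟨ha, hb, hc⟩ | ⟨ha, hb, hc⟩ | ⟨ha, hb, hc⟩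
    · right
      left
      rw [ha] at h2
      rw [hb] at h3
      rw [hc] at h4
      obtain ⟨k, hk, h5⟩ := h3.pos (by omega)
      exact ⟨k, by omega, aff_hasTy3 hab hac hbc h2.zero h5 (h4.at (by omega) hk)⟩
    · right
      right
      refine ⟨?_, hz ?_⟩
      · rw [ha] at h2
        rw [hb] at h3
        rw [hc] at h4
        obtain ⟨k, hk, h5⟩ := h2.pos (by omega)
        refine Or.inr (Or.inl ⟨k, by omega, ?_⟩)
        exact aff_hasTy3 hab hac hbc h5 (h3.at (by omega) hk) (h4.at (by omega) hk)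
      · intro x hx
        rw [hT] at hx
        simp only [Finset.mem_insert, Finset.mem_singleton] at hx
        rcases hx with rfl | rfl | rfl <;> omega
    · right
      right
      refine ⟨?_, hz ?_⟩
      · rw [ha] at h2
        rw [hb] at h3
        rw [hc] at h4
        obtain ⟨k, hk, h5⟩ := h3.pos (by omega)
        refine Or.inr (Or.inr (Or.inl ⟨k, by omega, ?_⟩))
        exact aff_hasTy3 hab hac hbc (h2.at (k := 2 * k) (by omega) (by omega)) h5
          (h4.at (by omega) hk)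
      · intro x hx
        rw [hT] at hx
        simp only [Finset.mem_insert, Finset.mem_singleton] at hx
        rcases hx with rfl | rfl | rfl <;> omega
    · right
      right
      refine ⟨?_, hz ?_⟩
      · rw [ha] at h2
        rw [hb] at h3
        rw [hc] at h4
        obtain ⟨k, hk, h5⟩ := h4.pos (by omega)
        refine Or.inr (Or.inr (Or.inr ⟨k, by omega, ?_⟩))
        exact aff_hasTy3 hab hac hbc (h2.at (k := 3 * k) (by omega) (by omega))
          (h3.at (k := 2 * k) (by omega) (by omega)) h5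
      · intro x hx
        rw [hT] at hx
        simp only [Finset.mem_insert, Finset.mem_singleton] at hx
        rcases hx with rfl | rfl | rfl <;> omega
  · right
    right
    refine ⟨?_, hz ?_⟩
    · have h2 := hμ a (by rw [hT]; simp)
      have h3 := hμ b (by rw [hT]; simp)
      have h4 := hμ c (by rw [hT]; simp)
      have h5 := hμ d (by rw [hT]; simp)
      rw [ha] at h2
      rw [hb] at h3
      rw [hc] at h4
      rw [hd] at h5
      obtain ⟨k, hk, h6⟩ := h2.pos (by omega)
      refine Or.inl ⟨k, by omega, ?_⟩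
      exact aff_hasTy4 hab hac had hbc hbd hcd h6 (h3.at (by omega) hk) (h4.at (by omega) hk)
        (h5.at (by omega) hk)
    · intro x hx
      rw [hT] at hx
      simp only [Finset.mem_insert, Finset.mem_singleton] at hx
      rcases hx with rfl | rfl | rfl | rfl <;> omega

/-- Proof: `TW_of_HasTy`; `wt {n} = 0`. -/
theorem TW_of_Z {C : RF} (hn : 2 ≤ C.n) (h : TyZ C) : TW C := by
  refine TW_of_HasTy (by omega) h ?_ ?_
  · simp
    omega
  · simp only [List.map_cons, List.map_nil, List.sum_cons, List.sum_nil, aff_wt_single]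
    omega

/-- Proof: `TW_of_HasTy`; `wt (1 ::ₘ replicate k 2) = k`. -/
theorem TW_of_T {C : RF} (hn : 2 ≤ C.n) (h : TyT C) : TW C := by
  obtain ⟨k, hk, h⟩ := h
  refine TW_of_HasTy (by omega) h ?_ ?_
  · simp
    omega
  · simp only [List.map_cons, List.map_nil, List.sum_cons, List.sum_nil, aff_wt_single,
      aff_wt k 2 (by norm_num)]
    omega

/-- Proof: `TW_of_HasTy`; `wt (1 ::ₘ replicate k m) = k (m - 1)`, which is the index of the fibre. -/
theorem TW_of_L {C : RF} (hn : 2 ≤ C.n) (h : TyL C) : TW C := by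
  rcases h with ⟨k, hk, h⟩ | ⟨k, hk, h⟩ | ⟨k, hk, h⟩ | ⟨k, hk, h⟩
  · refine TW_of_HasTy (by omega) h ?_ ?_
    · simp
      omega
    · simp only [List.map_replicate, List.sum_replicate, aff_wt k 2 (by norm_num), smul_eq_mul]
      omega
  · refine TW_of_HasTy (by omega) h ?_ ?_
    · simp
      omega
    · simp only [List.map_replicate, List.sum_replicate, aff_wt k 3 (by norm_num), smul_eq_mul]
      omega
  · refine TW_of_HasTy (by omega) h ?_ ?_
    · simp
      omega
    · simp only [List.map_cons, List.map_nil, List.sum_cons, List.sum_nil,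
        aff_wt (2 * k) 2 (by norm_num), aff_wt k 4 (by norm_num)]
      omega
  · refine TW_of_HasTy (by omega) h ?_ ?_
    · simp
      omega
    · simp only [List.map_cons, List.map_nil, List.sum_cons, List.sum_nil,
        aff_wt (3 * k) 2 (by norm_num), aff_wt (2 * k) 3 (by norm_num),
        aff_wt k 6 (by norm_num)]
      omega

/-- **Classification.**  Let `n = C.n ≥ 2`.

Proof.  The critical values are the values with a fibre `{n}` (index `n - 1`) or
`(m, .., m, 1)` (index `k (m - 1) = (n - 1) (1 - 1 / m)`, because `k m = n - 1 ≥ 1`); put `m = ∞` in the first case.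
`rh_fibres` divided by `n - 1`: `∑ (1 - 1 / m_i) = 2`.  Each term is at least `1 / 2` and at most `1`.  The solutions
(up to order): `(∞, ∞)`, `(∞, 2, 2)`, `(2, 2, 2, 2)`, `(3, 3, 3)`, `(2, 4, 4)`, `(2, 3, 6)`: the number of terms is
`2` (both `1`), `3` or `4` (all `1 / 2`); for three terms `1 / m_1 + 1 / m_2 + 1 / m_3 = 1` (`1 / ∞ = 0`).  In the
case `(3, 3, 3)` etc. `m ∣ n - 1` for all `m`.  Note: for `n = 2` the only critical fibres are `{2}`; for `m = n - 1`
the fibre `(n - 1, 1)` is allowed. -/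
theorem aff_types {C : RF} (hn : 2 ≤ C.n) (h : Aff C) : TyZ C ∨ TyT C ∨ TyL C := by
  rcases aff_core2 hn h with h1 | h1 | h1
  · exact Or.inl h1
  · exact Or.inr (Or.inl h1)
  · exact Or.inr (Or.inr h1.1)

/-- With a totally ramified fibre.  Proof: as `aff_types` (a Lattes type has no fibre `{n}`; for `n = 2`:
`TyL` is impossible). -/
theorem aff_types_tot {C : RF} (hn : 2 ≤ C.n) (h : Aff C) {z : P1} (hz : C.e z = C.n) :
    TyZ C ∨ TyT C := by
  rcases aff_core2 hn h with h1 | h1 | h1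
  · exact Or.inl h1
  · exact Or.inr h1
  · exact absurd hz (h1.2 z)

end WildN
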