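import Pool.Agent.helper21.NI.Aff

/-! Transport of the types under changes of the coordinates. -/

namespace WildN

open Polynomial WildRat WildS WildV WildH

/-- A change of the source coordinate preserves the partitions. -/
theorem pas_source {C C' : RF} (hn1 : 1 ≤ C.n) (hn : C.n = C'.n) {σ : P1 → P1}
    (hσ : Function.Bijective σ) (hv : ∀ z, C.val z = C'.val (σ z))
    (he : ∀ z, C.e z = C'.e (σ z)) (c : P1) : pas C c = pas C' c := by
  classical
  have hn1' : 1 ≤ C'.n := by omega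
  have h1 : fibP C' c = (fibP C c).map ⟨σ, hσ.1⟩ := by
    ext z
    rw [mem_fibP hn1', Finset.mem_map]
    constructor
    · intro hz
      obtain ⟨w, rfl⟩ := hσ.2 z
      exact ⟨w, (mem_fibP hn1).2 (by rw [hv w, hz]), rfl⟩
    · rintro ⟨w, hw, rfl⟩
      have h2 := (mem_fibP hn1).1 hw
      rw [hv w] at h2
      exact h2
  unfold pas
  rw [h1, Finset.map_val, Multiset.map_map]
  exact Multiset.map_congr rfl fun z _ => he z

/-- Transport of `HasTy` along a bijection of the values. -/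
theorem HasTy_map {C C' : RF} {T : P1 → P1} (hT : Function.Bijective T)
    (hpas : ∀ c, pas C' (T c) = pas C c) {τ : List (List ℕ)} (h : HasTy C' τ) : HasTy C τ := by
  obtain ⟨c, hc, hc2⟩ := h
  choose S hS using hT.2
  refine ⟨fun i => S (c i), ?_, fun i => ?_⟩
  · intro i j hij
    apply hc
    have h1 : T (S (c i)) = T (S (c j)) := congrArg T hij
    rwa [hS, hS] at h1
  · show pas C (S (c i)) = _
    rw [← hpas, hS]
    exact hc2 i

/-- Transport along changes of both coordinates: `C'(σ z) = T (C z)`. -/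
structure Eqv (C C' : RF) (σ T : P1 → P1) : Prop where
  n : C.n = C'.n
  src : Function.Bijective σ
  tgt : Function.Bijective T
  val : ∀ z, C'.val (σ z) = T (C.val z)
  e : ∀ z, C'.e (σ z) = C.e z

theorem Eqv.pas {C C' : RF} (hn1 : 1 ≤ C.n) {σ T : P1 → P1} (h : Eqv C C' σ T) (c : P1) :
    pas C' (T c) = pas C c := by
  classical
  have hn1' : 1 ≤ C'.n := by rw [← h.n]; exact hn1
  have h1 : fibP C' (T c) = (fibP C c).map ⟨σ, h.src.1⟩ := by
    ext z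
    rw [mem_fibP hn1', Finset.mem_map]
    constructor
    · intro hz
      obtain ⟨w, rfl⟩ := h.src.2 z
      rw [h.val] at hz
      exact ⟨w, (mem_fibP hn1).2 (h.tgt.1 hz), rfl⟩
    · rintro ⟨w, hw, rfl⟩
      have h2 := (mem_fibP hn1).1 hw
      show C'.val (σ w) = T c
      rw [h.val, h2]
  unfold WildV.pas
  rw [h1, Finset.map_val, Multiset.map_map]
  exact Multiset.map_congr rfl fun z _ => h.e z

theorem Eqv.hasTy {C C' : RF} (hn1 : 1 ≤ C.n) {σ T : P1 → P1} (h : Eqv C C' σ T)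
    {τ : List (List ℕ)} (hτ : HasTy C' τ) : HasTy C τ :=
  HasTy_map h.tgt (h.pas hn1) hτ

theorem Eqv.typAB {C C' : RF} {σ T : P1 → P1} (h : Eqv C C' σ T)
    (h' : TypAB C') : TypAB C := by
  obtain ⟨h2, z, z1, z2, hz, hne, hv, he⟩ := h'
  obtain ⟨w, rfl⟩ := h.src.2 z
  obtain ⟨w1, rfl⟩ := h.src.2 z1
  obtain ⟨w2, rfl⟩ := h.src.2 z2
  rw [h.e, ← h.n] at hz
  rw [h.val, h.val] at hv
  rw [h.e, h.e, ← h.n] at he
  rw [← h.n] at h2
  exact ⟨h2, w, w1, w2, hz, fun h3 => hne (by rw [h3]), h.tgt.1 hv, he⟩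

theorem Eqv.tyI {C C' : RF} (hn1 : 1 ≤ C.n) {σ T : P1 → P1} (h : Eqv C C' σ T)
    (h' : TyI C') : TyI C := by
  rcases h' with h1 | ⟨k, hk, h1⟩ | ⟨τ, hτ, h1⟩
  · exact Or.inl (h.typAB h1)
  · exact Or.inr (Or.inl ⟨k, by rw [h.n]; exact hk, h.hasTy hn1 h1⟩)
  · exact Or.inr (Or.inr ⟨τ, hτ, h.hasTy hn1 h1⟩)

theorem Eqv.tyZ {C C' : RF} (hn1 : 1 ≤ C.n) {σ T : P1 → P1} (h : Eqv C C' σ T)
    (h' : TyZ C') : TyZ C := by
  unfold TyZ at h' ⊢
  rw [← h.n] at h'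
  exact h.hasTy hn1 h'

theorem Eqv.tyT {C C' : RF} (hn1 : 1 ≤ C.n) {σ T : P1 → P1} (h : Eqv C C' σ T)
    (h' : TyT C') : TyT C := by
  obtain ⟨k, hk, h1⟩ := h'
  rw [← h.n] at hk h1
  exact ⟨k, hk, h.hasTy hn1 h1⟩

theorem Eqv.tyL {C C' : RF} (hn1 : 1 ≤ C.n) {σ T : P1 → P1} (h : Eqv C C' σ T)
    (h' : TyL C') : TyL C := by
  unfold TyL at h' ⊢
  rw [← h.n] at h'
  rcases h' with ⟨k, hk, h1⟩ | ⟨k, hk, h1⟩ | ⟨k, hk, h1⟩ | ⟨k, hk, h1⟩
  · exact Or.inl ⟨k, hk, h.hasTy hn1 h1⟩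
  · exact Or.inr (Or.inl ⟨k, hk, h.hasTy hn1 h1⟩)
  · exact Or.inr (Or.inr (Or.inl ⟨k, hk, h.hasTy hn1 h1⟩))
  · exact Or.inr (Or.inr (Or.inr ⟨k, hk, h.hasTy hn1 h1⟩))

theorem Eqv.TW {C C' : RF} (hn1 : 1 ≤ C.n) {σ T : P1 → P1} (h : Eqv C C' σ T)
    (h' : WildH.TW C') : WildH.TW C := by
  classical
  intro S
  have h1 := h' (S.image T)
  rw [Finset.sum_image h.tgt.1.injOn, ← h.n] at h1
  rw [Finset.sum_congr rfl fun c _ => by rw [← h.pas hn1 c]]
  exact h1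

/-- A change of the source coordinate as an equivalence. -/
theorem Eqv.of_source {C C' : RF} (hn : C.n = C'.n) {σ : P1 → P1}
    (hσ : Function.Bijective σ) (hv : ∀ z, C.val z = C'.val (σ z))
    (he : ∀ z, C.e z = C'.e (σ z)) : Eqv C C' σ id :=
  ⟨hn, hσ, Function.bijective_id, fun z => (hv z).symm, fun z => (he z).symm⟩

end WildN
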