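import Pool.Agent.helper21.WV.NumDefs

/-!
# Numerical classification for irreducible curves (helper21, MP_11236d_an, stage 4): definitions
-/

namespace WildN

open Multiset WildV

/-- The hypotheses: the ramified fibres of a map of degree `n` with irreducible curve and a
component of genus at most one. -/
structure NumD {ι : Type} (T : Finset ι) (L : ι → Multiset ℕ) (n : ℕ) : Prop where
  pos : ∀ i ∈ T, ∀ e ∈ L i, 1 ≤ e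
  sum : ∀ i ∈ T, (L i).sum = n
  lt : ∀ i ∈ T, card (L i) < n
  rh : ∑ i ∈ T, ((n : ℤ) - card (L i)) = 2 * n - 2
  tw : ∑ i ∈ T, (wt (L i) : ℤ) ≤ 2 * n - 2
  ev : ∑ i ∈ T, countP Even (L i) ≤ 4
  gcd : ∀ i ∈ T, ∀ j ∈ T, i ≠ j → ∀ d, 2 ≤ d → ¬ (DD d (L i) ∧ DD d (L j))

/-- A totally ramified fibre and a fibre with two points. -/
def CAB {ι : Type} (T : Finset ι) (L : ι → Multiset ℕ) : Prop :=
  ∃ i ∈ T, ∃ j ∈ T, card (L i) = 1 ∧ card (L j) = 2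

/-- Three fibres of the form `(3, .., 3, 1)`. -/
def C333 {ι : Type} (T : Finset ι) (L : ι → Multiset ℕ) (n : ℕ) : Prop :=
  ∃ k, n = 3 * k + 1 ∧ T.card = 3 ∧ ∀ i ∈ T, L i = 1 ::ₘ replicate k 3

/-- The sporadic ramification types. -/
def spor : List (List (List ℕ)) :=
  [[[2, 1], [2, 1], [2, 1], [2, 1]],
   [[4], [2, 1, 1], [2, 1, 1], [2, 1, 1]],
   [[3, 1], [3, 1], [2, 2]],
   [[3, 1], [2, 2], [2, 1, 1], [2, 1, 1]],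
   [[5], [3, 1, 1], [3, 1, 1]],
   [[5], [3, 1, 1], [2, 2, 1]],
   [[5], [2, 2, 1], [2, 2, 1]],
   [[5], [2, 2, 1], [2, 1, 1, 1], [2, 1, 1, 1]],
   [[4, 1], [4, 1], [2, 2, 1]],
   [[4, 1], [3, 2], [2, 2, 1]],
   [[3, 2], [3, 2], [2, 2, 1]],
   [[6], [4, 1, 1], [2, 2, 1, 1]],
   [[6], [3, 2, 1], [2, 2, 1, 1]],
   [[5, 1], [4, 2], [2, 2, 1, 1]],
   [[5, 1], [3, 3], [3, 1, 1, 1]],
   [[5, 1], [3, 3], [2, 2, 1, 1]],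
   [[5, 1], [4, 1, 1], [2, 2, 2]],
   [[5, 1], [3, 2, 1], [2, 2, 2]],
   [[4, 2], [3, 3], [3, 1, 1, 1]],
   [[4, 2], [3, 3], [2, 2, 1, 1]],
   [[4, 2], [3, 3], [2, 1, 1, 1, 1], [2, 1, 1, 1, 1]],
   [[3, 3], [4, 1, 1], [2, 2, 2]],
   [[3, 3], [3, 2, 1], [2, 2, 2]],
   [[3, 3], [2, 2, 2], [3, 1, 1, 1], [2, 1, 1, 1, 1]],
   [[7], [4, 2, 1], [2, 2, 1, 1, 1]],
   [[7], [3, 2, 2], [2, 2, 1, 1, 1]],
   [[7], [3, 3, 1], [3, 1, 1, 1, 1]],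
   [[7], [3, 3, 1], [2, 2, 1, 1, 1]],
   [[7], [4, 1, 1, 1], [2, 2, 2, 1]],
   [[7], [3, 2, 1, 1], [2, 2, 2, 1]],
   [[6, 1], [3, 3, 1], [2, 2, 2, 1]],
   [[5, 2], [3, 3, 1], [2, 2, 2, 1]],
   [[4, 3], [3, 3, 1], [2, 2, 2, 1]],
   [[8], [3, 3, 2], [2, 2, 1, 1, 1, 1]],
   [[8], [3, 3, 1, 1], [2, 2, 2, 1, 1]],
   [[7, 1], [4, 4], [2, 2, 1, 1, 1, 1]],
   [[7, 1], [3, 3, 1, 1], [2, 2, 2, 2]],
   [[5, 3], [4, 4], [2, 2, 1, 1, 1, 1]],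
   [[5, 3], [3, 3, 1, 1], [2, 2, 2, 2]],
   [[9], [4, 4, 1], [2, 2, 1, 1, 1, 1, 1]],
   [[9], [3, 3, 1, 1, 1], [2, 2, 2, 2, 1]],
   [[8, 1], [3, 3, 3], [2, 2, 2, 1, 1, 1]],
   [[7, 2], [3, 3, 3], [2, 2, 2, 1, 1, 1]],
   [[5, 4], [3, 3, 3], [2, 2, 2, 1, 1, 1]],
   [[7, 1, 1], [3, 3, 3], [2, 2, 2, 2, 1]],
   [[5, 3, 1], [3, 3, 3], [2, 2, 2, 2, 1]],
   [[10], [3, 3, 3, 1], [2, 2, 2, 1, 1, 1, 1]],
   [[8, 2], [5, 5], [2, 2, 1, 1, 1, 1, 1, 1]],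
   [[6, 4], [5, 5], [2, 2, 1, 1, 1, 1, 1, 1]],
   [[5, 5], [3, 3, 3, 1], [2, 2, 2, 2, 1, 1]],
   [[4, 2, 2, 2], [3, 3, 3, 1], [3, 3, 3, 1]]]

/-- The family of partitions is one of the sporadic types. -/
def CSp {ι : Type} (T : Finset ι) (L : ι → Multiset ℕ) : Prop :=
  ∃ τ ∈ spor, T.val.map L = ((τ.map fun l => (l : Multiset ℕ) : List (Multiset ℕ)) :
    Multiset (Multiset ℕ))

end WildN
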