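import Pool.Agent.helper21.NI.Types
import Pool.Agent.helper44.Gen.InvD

/-! The number of points with an even index. -/

namespace WildN

open Polynomial WildRat WildS WildV WildH

theorem TW_nat {C : RF} (hn : 1 ≤ C.n) (h : TW C) (T : Finset P1) :
    ∑ c ∈ T, wt (pas C c) ≤ 2 * C.n - 2 := by
  have h1 := h T
  rw [← Nat.cast_sum] at h1
  omega

theorem TW_iff {C : RF} (hn : 1 ≤ C.n) : WildG.TW C ↔ TW C := by
  refine ⟨fun h T => ?_, fun h T => TW_nat hn h T⟩
  have h1 := h T
  rw [← Nat.cast_sum]
  omega

/-- The number of points with an even index. -/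
theorem ev_le {C : RF} (h3 : 3 ≤ C.n) (hD : DT C) (hTW : TW C) (S : Finset P1)
    (hS : ∀ z ∈ S, Even (C.e z)) : S.card ≤ 4 := by
  classical
  have hn : 1 ≤ C.n := by omega
  have h1 := WildG.even_le h3 hD (critV C hn) (fun z hz => (mem_critV hn).2 ⟨z, rfl, by
    have := C.one_le_e hn z
    omega⟩)
  have h2 := TW_nat hn hTW (critV C hn)
  have h3 : S.card ≤ ∑ c ∈ critV C hn, (pas C c).countP Even := by
    have hcnt : ∀ c, (pas C c).countP Even = ((fibP C c).filter fun z => Even (C.e z)).card := by
      intro c
      unfold pas
      rw [Multiset.countP_map]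
      rfl
    calc S.card ≤ ((critV C hn).biUnion fun c =>
          (fibP C c).filter fun z => Even (C.e z)).card := by
            apply Finset.card_le_card
            intro z hz
            have hev := hS z hz
            have h4 : 2 ≤ C.e z := by
              have h5 := C.one_le_e hn z
              rcases hev with ⟨k, hk⟩
              omega
            rw [Finset.mem_biUnion]
            exact ⟨C.val z, (mem_critV hn).2 ⟨z, rfl, h4⟩,
              Finset.mem_filter.2 ⟨(mem_fibP hn).2 rfl, hev⟩⟩
      _ ≤ ∑ c ∈ critV C hn, ((fibP C c).filter fun z => Even (C.e z)).card :=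
            Finset.card_biUnion_le
      _ = ∑ c ∈ critV C hn, (pas C c).countP Even :=
            Finset.sum_congr rfl fun c _ => (hcnt c).symm
  omega

/-- The explicit types for functions with irreducible curve. -/
theorem irr_types {C : RF} (h2 : 2 ≤ C.n) (hD : DT C) (hTW : TW C) : TyI C := by
  rcases Nat.lt_or_ge C.n 3 with h | h
  · exact Or.inl (typ_two (by omega))
  · exact types_of_DT h hD hTW (ev_le h hD hTW)

end WildN
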