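import Pool.Agent.helper21.NI.Ev
import Pool.Agent.helper21.NI.Trans

/-! The list of the sporadic types, refined by the number of even indices. -/

namespace WildN

open Polynomial WildRat WildS WildV WildH

/-- The sporadic ramification types. -/
def sporJ : List (List (List ℕ)) :=
  [[[2, 1], [2, 1], [2, 1], [2, 1]],
   [[4], [2, 1, 1], [2, 1, 1], [2, 1, 1]],
   [[3, 1], [3, 1], [2, 2]],
   [[3, 1], [2, 2], [2, 1, 1], [2, 1, 1]],
   [[5], [3, 1, 1], [3, 1, 1]],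
   [[5], [3, 1, 1], [2, 2, 1]],
   [[5], [2, 2, 1], [2, 1, 1, 1], [2, 1, 1, 1]],
   [[4, 1], [4, 1], [2, 2, 1]],
   [[4, 1], [3, 2], [2, 2, 1]],
   [[3, 2], [3, 2], [2, 2, 1]],
   [[6], [4, 1, 1], [2, 2, 1, 1]],
   [[6], [3, 2, 1], [2, 2, 1, 1]],
   [[5, 1], [4, 2], [2, 2, 1, 1]],
   [[5, 1], [3, 3], [3, 1, 1, 1]],
   [[5, 1], [3, 3], [2, 2, 1, 1]],
   [[5, 1], [4, 1, 1], [2, 2, 2]],
   [[5, 1], [3, 2, 1], [2, 2, 2]],
   [[4, 2], [3, 3], [3, 1, 1, 1]],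
   [[4, 2], [3, 3], [2, 1, 1, 1, 1], [2, 1, 1, 1, 1]],
   [[3, 3], [2, 2, 2], [3, 1, 1, 1], [2, 1, 1, 1, 1]],
   [[7], [4, 2, 1], [2, 2, 1, 1, 1]],
   [[7], [3, 2, 2], [2, 2, 1, 1, 1]],
   [[7], [3, 3, 1], [3, 1, 1, 1, 1]],
   [[7], [3, 3, 1], [2, 2, 1, 1, 1]],
   [[7], [4, 1, 1, 1], [2, 2, 2, 1]],
   [[7], [3, 2, 1, 1], [2, 2, 2, 1]],
   [[6, 1], [3, 3, 1], [2, 2, 2, 1]],
   [[5, 2], [3, 3, 1], [2, 2, 2, 1]],
   [[4, 3], [3, 3, 1], [2, 2, 2, 1]],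
   [[8], [3, 3, 2], [2, 2, 1, 1, 1, 1]],
   [[8], [3, 3, 1, 1], [2, 2, 2, 1, 1]],
   [[7, 1], [4, 4], [2, 2, 1, 1, 1, 1]],
   [[7, 1], [3, 3, 1, 1], [2, 2, 2, 2]],
   [[5, 3], [4, 4], [2, 2, 1, 1, 1, 1]],
   [[5, 3], [3, 3, 1, 1], [2, 2, 2, 2]],
   [[9], [4, 4, 1], [2, 2, 1, 1, 1, 1, 1]],
   [[9], [3, 3, 1, 1, 1], [2, 2, 2, 2, 1]],
   [[8, 1], [3, 3, 3], [2, 2, 2, 1, 1, 1]],
   [[7, 2], [3, 3, 3], [2, 2, 2, 1, 1, 1]],
   [[5, 4], [3, 3, 3], [2, 2, 2, 1, 1, 1]],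
   [[7, 1, 1], [3, 3, 3], [2, 2, 2, 2, 1]],
   [[5, 3, 1], [3, 3, 3], [2, 2, 2, 2, 1]],
   [[10], [3, 3, 3, 1], [2, 2, 2, 1, 1, 1, 1]],
   [[8, 2], [5, 5], [2, 2, 1, 1, 1, 1, 1, 1]],
   [[6, 4], [5, 5], [2, 2, 1, 1, 1, 1, 1, 1]],
   [[4, 2, 2, 2], [3, 3, 3, 1], [3, 3, 3, 1]]]

/-- The explicit types for irreducible curves. -/
def TyJ (C : RF) : Prop := TypAB C ∨ Ty333 C ∨ ∃ τ ∈ sporJ, HasTy C τ

theorem spor_cases : ∀ τ ∈ spor, τ ∈ sporJ ∨ (τ ≠ [] ∧ ∀ l ∈ τ,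
    (τ.map fun l' : List ℕ => wt (l' : Multiset ℕ)).sum + 6 <
      (τ.map fun l' : List ℕ => (l' : Multiset ℕ).countP Even).sum + 2 * l.sum) := by
  decide +kernel

theorem sporJ_sub : ∀ τ ∈ sporJ, τ ∈ spor := by
  decide +kernel

theorem Eqv.tyJ {C C' : RF} (hn1 : 1 ≤ C.n) {σ T : P1 → P1} (h : Eqv C C' σ T)
    (h' : TyJ C') : TyJ C := by
  rcases h' with h1 | ⟨k, hk, h1⟩ | ⟨τ, hτ, h1⟩
  · exact Or.inl (h.typAB h1)
  · exact Or.inr (Or.inl ⟨k, by rw [h.n]; exact hk, h.hasTy hn1 h1⟩)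
  · exact Or.inr (Or.inr ⟨τ, hτ, h.hasTy hn1 h1⟩)

/-- The listed fibres contain all critical values. -/
theorem HasTy_crit {C : RF} (hn : 1 ≤ C.n) {τ : List (List ℕ)} {c : Fin τ.length → P1}
    (hc : Function.Injective c) (hp : ∀ i, pas C (c i) = (τ.get i : Multiset ℕ))
    (hrh : (τ.map fun l => C.n - l.length).sum = 2 * C.n - 2) {z : P1} (hz : C.e z ≠ 1) :
    ∃ i, c i = C.val z := by
  classical
  have hv : C.val z ∈ critV C hn := (mem_critV hn).2 ⟨z, rfl, by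
    have := C.one_le_e hn z
    omega⟩
  by_contra hcon
  have hv' : C.val z ∉ Finset.univ.image c := by
    intro h
    obtain ⟨i, -, hi⟩ := Finset.mem_image.1 h
    exact hcon ⟨i, hi⟩
  have h1 : ∑ v ∈ Finset.univ.image c, ((C.n : ℤ) - Multiset.card (pas C v)) = 2 * C.n - 2 := by
    rw [Finset.sum_image fun i _ j _ hij => hc hij]
    have h2 : ∑ i, ((C.n : ℤ) - Multiset.card (pas C (c i))) =
        ((∑ i : Fin τ.length, (C.n - (τ.get i).length) : ℕ) : ℤ) := by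
      rw [Nat.cast_sum]
      refine Finset.sum_congr rfl fun i _ => ?_
      have h3 := card_pas_le hn (c i)
      rw [hp i, Multiset.coe_card] at h3
      rw [hp i, Multiset.coe_card, Nat.cast_sub h3]
    rw [h2]
    have h3 : ∑ i : Fin τ.length, (C.n - (τ.get i).length) = (τ.map fun l => C.n - l.length).sum := by
      rw [← List.sum_ofFn]
      congr 1
      conv_rhs => rw [← List.ofFn_get τ, List.map_ofFn]
      rfl
    rw [h3, hrh]
    push_cast [show 2 ≤ 2 * C.n by omega]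
    ring
  have h2 := rh_fibres hn
  have h3 : ∑ w ∈ Finset.univ.image c, ((C.n : ℤ) - Multiset.card (pas C w)) =
      ∑ w ∈ (Finset.univ.image c) ∩ critV C hn, ((C.n : ℤ) - Multiset.card (pas C w)) := by
    symm
    refine Finset.sum_subset Finset.inter_subset_left ?_
    intro w hw hw'
    have hwc : w ∉ critV C hn := fun h => hw' (Finset.mem_inter.2 ⟨hw, h⟩)
    rw [← sum_sub_one hn w]
    refine Finset.sum_eq_zero fun z hz => ?_
    have h4 : ¬ 2 ≤ C.e z := fun h5 => hwc ((mem_critV hn).2 ⟨z, (mem_fibP hn).1 hz, h5⟩)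
    have := C.one_le_e hn z
    omega
  have h4 : ∑ w ∈ (Finset.univ.image c) ∩ critV C hn, ((C.n : ℤ) - Multiset.card (pas C w)) <
      ∑ w ∈ critV C hn, ((C.n : ℤ) - Multiset.card (pas C w)) := by
    refine Finset.sum_lt_sum_of_subset Finset.inter_subset_right hv
      (fun h => hv' (Finset.mem_inter.1 h).1) ?_ ?_
    · obtain ⟨z, hz, he⟩ := (mem_critV hn).1 hv
      have := card_pas_lt hn hz he
      omega
    · intro w _ _
      have := card_pas_le hn w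
      omega
  rw [h2, ← h3, h1] at h4
  exact lt_irrefl _ h4

/-- The refined list for functions with irreducible curve. -/
theorem irr_typesJ {C : RF} (h2 : 2 ≤ C.n) (hD : DT C) (hTW : TW C) : TyJ C := by
  classical
  rcases Nat.lt_or_ge C.n 3 with h3 | h3
  · exact Or.inl (typ_two (by omega))
  have hn : 1 ≤ C.n := by omega
  rcases irr_types h2 hD hTW with h | h | ⟨τ, hτ, h⟩
  · exact Or.inl h
  · exact Or.inr (Or.inl h)
  rcases spor_cases τ hτ with h4 | ⟨h4, h5⟩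
  · exact Or.inr (Or.inr ⟨τ, h4, h⟩)
  exfalso
  obtain ⟨c, hc, hp⟩ := h
  have hpos : 0 < τ.length := List.length_pos_iff.2 h4
  have hsum : (τ.get ⟨0, hpos⟩).sum = C.n := by
    have h6 := pas_sum hn (c ⟨0, hpos⟩)
    rw [hp, Multiset.sum_coe] at h6
    exact h6
  have hmem : τ.get ⟨0, hpos⟩ ∈ τ := List.get_mem _ _
  have hrh := ((Types_spor_ok τ hτ).2 _ hmem).1
  rw [hsum] at hrh
  have h6 := h5 _ hmem
  rw [hsum] at h6
  have h7 := WildG.even_le h3 hD (Finset.univ.image c) (fun z hz => by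
    obtain ⟨i, hi⟩ := HasTy_crit hn hc hp hrh hz
    exact Finset.mem_image.2 ⟨i, Finset.mem_univ _, hi⟩)
  rw [Finset.sum_image fun i _ j _ hij => hc hij,
    Finset.sum_image fun i _ j _ hij => hc hij] at h7
  have h8 : ∑ i, wt (pas C (c i)) = (τ.map fun l' : List ℕ => wt (l' : Multiset ℕ)).sum := by
    rw [← List.sum_ofFn]
    congr 1
    conv_rhs => rw [← List.ofFn_get τ, List.map_ofFn]
    congr 1
    funext i
    rw [hp i]
    rfl
  have h9 : ∑ i, (pas C (c i)).countP Even =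
      (τ.map fun l' : List ℕ => (l' : Multiset ℕ).countP Even).sum := by
    rw [← List.sum_ofFn]
    congr 1
    conv_rhs => rw [← List.ofFn_get τ, List.map_ofFn]
    congr 1
    funext i
    rw [hp i]
    rfl
  rw [h8, h9] at h7
  omega

end WildN
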