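import Pool.Agent.helper21.HD.FinalL
import Pool.Agent.helper21.HD.PrimeS
import Pool.Agent.helper21.HD.NormalZ
import Pool.Agent.helper21.HD.NormE
import Pool.Agent.helper21.NI.Refine
import Pool.Agent.helper44.Gen.IffG

/-! The explicit classification (helper21, MP_11236d_an, stage 4). -/

namespace WildN

open Polynomial WildRat WildS WildV WildH

variable {K : Type} [Field K] [Algebra ℂ K]

/-! ### Functions with a lone index -/

theorem lone_norm (hK : Good K) {A : RF} {c q : ℂ} {l : ℕ} (hA : NormL A c q l)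
    {φ ψ : E →ₐ[ℂ] K} (hne : φ ≠ ψ) (h : φ (elt A) = ψ (elt A)) :
    ∃ B C : RF, A.IsComp B C ∧ 2 ≤ C.n ∧ C.e (some q) = l ∧ TW C ∧ (TyJ C ∨ TyZ C ∨ TyT C) := by
  obtain ⟨B, C, hCl, halt⟩ := exists_ClLS hA (hK.fin φ)
  obtain ⟨hAn, -, -, -, -, -, -, -, -⟩ := hCl.facts
  obtain ⟨-, -, -, -, -, -, -, hun⟩ := comp_norm hAn hA.lt hA.unram hCl.comp hCl.lt
  have hTW : TW C := by
    refine TW_of_TWf (le_trans (by norm_num) hCl.two) hCl.lt hun ?_
    by_cases h1 : φ (elt C) = ψ (elt C)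
    · rcases hCl.alt with ⟨mu0, hirr, hmon, hgg⟩ | h2
      · exact fun T => W_one hK hCl.two hCl.lt hun hirr hmon hgg hne h1 T
      · exact h2
    · exact W_twoL hK hCl h h1
  refine ⟨B, C, hCl.comp, hCl.two, hCl.eq, hTW, ?_⟩
  rcases halt with h2 | ⟨h2, h3⟩
  · exact Or.inl (irr_typesJ hCl.two (DT_of_DTm h2) hTW)
  · exact Or.inr (aff_types_tot hCl.two h3 (z := some q) (by rw [hCl.eq, h2]))

theorem lone_good (hK : Good K) (A : RF) (hn : 1 ≤ A.n) {z : P1} {l : ℕ} (hs : LoneAt A z l)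
    (hsol : A.SolIn K) :
    ∃ B C : RF, A.IsComp B C ∧ 2 ≤ C.n ∧ C.e z = l ∧ TW C ∧ (TyJ C ∨ TyZ C ∨ TyT C) := by
  obtain ⟨U, V, hU, hUV, hE⟩ := hsol
  have hV : NonConst V := RF.Eqn.nonConst hn hU hE
  obtain ⟨φ, hφ⟩ := exists_subst hU
  obtain ⟨ψ, hψ⟩ := exists_subst hV
  have hne : φ ≠ ψ := by
    rintro rfl
    exact hUV (hφ.symm.trans hψ)
  have h : φ (elt A) = ψ (elt A) := by
    rw [coord_elt, coord_elt, hφ, hψ]
    exact RF.Eqn.app_eq hn hU hE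
  obtain ⟨A', c', q', hA', htr, hback⟩ := normaliseZ A hn hs
  obtain ⟨φ', ψ', hne', h'⟩ := htr K φ ψ hne h
  obtain ⟨B', C', hcomp', h2', hq, htw, hty⟩ := lone_norm hK hA' hne' h'
  obtain ⟨B, C, hcomp, hCn, σ, hσ, hσz, hv, he⟩ := hback B' C' hcomp' (by omega)
  have hE : Eqv C C' σ id := Eqv.of_source hCn hσ hv he
  refine ⟨B, C, hcomp, by omega, by rw [he, hσz, hq],
    TW_transport (by omega) hCn hσ hv he htw, ?_⟩
  rcases hty with h1 | h1 | h1
  · exact Or.inl (hE.tyJ (by omega) h1)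
  · exact Or.inr (Or.inl (hE.tyZ (by omega) h1))
  · exact Or.inr (Or.inr (hE.tyT (by omega) h1))

/-- **Functions with a lone index.** -/
theorem lone_explicit (A : RF) (hn : 1 ≤ A.n) {z : P1} {l : ℕ} (hs : LoneAt A z l)
    (hw : A.Wild) :
    ∃ B C : RF, A.IsComp B C ∧ 2 ≤ C.n ∧ C.e z = l ∧ TW C ∧ (TyJ C ∨ TyZ C ∨ TyT C) := by
  rcases hw with hr | ⟨f, hf3, hsq, hsol⟩
  · exact lone_good good_E A hn hs hr
  · have := kf_fact f (by rw [hf3]; decide)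
    exact lone_good (good_KF f hf3 hsq) A hn hs hsol

/-! ### Functions of prime degree -/

theorem prime_good (hK : Good K) (A : RF) (hp : A.n.Prime) (hsol : A.SolIn K) :
    TyJ A ∨ TyZ A ∨ TyT A ∨ TyL A := by
  have hn : 2 ≤ A.n := hp.two_le
  obtain ⟨U, V, hU, hUV, hE⟩ := hsol
  have hn1 : 1 ≤ A.n := by omega
  have hV : NonConst V := RF.Eqn.nonConst hn1 hU hE
  obtain ⟨φ, hφ⟩ := exists_subst hU
  obtain ⟨ψ, hψ⟩ := exists_subst hV
  have hne : φ ≠ ψ := by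
    rintro rfl
    exact hUV (hφ.symm.trans hψ)
  have h : φ (elt A) = ψ (elt A) := by
    rw [coord_elt, coord_elt, hφ, hψ]
    exact RF.Eqn.app_eq hn1 hU hE
  obtain ⟨A', hm, hlt, hun, hn', htr, σ, T, hEq⟩ := normaliseE A hn1
  obtain ⟨φ', ψ', hne', h'⟩ := htr K φ ψ hne h
  have hn2 : 2 ≤ A'.n := by omega
  rcases prime_altS (by rw [hn']; exact hp) hm hlt hun with h1 | h1
  · have h2 : TW A' := by
      obtain ⟨mu0, hirr, hmon, hgg⟩ := h1
      exact TW_of_TWf (by omega) hlt hun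
        (fun T => W_one hK hn2 hlt hun hirr hmon hgg hne' h' T)
    exact Or.inl (hEq.tyJ hn1 (irr_typesJ hn2 (DT_of_DTm h1) h2))
  · rcases aff_types hn2 h1 with h2 | h2 | h2
    · exact Or.inr (Or.inl (hEq.tyZ hn1 h2))
    · exact Or.inr (Or.inr (Or.inl (hEq.tyT hn1 h2)))
    · exact Or.inr (Or.inr (Or.inr (hEq.tyL hn1 h2)))

/-- **Prime degree.** -/
theorem prime_explicit (A : RF) (hp : A.n.Prime) (hw : A.Wild) :
    TyJ A ∨ TyZ A ∨ TyT A ∨ TyL A := by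
  rcases hw with hr | ⟨f, hf3, hsq, hsol⟩
  · exact prime_good good_E A hp hr
  · have := kf_fact f (by rw [hf3]; decide)
    exact prime_good (good_KF f hf3 hsq) A hp hsol

/-! ### Functions with an irreducible curve -/

/-- **Irreducible curves.** -/
theorem irr_explicit (A : RF) (hn : 2 ≤ A.n) (h : IrrCurve A) (hw : A.Wild) : TyJ A :=
  irr_typesJ hn (DT_of_Tr2 hn (Tr2_of_irr hn h)) (hard_irr A hn h hw)

/-! ### The easy direction -/

/-- The types of the list are wild. -/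
theorem types_wild {A B C : RF} (hn : 1 ≤ A.n) (hcomp : A.IsComp B C) (h2 : 2 ≤ C.n)
    (h : TyJ C ∨ TyZ C ∨ TyT C ∨ TyL C) : A.Wild := by
  have hC1 : 1 ≤ C.n := by omega
  rcases h with (h | h | ⟨τ, hτ, h⟩) | h | h | h
  · exact wild_of_comp hcomp hn hC1 (typ_wild C (Or.inr (Or.inl h)))
  · exact WildG.wild_of_TW hn hcomp h2 ((TW_iff hC1).2 (TW_of_333 hC1 h))
  · exact WildG.wild_of_TW hn hcomp h2 ((TW_iff hC1).2 (TW_of_spor hC1 (sporJ_sub τ hτ) h))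
  · exact WildG.wild_of_TW hn hcomp h2 ((TW_iff hC1).2 (TW_of_Z h2 h))
  · exact WildG.wild_of_TW hn hcomp h2 ((TW_iff hC1).2 (TW_of_T h2 h))
  · exact WildG.wild_of_TW hn hcomp h2 ((TW_iff hC1).2 (TW_of_L h2 h))

end WildN
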