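import Pool.Agent.helper21.NI.Defs

/-! Lower bounds for the weight (proofs: helper51). -/

namespace WildN

open Multiset WildV

/-- The number of parts divisible by `d`. -/
def nd (d : ℕ) (L : Multiset ℕ) : ℕ := countP (d ∣ ·) L

private theorem Ineq_gcd_sum (a b : ℕ) (ha : 1 ≤ a) :
    Nat.gcd a b = ∑ d ∈ a.divisors, if d ∣ b then Nat.totient d else 0 := by
  rw [← Finset.sum_filter]
  have h1 : a.divisors.filter (fun d => d ∣ b) = (Nat.gcd a b).divisors := by
    ext d
    rw [Finset.mem_filter, Nat.mem_divisors, Nat.mem_divisors, Nat.dvd_gcd_iff]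
    constructor
    · rintro ⟨⟨h1, h2⟩, h3⟩
      exact ⟨⟨h1, h3⟩, by
        intro h0
        exact h2 (Nat.eq_zero_of_gcd_eq_zero_left h0)⟩
    · rintro ⟨⟨h1, h3⟩, -⟩
      exact ⟨⟨h1, by omega⟩, h3⟩
  rw [h1, Nat.sum_totient]

private theorem Ineq_countP_sum (p : ℕ → Prop) [DecidablePred p] (c : ℕ) (L : Multiset ℕ) :
    (L.map fun b => if p b then c else 0).sum = c * countP p L := by
  induction L using Multiset.induction_on with
  | empty => simp
  | cons b L ih =>
    rw [Multiset.map_cons, Multiset.sum_cons, ih, Multiset.countP_cons, mul_add, add_comm]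
    split_ifs with h
    · rw [mul_one]
    · rw [mul_zero]

private theorem Ineq_row (L : Multiset ℕ) (a : ℕ) (ha : 1 ≤ a) :
    (L.map fun b => Nat.gcd a b).sum = ∑ d ∈ a.divisors, Nat.totient d * nd d L := by
  have h1 : (L.map fun b => Nat.gcd a b) =
      L.map fun b => ∑ d ∈ a.divisors, if d ∣ b then Nat.totient d else 0 :=
    Multiset.map_congr rfl fun b _ => Ineq_gcd_sum a b ha
  rw [h1, Multiset.sum_map_sum]
  refine Finset.sum_congr rfl fun d _ => ?_
  exact Ineq_countP_sum (d ∣ ·) (Nat.totient d) L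

private theorem Ineq_row_le (L : Multiset ℕ) {N : ℕ} (hN : ∀ d, 2 ≤ d → nd d L ≤ N) (a : ℕ)
    (ha : 1 ≤ a) : (L.map fun b => Nat.gcd a b).sum + N ≤ card L + N * a := by
  rw [Ineq_row L a ha]
  have h1 : 1 ∈ a.divisors := by
    rw [Nat.mem_divisors]
    exact ⟨one_dvd a, by omega⟩
  have h2 := Nat.sum_totient a
  rw [← Finset.add_sum_erase _ _ h1] at h2
  rw [← Finset.add_sum_erase _ _ h1]
  have h3 : ∑ d ∈ a.divisors.erase 1, Nat.totient d * nd d L ≤
      ∑ d ∈ a.divisors.erase 1, Nat.totient d * N := by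
    refine Finset.sum_le_sum fun d hd => ?_
    rw [Finset.mem_erase, Nat.mem_divisors] at hd
    refine Nat.mul_le_mul_left _ (hN d ?_)
    have h4 : d ≠ 0 := by
      rintro rfl
      exact hd.2.2 (Nat.eq_zero_of_zero_dvd hd.2.1)
    omega
  rw [← Finset.sum_mul] at h3
  have h5 : nd 1 L ≤ card L := Multiset.countP_le_card _ _
  rw [Nat.totient_one] at h2 ⊢
  rw [one_mul]
  generalize (∑ d ∈ a.divisors.erase 1, Nat.totient d) = S at h2 h3
  have h6 : N * a = N + S * N := by
    rw [← h2]
    ring
  rw [h6]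
  omega

/-- termwise equality -/
private theorem Ineq_term (f g : ℕ → ℕ) (L : Multiset ℕ) (h : ∀ a ∈ L, f a ≤ g a)
    (hs : (L.map g).sum ≤ (L.map f).sum) : ∀ a ∈ L, g a = f a := by
  induction L using Multiset.induction_on with
  | empty =>
    intro a ha
    exact absurd ha (Multiset.notMem_zero a)
  | cons b L ih =>
    rw [Multiset.map_cons, Multiset.map_cons, Multiset.sum_cons, Multiset.sum_cons] at hs
    have h1 := h b (Multiset.mem_cons_self b L)
    have h2 : (L.map f).sum ≤ (L.map g).sum :=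
      Multiset.sum_map_le_sum_map _ _ fun a ha => h a (Multiset.mem_cons_of_mem ha)
    intro a ha
    rw [Multiset.mem_cons] at ha
    rcases ha with rfl | ha
    · omega
    · exact ih (fun a ha => h a (Multiset.mem_cons_of_mem ha)) (by omega) a ha

private theorem Ineq_ones {L : Multiset ℕ} (h : ∀ e ∈ L, 1 ≤ e) (hs : L.sum ≤ card L) :
    L = replicate (card L) 1 := by
  rw [Multiset.eq_replicate]
  refine ⟨rfl, ?_⟩
  have h1 := Ineq_term (fun _ => 1) (fun a => a) L h (by
    rw [Multiset.map_id', Multiset.map_const', Multiset.sum_replicate, smul_eq_mul, mul_one]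
    exact hs)
  exact h1

private theorem Ineq_exists_big {L : Multiset ℕ} (h : ∀ e ∈ L, 1 ≤ e) (hs : card L < L.sum) :
    ∃ a, 2 ≤ a ∧ ∃ L' : Multiset ℕ, L = a ::ₘ L' ∧ (∀ e ∈ L', 1 ≤ e) ∧
      L'.sum + a = L.sum ∧ card L' + 1 = card L ∧ card L' ≤ L'.sum := by
  by_contra hc
  have h1 : ∀ a ∈ L, a ≤ 1 := by
    intro a ha
    by_contra h2
    obtain ⟨L', hL'⟩ := Multiset.exists_cons_of_mem ha
    have h3 : ∀ e ∈ L', 1 ≤ e := fun e he => h e (by
      rw [hL']
      exact Multiset.mem_cons_of_mem he)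
    refine hc ⟨a, by omega, L', hL', h3, ?_, ?_, Wt_card_le h3⟩
    · rw [hL', Multiset.sum_cons, add_comm]
    · rw [hL', Multiset.card_cons]
  have h2 := Multiset.sum_le_card_nsmul L 1 h1
  rw [smul_eq_mul, mul_one] at h2
  omega

private theorem Ineq_wt_ones (k : ℕ) (M : Multiset ℕ) :
    wt (replicate k 1 + M) = wt M + k * (M.map fun y => y - 1).sum := by
  rw [wt_replicate_add]
  congr 2
  refine congrArg _ (Multiset.map_congr rfl fun y _ => ?_)
  rw [Nat.gcd_one_left]
  omega

private theorem Ineq_nd_ge {L : Multiset ℕ} (h : ∀ e ∈ L, 1 ≤ e) {d : ℕ} (hd : 3 ≤ d) :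
    2 * nd d L + card L ≤ L.sum := by
  induction L using Multiset.induction_on with
  | empty => simp [nd]
  | cons b L ih =>
    have h1 := ih fun e he => h e (Multiset.mem_cons_of_mem he)
    have h2 := h b (Multiset.mem_cons_self b L)
    unfold nd at h1 ⊢
    rw [Multiset.countP_cons, Multiset.card_cons, Multiset.sum_cons]
    split_ifs with h3
    · have h4 := Nat.le_of_dvd (by omega) h3
      omega
    · omega

/-- The basic inequality `wt ≥ (r - N) (n - r)`, if at most `N` parts are divisible by `d`, for all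
`d ≥ 2`.

Proof.  For a part `a ≥ 1`: `∑ b, gcd (a, b) = ∑ over d ∣ a of φ(d) * nd d L` (`Nat.sum_totient`: `gcd (a, b)` is
the sum of `φ(d)` over the common divisors), the term `d = 1` is `r = card L`, the others are at most
`N * (a - 1)` in total (`∑ over d ∣ a, d ≥ 2, of φ(d) = a - 1`).  So `∑ b, (a - gcd (a, b)) ≥ r a - r - N (a - 1) =
(r - N) (a - 1)`; sum over the parts `a`: `∑ (a - 1) = n - r`. -/
theorem wt_ge_N {L : Multiset ℕ} (h : ∀ e ∈ L, 1 ≤ e) {N : ℕ} (hN : ∀ d, 2 ≤ d → nd d L ≤ N) :
    ((card L : ℤ) - N) * ((L.sum : ℤ) - card L) ≤ wt L := by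
  have h1 := wt_add_gs L h
  have h2 : gs L + N * card L ≤ card L * card L + N * L.sum := by
    unfold gs
    have h3 : (L.map fun a => (L.map fun b => Nat.gcd a b).sum + N).sum ≤
        (L.map fun a => card L + N * a).sum :=
      Multiset.sum_map_le_sum_map _ _ fun a ha => Ineq_row_le L hN a (h a ha)
    rw [Multiset.sum_map_add, Multiset.sum_map_add, Multiset.map_const', Multiset.sum_replicate,
      Multiset.map_const', Multiset.sum_replicate, Multiset.sum_map_mul_left, Multiset.map_id',
      smul_eq_mul, smul_eq_mul] at h3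
    rw [mul_comm N (card L)]
    exact h3
  have h1' : (wt L : ℤ) + gs L = card L * L.sum := by exact_mod_cast h1
  have h2' : (gs L : ℤ) + N * card L ≤ card L * card L + N * L.sum := by exact_mod_cast h2
  nlinarith

/-- A prime number dividing as many parts as possible.  Proof: `nd d L ≤ card L`, so there is a `d ≥ 2` with
the largest `nd d L`; replace `d` by a prime divisor. -/
theorem exists_best (L : Multiset ℕ) : ∃ d, d.Prime ∧ ∀ d', 2 ≤ d' → nd d' L ≤ nd d L := by
  classical
  have hex : ∃ k, ∃ d, 2 ≤ d ∧ card L - nd d L = k := ⟨_, 2, le_rfl, rfl⟩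
  obtain ⟨d, hd, hdk⟩ := Nat.find_spec hex
  have hmin : ∀ d', 2 ≤ d' → nd d' L ≤ nd d L := by
    intro d' hd'
    have h1 := Nat.find_min' hex ⟨d', hd', rfl⟩
    have h2 : nd d L ≤ card L := Multiset.countP_le_card _ _
    have h3 : nd d' L ≤ card L := Multiset.countP_le_card _ _
    omega
  refine ⟨d.minFac, Nat.minFac_prime (by omega), fun d' hd' => (hmin d' hd').trans ?_⟩
  unfold nd
  rw [Multiset.countP_eq_card_filter, Multiset.countP_eq_card_filter]
  refine Multiset.card_le_card (Multiset.monotone_filter_right L fun x hx => ?_)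
  exact (Nat.minFac_dvd d).trans hx

/-- If at most four parts are even, then at most `max (4, (n - r) / 2)` parts are divisible by `d ≥ 2`.
Proof: for even `d` the parts divisible by `d` are even; for `d ≥ 3` every part `a` divisible by `d`
contributes `a - 1 ≥ 2` to `n - r = ∑ (a - 1)`. -/
theorem nd_le {L : Multiset ℕ} (h : ∀ e ∈ L, 1 ≤ e) (hev : countP Even L ≤ 4) {d : ℕ}
    (hd : 2 ≤ d) : 2 * nd d L + card L ≤ max (8 + card L) L.sum := by
  rcases Nat.lt_or_ge d 3 with h3 | h3
  · have h2 : d = 2 := by omega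
    subst h2
    have h4 : nd 2 L = countP Even L := by
      unfold nd
      refine Multiset.countP_congr rfl fun x _ => ?_
      exact propext (even_iff_two_dvd (a := x)).symm
    rw [h4]
    exact le_max_of_le_left (by omega)
  · exact le_max_of_le_right (Ineq_nd_ge h h3)

/-- Almost all parts divisible by one prime: the fibre is strongly ramified.

Proof.  If `d ≥ 3`: `nd d L ≥ r - 1` parts are at least `3`, so `n ≥ 3 (r - j) + j` with `j = r - nd d L ≤ 1`
(the part not divisible is at least one), `3 r ≤ n + 2 j`, `3 (n - r) ≥ 2 n - 2 j ≥ 2 n - 2`.  If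
`d = 2`: `nd 2 L ≤ 4` (`Even`), so `r ≤ 5`, `3 (n - r) ≥ 3 n - 15 ≥ 2 n - 2 + 1` for `n ≥ 14`. -/
theorem big_ram {L : Multiset ℕ} (h : ∀ e ∈ L, 1 ≤ e) (hev : countP Even L ≤ 4)
    (hn : 14 ≤ L.sum) {d : ℕ} (hd : d.Prime) (hj : card L ≤ nd d L + 1) :
    2 * L.sum ≤ 3 * (L.sum - card L) + 2 := by
  have hc := Wt_card_le h
  rcases Nat.lt_or_ge d 3 with h3 | h3
  · have h2 : d = 2 := by
      have := hd.two_le
      omega
    subst h2
    have h4 : nd 2 L = countP Even L := by
      unfold nd
      refine Multiset.countP_congr rfl fun x _ => ?_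
      exact propext (even_iff_two_dvd (a := x)).symm
    rw [h4] at hj
    omega
  · have h4 := Ineq_nd_ge h h3
    omega

/-- The case of equality.  Proof: as `big_ram`; equality forces `d ≥ 3`, `j = 1`, all divisible parts
equal to `3` and the last part equal to `1`. -/
theorem big_ram_eq {L : Multiset ℕ} (h : ∀ e ∈ L, 1 ≤ e) (hev : countP Even L ≤ 4)
    (hn : 14 ≤ L.sum) {d : ℕ} (hd : d.Prime) (hj : card L ≤ nd d L + 1)
    (heq : 2 * L.sum = 3 * (L.sum - card L) + 2) :
    ∃ k, L.sum = 3 * k + 1 ∧ L = 1 ::ₘ replicate k 3 := by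
  have hc := Wt_card_le h
  rcases Nat.lt_or_ge d 3 with h3 | h3
  · exfalso
    have h2 : d = 2 := by
      have := hd.two_le
      omega
    subst h2
    have h4 : nd 2 L = countP Even L := by
      unfold nd
      refine Multiset.countP_congr rfl fun x _ => ?_
      exact propext (even_iff_two_dvd (a := x)).symm
    rw [h4] at hj
    omega
  · have h4 := Ineq_nd_ge h h3
    have h5 : nd d L + 1 = card L := by omega
    have h6 : L.sum = 2 * nd d L + card L := by omega
    have h7 : ∀ a ∈ L, a = 1 + if d ∣ a then 2 else 0 := by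
      refine Ineq_term (fun a => 1 + if d ∣ a then 2 else 0) (fun a => a) L ?_ ?_
      · intro a ha
        have h8 := h a ha
        split_ifs with h9
        · have h10 := Nat.le_of_dvd (by omega) h9
          omega
        · omega
      · rw [Multiset.map_id', Multiset.sum_map_add, Multiset.map_const', Multiset.sum_replicate,
          smul_eq_mul, mul_one, Ineq_countP_sum (d ∣ ·) 2 L, h6]
        unfold nd
        omega
    refine ⟨nd d L, by omega, ?_⟩
    have h8 := Multiset.filter_add_not (d ∣ ·) L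
    have h9 : L.filter (d ∣ ·) = replicate (nd d L) 3 := by
      rw [Multiset.eq_replicate]
      refine ⟨(Multiset.countP_eq_card_filter (d ∣ ·) L).symm, fun b hb => ?_⟩
      rw [Multiset.mem_filter] at hb
      have h10 := h7 b hb.1
      rw [if_pos hb.2] at h10
      exact h10
    have h11 : L.filter (fun x => ¬ d ∣ x) = replicate 1 1 := by
      rw [Multiset.eq_replicate]
      refine ⟨?_, fun b hb => ?_⟩
      · have h12 := congrArg card h8
        rw [Multiset.card_add, h9, Multiset.card_replicate] at h12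
        omega
      · rw [Multiset.mem_filter] at hb
        have h10 := h7 b hb.1
        rw [if_neg hb.2] at h10
        exact h10
    rw [h9, h11] at h8
    have h13 : replicate (nd d L) 3 + replicate 1 1 = 1 ::ₘ replicate (nd d L) 3 := by
      rw [Multiset.replicate_one, add_comm, Multiset.singleton_add]
    exact h8.symm.trans h13

/-- Ramification one.  Proof: `∑ (a - 1) = 1`, so one part is `2` and the others are `1`; the weight
of `2 ::ₘ replicate k 1` is `k` (`wt_simple` in WV/Asm.lean, or compute). -/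
theorem ram_one {L : Multiset ℕ} (h : ∀ e ∈ L, 1 ≤ e) (h1 : L.sum = card L + 1) :
    wt L + 2 = L.sum := by
  obtain ⟨a, ha, L', rfl, h2, h3, h4, h5⟩ := Ineq_exists_big h (by omega)
  have ha2 : a = 2 := by omega
  subst ha2
  have h6 := Ineq_ones h2 (by omega)
  have h7 : wt (2 ::ₘ L') = card L' := by
    conv_lhs => rw [h6]
    rw [← Multiset.singleton_add, add_comm, Ineq_wt_ones]
    simp [wt]
  rw [h7]
  omega

/-- Ramification two.  Proof: the parts different from `1` are `3`, or `2, 2`; the weight is `2 (n - 3)` or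
`2 (n - 4)`. -/
theorem ram_two {L : Multiset ℕ} (h : ∀ e ∈ L, 1 ≤ e) (h1 : L.sum = card L + 2) :
    2 * L.sum ≤ wt L + 8 := by
  obtain ⟨a, ha, L', rfl, h2, h3, h4, h5⟩ := Ineq_exists_big h (by omega)
  rcases Nat.lt_or_ge a 3 with ha3 | ha3
  · have ha2 : a = 2 := by omega
    subst ha2
    obtain ⟨b, hb, L'', rfl, h2', h3', h4', h5'⟩ := Ineq_exists_big h2 (by omega)
    have hb2 : b = 2 := by omega
    subst hb2
    have h6 := Ineq_ones h2' (by omega)
    have h7 : wt (2 ::ₘ 2 ::ₘ L'') = 2 * card L'' := by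
      conv_lhs => rw [h6]
      rw [← Multiset.singleton_add, ← Multiset.singleton_add, ← add_assoc, add_comm,
        Ineq_wt_ones]
      simp [wt, mul_comm]
    rw [h7]
    omega
  · have ha2 : a = 3 := by omega
    subst ha2
    have h6 := Ineq_ones h2 (by omega)
    have h7 : wt (3 ::ₘ L') = 2 * card L' := by
      conv_lhs => rw [h6]
      rw [← Multiset.singleton_add, add_comm, Ineq_wt_ones]
      simp [wt, mul_comm]
    rw [h7]
    omega

/-- Weights of two-part partitions: `wt {a, b} = a + b - 2 gcd (a, b)`. -/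
theorem wt_pair {L : Multiset ℕ} (h : ∀ e ∈ L, 1 ≤ e) (hc : card L = 2) :
    ∃ g, 1 ≤ g ∧ DD g L ∧ wt L + 2 * g = L.sum := by
  obtain ⟨a, b, rfl⟩ := Multiset.card_eq_two.1 hc
  have ha : 1 ≤ a := h a (by simp)
  have hb : 1 ≤ b := h b (by simp)
  refine ⟨Nat.gcd a b, Nat.gcd_pos_of_pos_left b (by omega), ?_, ?_⟩
  · intro e he
    rw [Multiset.insert_eq_cons, Multiset.mem_cons, Multiset.mem_singleton] at he
    rcases he with rfl | rfl
    · exact Nat.gcd_dvd_left _ _
    · exact Nat.gcd_dvd_right _ _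
  · have h1 := Nat.gcd_le_left b (show 0 < a by omega)
    have h2 := Nat.gcd_le_right a (show 0 < b by omega)
    have h3 : wt {a, b} = (a - Nat.gcd a b) + (b - Nat.gcd a b) := by
      simp [wt, Nat.gcd_comm b a]
    have h4 : ({a, b} : Multiset ℕ).sum = a + b := by simp
    rw [h3, h4]
    omega

end WildN
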