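import Pool.Agent.helper21.NI.Ineq

/-! Degree at least `21`. -/

namespace WildN

open Multiset WildV

variable {ι : Type} [DecidableEq ι]

/-- The weighted inequality: with `N i` a bound for all `nd d (L i)`, `d ≥ 2`, and `r i = card (L i)`:
`∑ (r i - N i - 1) (n - r i) ≤ 0`.  Proof: `wt_ge_N`, `tw`, `rh`. -/
theorem Large_sum {T : Finset ι} {L : ι → Multiset ℕ} {n : ℕ} (h : NumD T L n) (N : ι → ℕ)
    (hN : ∀ i ∈ T, ∀ d, 2 ≤ d → nd d (L i) ≤ N i) :
    ∑ i ∈ T, ((card (L i) : ℤ) - N i - 1) * ((n : ℤ) - card (L i)) ≤ 0 := by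
  have h1 : ∀ i ∈ T, ((card (L i) : ℤ) - N i) * ((n : ℤ) - card (L i)) ≤ wt (L i) := by
    intro i hi
    have h2 := wt_ge_N (h.pos i hi) (hN i hi)
    rwa [h.sum i hi] at h2
  have h3 := Finset.sum_le_sum h1
  have h4 := h.tw
  have h5 := h.rh
  have h6 : ∑ i ∈ T, ((card (L i) : ℤ) - N i - 1) * ((n : ℤ) - card (L i)) =
      ∑ i ∈ T, ((card (L i) : ℤ) - N i) * ((n : ℤ) - card (L i)) -
        ∑ i ∈ T, ((n : ℤ) - card (L i)) := by
    rw [← Finset.sum_sub_distrib]
    apply Finset.sum_congr rfl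
    intro i _
    ring
  rw [h6]
  linarith

/-- Lower bound for a fibre with `r - N ≥ 2` (automatic for small `n - r`): if `ρ = n - r` satisfies
`3 ≤ ρ` and `3 ρ + 9 ≤ 2 n`, and `n ≥ 21`, the weight exceeds `2 n - 2`.

Proof.  `wt ≥ ρ (n - ρ - N)` with `2 N ≤ max (8, ρ)` (`wt_ge_N`, `nd_le`).  If `ρ ≤ 8`: `ρ (n - ρ - 4)` is at least
its value at `ρ = 3` or at `ρ = 8`: `3 (n - 7) ≥ 2 n - 1` for `n ≥ 20`... (concave in `ρ`), `8 (n - 12) ≥ 2 n - 1`
for `n ≥ 16`.  If `ρ ≥ 8`: `2 wt ≥ ρ (2 n - 3 ρ)`, concave in `ρ`; at `ρ = 8` it is `8 (2 n - 24) ≥ 4 n - 2`; at the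
largest `ρ` with `2 n - 3 ρ ≥ 9`: `ρ * 9 / 2`.. : `ρ (2 n - 3 ρ) - (4 n - 2)` with `u = 2 n - 3 ρ ≥ 9`,
`2 n = 3 ρ + u`: `ρ u - 6 ρ - 2 u + 2 = (ρ - 2) (u - 6) - 10 > 0` for `ρ ≥ 8`, `u ≥ 9`. -/
theorem Large_mid {L : Multiset ℕ} {n : ℕ} (h : ∀ e ∈ L, 1 ≤ e) (hs : L.sum = n)
    (hev : countP Even L ≤ 4) (hn : 21 ≤ n) {ρ : ℕ} (hρ : card L + ρ = n) (h3 : 3 ≤ ρ)
    (h9 : 3 * ρ + 9 ≤ 2 * n) : 2 * n - 2 < wt L := by
  have hb : ∀ d, 2 ≤ d → nd d L ≤ max 4 (ρ / 2) := by
    intro d hd
    have h1 := nd_le h hev hd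
    rw [hs] at h1
    rcases le_max_iff.1 h1 with h2 | h2
    · exact le_max_of_le_left (by omega)
    · exact le_max_of_le_right (by omega)
  have h2 := wt_ge_N h hb
  rw [hs] at h2
  have hρ' : (n : ℤ) - card L = ρ := by omega
  have hc : (card L : ℤ) = n - ρ := by omega
  rw [hρ', hc] at h2
  rcases le_or_gt ρ 8 with h8 | h8
  · have h4 : max 4 (ρ / 2) = 4 := max_eq_left (by omega)
    rw [h4] at h2
    have h5 : (2 * n - 2 : ℤ) < wt L := by
      interval_cases ρ <;> push_cast at h2 <;> omega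
    omega
  · have h4 : max 4 (ρ / 2) = ρ / 2 := max_eq_right (by omega)
    rw [h4] at h2
    have h5 : (2 : ℤ) * ((ρ / 2 : ℕ) : ℤ) ≤ ρ := by omega
    have h6 : (ρ : ℤ) * (2 * n - 3 * ρ) ≤ 2 * wt L := by
      nlinarith
    have h7 : (0 : ℤ) ≤ ((ρ : ℤ) - 8) * (2 * n - 3 * ρ - 9) := by
      apply mul_nonneg <;> omega
    have h8' : (2 * n - 2 : ℤ) < wt L := by
      have h9 : (9 : ℤ) ≤ 2 * n - 3 * ρ := by omega
      have h10 : (9 : ℤ) ≤ ρ := by omega
      nlinarith
    omega

private theorem Large_one {L : Multiset ℕ} {n : ℕ} (hs : L.sum = n) (hc : card L = 1) :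
    L = {n} := by
  obtain ⟨x, rfl⟩ := card_eq_one.1 hc
  rw [sum_singleton] at hs
  rw [hs]

private theorem Large_DD {L : Multiset ℕ} {d : ℕ} (h : nd d L = card L) : DD d L :=
  fun e he => (countP_eq_card.1 h) e he

private theorem Large_weight {L : Multiset ℕ} {d : ℕ} (h : ∀ e ∈ L, 1 ≤ e) (hd : 5 ≤ d) :
    4 * nd d L + card L ≤ L.sum := by
  induction L using Multiset.induction_on with
  | empty => simp [nd]
  | cons a L ih =>
    have h1 := ih fun e he => h e (mem_cons_of_mem he)
    have ha := h a (mem_cons_self a L)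
    rw [sum_cons, card_cons]
    by_cases hda : d ∣ a
    · have hc : nd d (a ::ₘ L) = nd d L + 1 := countP_cons_of_pos _ hda
      have h2 := Nat.le_of_dvd (by omega) hda
      omega
    · have hc : nd d (a ::ₘ L) = nd d L := countP_cons_of_neg _ hda
      omega

private theorem Large_five {L : Multiset ℕ} {n d : ℕ} (h : ∀ e ∈ L, 1 ≤ e) (hs : L.sum = n)
    (hd : 5 ≤ d) (hj : card L ≤ nd d L + 1) : 5 * card L ≤ n + 4 := by
  have h1 := Large_weight h hd
  omega

private theorem Large_three {L : Multiset ℕ} (hj : card L = nd 3 L + 1) (h3 : 3 ∣ L.sum) :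
    False := by
  have h1 := filter_add_not (3 ∣ ·) L
  have h2 : card (filter (fun a => ¬ 3 ∣ a) L) = 1 := by
    have h3 := congrArg card h1
    rw [card_add] at h3
    unfold nd at hj
    rw [countP_eq_card_filter] at hj
    omega
  obtain ⟨x, hx⟩ := card_eq_one.1 h2
  have hx3 : ¬ 3 ∣ x := by
    have : x ∈ filter (fun a => ¬ 3 ∣ a) L := by rw [hx]; simp
    exact (mem_filter.1 this).2
  apply hx3
  have h4 : (filter (3 ∣ ·) L).sum + x = L.sum := by
    have h5 := congrArg Multiset.sum h1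
    rw [sum_add, hx, sum_singleton] at h5
    exact h5
  have h5 : 3 ∣ (filter (3 ∣ ·) L).sum := dvd_sum fun a ha => (mem_filter.1 ha).2
  rw [← h4] at h3
  exact (Nat.dvd_add_right h5).1 h3

private theorem Large_13 {L L' : Multiset ℕ} {n d : ℕ} (hn : 21 ≤ n) (h : ∀ e ∈ L', 1 ≤ e)
    (hs : L.sum = n) (hs' : L'.sum = n) (hc : card L = 1) (hc' : card L' = 3)
    (hbest : ∀ d', 2 ≤ d' → nd d' L' ≤ nd d L') (hd : d.Prime) (hw : wt L' ≤ 6)
    (hgcd : ∀ d', 2 ≤ d' → ¬ (DD d' L ∧ DD d' L')) : False := by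
  have h0 : nd d L' ≤ card L' := countP_le_card _ _
  rcases Nat.lt_or_ge (nd d L') 3 with h1 | h1
  · have h2 := wt_ge_N h (N := 2) (fun d' hd' => le_trans (hbest d' hd') (by omega))
    rw [hs', hc'] at h2
    push_cast at h2
    omega
  · have h2 : DD d L' := Large_DD (by omega)
    apply hgcd d hd.two_le
    refine ⟨?_, h2⟩
    rw [Large_one hs hc]
    intro e he
    rw [mem_singleton.1 he, ← hs']
    exact dvd_sum h2

/-- **Degree at least `21`.**

Proof.  For every `i ∈ T` let `d i` be a prime as in `exists_best`, `N i = nd (d i) (L i)`,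
`j i = card (L i) - N i`, `ρ i = n - card (L i) ≥ 1`.  `Large_sum`: `∑ (j i - 1) ρ i ≤ 0`.
Let `S = {i ∈ T | j i ≤ 1}`, `D = T \ S`.  By `big_ram`, `3 ρ i ≥ 2 n - 2` on `S`; since `∑ ρ i = 2 n - 2`, `card S ≤ 3`,
and if `card S = 3` then `T = S` (`ρ i ≥ 1`) and equality holds everywhere: `big_ram_eq` gives `C333`.
Let `card S ≤ 2`.  `D` is not empty: otherwise `∑ ρ i = 2 n - 2` over at most two fibres with
`ρ i ≤ n - 1` gives two fibres with one part, both `DD n`, contradicting `gcd`.  Let `A = {i ∈ S | j i = 0}`.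
`∑ over D of (j i - 1) ρ i ≤ ∑ over A of ρ i`, in particular `A` is not empty.
(a) `card S = 1`, `S = A = {a}`: `∑ over D of ρ i = 2 n - 2 - ρ a ≥ n - 1 ≥ ρ a ≥ ∑ over D of (j i - 1) ρ i ≥ ∑ over D of ρ i`, so
`ρ a = n - 1` and `j i = 2` for all `i ∈ D`.  For `i ∈ D`: `2 = n - ρ i - N i`, `2 N i ≤ max (8, ρ i)` (`nd_le`), so
`ρ i ≥ n - 6` or `3 ρ i ≥ 2 n - 4`; in both cases `3 ρ i ≥ 2 n - 4` (`n ≥ 21`).  If `card D ≥ 2`, then
`n - 1 ≥ (4 n - 8) / 3`, `n ≤ 5`.  If `D = {i}`, then `ρ i = n - 1`, `card (L i) = 1`, so `L i = {n}` and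
`nd n (L i) = 1 = card`, `j i = 0`, a contradiction.
(b) `card S = 2`, `S = {a, b}`.  `R = ∑ over D of ρ i = r a + r b - 2` with `r = card`, `3 r i ≤ n + 2` on `S`.
First: every `i ∈ D` has `ρ i ≤ 2`.  Otherwise, by `Large_mid` and `wt (L i) ≤ 2 n - 2`, `3 ρ i + 9 > 2 n`, so
`3 (r a + r b - 2) ≥ 3 ρ i ≥ 2 n - 8`, `3 (r a + r b) ≥ 2 n - 2`, hence `3 r a ≥ n - 4` and `3 r b ≥ n - 4`.  For
`i ∈ {a, b}`: if `d i = 2` then `r i ≤ 5`, `n ≤ 19`; if `d i ≥ 5` then `n ≥ 5 (r i - 1) + 1`, so
`3 n ≥ 15 r i - 12 ≥ 5 n - 32`, `n ≤ 16`.  So `d a = d b = 3`.  If `3 ∣ n`, a part not divisible by three cannot be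
alone, so `j a = j b = 0`, contradicting `gcd` with `d = 3`.  If `3 ∤ n`, then `j a = j b = 1`, `A` is empty, a
contradiction.
So `ρ i ∈ {1, 2}` on `D`; weights: `n - 2` (`ram_one`), at least `2 n - 8` (`ram_two`).  Since `∑ wt ≤ 2 n - 2` and
`n ≥ 21`: `D` has one element, or two elements with `ρ = 1`.  So `R ≤ 2`.
`R = 1`: `r a + r b = 3`, so `CAB`.
`R = 2`: `r a + r b = 4`, and the weights on `D` add up to at least `2 n - 8`, so `wt (L a) + wt (L b) ≤ 6`.
If `{r a, r b} = {1, 3}`, say `r a = 1`: if `j b = 0` then `d b` divides `n` and `gcd` (with `L a = {n}`) is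
violated; so `j b = 1` and `wt (L b) ≥ n - 3 > 6` (`wt_ge_N`).  If `r a = r b = 2`: if `j a = 1` then
`wt (L a) ≥ n - 2 > 6`, the same for `b`; so `j a = j b = 0`; `wt_pair`: `wt (L a) = n - 2 g`, `wt (L b) = n - 2 g'`,
`g, g'` divide `n` and, if `g ≥ 2`, `DD g (L a)`; `g + g' ≥ n - 3`.  `2 g ≤ n`, `2 g' ≤ n`, and `g = g'` contradicts `gcd`, so
one of them is less than `n / 2`, hence at most `n / 3`: `n - 3 ≤ n / 2 + n / 3`, `n ≤ 18`. -/
theorem num_large {T : Finset ι} {L : ι → Multiset ℕ} {n : ℕ} (h : NumD T L n) (hn : 21 ≤ n) :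
    CAB T L ∨ C333 T L n := by
  classical
  choose d hd hbest using fun i => exists_best (L i)
  -- basic facts
  have hsum : ∀ i ∈ T, (L i).sum = n := h.sum
  have hr : ∀ i ∈ T, 1 ≤ card (L i) := by
    intro i hi
    rw [Nat.one_le_iff_ne_zero, Ne, card_eq_zero]
    intro h0
    have := hsum i hi
    rw [h0, sum_zero] at this
    omega
  have hrn : ∀ i ∈ T, card (L i) < n := h.lt
  have hNr : ∀ i, nd (d i) (L i) ≤ card (L i) := fun i => countP_le_card _ _
  have hev : ∀ i ∈ T, countP Even (L i) ≤ 4 := by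
    intro i hi
    exact le_trans (Finset.single_le_sum (f := fun i => countP Even (L i))
      (fun _ _ => Nat.zero_le _) hi) h.ev
  have hLS := Large_sum h (fun i => nd (d i) (L i)) (fun i _ d' hd' => hbest i d' hd')
  have hrh := h.rh
  have htw := h.tw
  set S := T.filter (fun i => card (L i) ≤ nd (d i) (L i) + 1) with hS
  set D := T.filter (fun i => ¬ card (L i) ≤ nd (d i) (L i) + 1) with hD
  have hST : ∀ i ∈ S, i ∈ T := fun i hi => (Finset.mem_filter.1 hi).1
  have hDT : ∀ i ∈ D, i ∈ T := fun i hi => (Finset.mem_filter.1 hi).1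
  have hSj : ∀ i ∈ S, card (L i) ≤ nd (d i) (L i) + 1 := fun i hi => (Finset.mem_filter.1 hi).2
  have hDj : ∀ i ∈ D, nd (d i) (L i) + 2 ≤ card (L i) := fun i hi => by
    have := (Finset.mem_filter.1 hi).2
    omega
  have hsplit : ∀ f : ι → ℤ, ∑ i ∈ S, f i + ∑ i ∈ D, f i = ∑ i ∈ T, f i := fun f =>
    Finset.sum_filter_add_sum_filter_not T _ f
  have hbig : ∀ i ∈ S, (2 * n - 2 : ℤ) ≤ 3 * ((n : ℤ) - card (L i)) := by
    intro i hi
    have h1 := big_ram (h.pos i (hST i hi)) (hev i (hST i hi)) (by rw [hsum i (hST i hi)]; omega)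
      (hd i) (hSj i hi)
    rw [hsum i (hST i hi)] at h1
    have h2 := hrn i (hST i hi)
    omega
  have hDnn : ∀ i ∈ D, ((n : ℤ) - card (L i)) ≤
      ((card (L i) : ℤ) - nd (d i) (L i) - 1) * ((n : ℤ) - card (L i)) := by
    intro i hi
    have h1 := hDj i hi
    have h2 := hrn i (hDT i hi)
    have h3 : (1 : ℤ) ≤ (card (L i) : ℤ) - nd (d i) (L i) - 1 := by omega
    have h4 : (0 : ℤ) < (n : ℤ) - card (L i) := by omega
    nlinarith
  have hDρ : ∀ i ∈ D, (1 : ℤ) ≤ (n : ℤ) - card (L i) := by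
    intro i hi
    have h2 := hrn i (hDT i hi)
    omega
  rw [← hsplit] at hLS hrh htw
  have hDsum := Finset.sum_le_sum hDnn
  have hDwt : ∀ i ∈ D, (0 : ℤ) ≤ (wt (L i) : ℤ) := fun i _ => Int.natCast_nonneg _
  have hDρ0 : (0 : ℤ) ≤ ∑ i ∈ D, ((n : ℤ) - card (L i)) :=
    Finset.sum_nonneg fun i hi => by linarith [hDρ i hi]
  have hcardS : S.card ≤ 3 := by
    have h1 := Finset.sum_le_sum hbig
    rw [Finset.sum_const, nsmul_eq_mul, ← Finset.mul_sum] at h1
    by_contra hcon
    push Not at hcon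
    have h2 : (4 : ℤ) ≤ (S.card : ℤ) := by exact_mod_cast hcon
    have h3 : (40 : ℤ) ≤ 2 * n - 2 := by omega
    nlinarith
  rcases Nat.lt_or_ge S.card 3 with hlt3 | hge3
  swap
  · -- three strongly ramified fibres
    right
    have hS3 : S.card = 3 := le_antisymm hcardS hge3
    have h1 := Finset.sum_le_sum hbig
    rw [Finset.sum_const, nsmul_eq_mul, ← Finset.mul_sum, hS3] at h1
    have hD0 : D = ∅ := by
      rw [Finset.eq_empty_iff_forall_notMem]
      intro i hi
      have h2 := Finset.single_le_sum (f := fun i => (n : ℤ) - card (L i))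
        (fun j hj => by linarith [hDρ j hj]) hi
      have h3 := hDρ i hi
      push_cast at h1
      linarith
    have hTS : T = S := by
      ext i
      constructor
      · intro hi
        by_contra hcon
        have : i ∈ D := Finset.mem_filter.2 ⟨hi, fun hle => hcon (Finset.mem_filter.2 ⟨hi, hle⟩)⟩
        rw [hD0] at this
        simp at this
      · exact hST i
    have heq : ∀ i ∈ S, (2 * n - 2 : ℤ) = 3 * ((n : ℤ) - card (L i)) := by
      rw [← Finset.sum_eq_sum_iff_of_le hbig, Finset.sum_const, nsmul_eq_mul, ← Finset.mul_sum,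
        hS3]
      rw [hD0, Finset.sum_empty, add_zero] at hrh
      rw [hrh]
      push_cast
      ring
    have hform : ∀ i ∈ S, ∃ k, n = 3 * k + 1 ∧ L i = 1 ::ₘ replicate k 3 := by
      intro i hi
      have h2 := big_ram_eq (h.pos i (hST i hi)) (hev i (hST i hi))
        (by rw [hsum i (hST i hi)]; omega) (hd i) (hSj i hi) (by
          rw [hsum i (hST i hi)]
          have h3 := heq i hi
          have h4 := hrn i (hST i hi)
          omega)
      rwa [hsum i (hST i hi)] at h2
    obtain ⟨a, ha⟩ : S.Nonempty := by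
      rw [← Finset.card_pos]
      omega
    obtain ⟨k, hk, -⟩ := hform a ha
    refine ⟨k, hk, by rw [hTS]; exact hS3, fun i hi => ?_⟩
    obtain ⟨k', hk', hL⟩ := hform i (by rw [← hTS]; exact hi)
    have : k' = k := by omega
    rw [hL, this]
  left
  -- the sum over S in the main inequality
  rcases Nat.lt_or_ge S.card 1 with hlt1 | hge1
  · exfalso
    have hS0 : S = ∅ := by
      rw [← Finset.card_eq_zero]
      omega
    rw [hS0, Finset.sum_empty, zero_add] at hLS hrh
    omega
  rcases Nat.lt_or_ge S.card 2 with hlt2 | hge2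
  · -- one strongly ramified fibre: impossible
    exfalso
    obtain ⟨a, ha⟩ := Finset.card_eq_one.1 (by omega : S.card = 1)
    have haS : a ∈ S := by rw [ha]; simp
    rw [ha, Finset.sum_singleton] at hLS hrh
    have h1 := hr a (hST a haS)
    have h1' := hrn a (hST a haS)
    have h2 := hNr a
    have h3 : -((n : ℤ) - card (L a)) ≤
        ((card (L a) : ℤ) - nd (d a) (L a) - 1) * ((n : ℤ) - card (L a)) := by
      have h4 : (0 : ℤ) ≤ (card (L a) : ℤ) - nd (d a) (L a) := by omega
      have h5 : (0 : ℤ) < (n : ℤ) - card (L a) := by omega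
      nlinarith
    have hle : ∑ i ∈ D, ((card (L i) : ℤ) - nd (d i) (L i) - 1) * ((n : ℤ) - card (L i)) ≤
        ∑ i ∈ D, ((n : ℤ) - card (L i)) := by
      linarith
    have heq := le_antisymm hDsum hle
    rw [Finset.sum_eq_sum_iff_of_le hDnn] at heq
    have hDn1 : ∑ i ∈ D, ((n : ℤ) - card (L i)) ≤ n - 1 := by linarith
    have hDn2 : (n : ℤ) - 1 ≤ ∑ i ∈ D, ((n : ℤ) - card (L i)) := by linarith
    have hρ3 : ∀ i ∈ D, (2 * n - 4 : ℤ) ≤ 3 * ((n : ℤ) - card (L i)) := by
      intro i hi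
      have h4 := heq i hi
      have h5 := hDρ i hi
      have h6 : ((card (L i) : ℤ) - nd (d i) (L i) - 2) * ((n : ℤ) - card (L i)) = 0 := by
        linarith
      have h7 : (card (L i) : ℤ) - nd (d i) (L i) - 2 = 0 := by
        rcases mul_eq_zero.1 h6 with h8 | h8
        · exact h8
        · omega
      have h8 := nd_le (h.pos i (hDT i hi)) (hev i (hDT i hi)) (hd i).two_le
      rw [hsum i (hDT i hi)] at h8
      rcases le_max_iff.1 h8 with h9 | h9 <;> omega
    have hDne : D.Nonempty := by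
      rw [Finset.nonempty_iff_ne_empty]
      intro h0
      rw [h0, Finset.sum_empty] at hDn2
      omega
    obtain ⟨i, hi⟩ := hDne
    by_cases hex : ∃ i' ∈ D, i' ≠ i
    · obtain ⟨i', hi', hne⟩ := hex
      have h4 : ((n : ℤ) - card (L i)) + ((n : ℤ) - card (L i')) ≤
          ∑ i ∈ D, ((n : ℤ) - card (L i)) := by
        have hsub : ({i, i'} : Finset ι) ⊆ D := by
          intro x hx
          rcases Finset.mem_insert.1 hx with rfl | hx
          · exact hi
          · rw [Finset.mem_singleton.1 hx]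
            exact hi'
        have h5 := Finset.sum_le_sum_of_subset_of_nonneg (f := fun i => (n : ℤ) - card (L i)) hsub
          (fun j hj _ => by linarith [hDρ j hj])
        rwa [Finset.sum_pair (Ne.symm hne)] at h5
      have h5 := hρ3 i hi
      have h6 := hρ3 i' hi'
      linarith
    · push Not at hex
      have hDi : D = {i} := by
        ext x
        rw [Finset.mem_singleton]
        exact ⟨fun hx => hex x hx, fun hx => by rw [hx]; exact hi⟩
      rw [hDi, Finset.sum_singleton] at hDn2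
      have h4 := hDj i hi
      omega
  -- two strongly ramified fibres
  obtain ⟨a, b, hab, hSab⟩ := Finset.card_eq_two.1 (by omega : S.card = 2)
  have haS : a ∈ S := by rw [hSab]; simp
  have hbS : b ∈ S := by rw [hSab]; simp
  have haT := hST a haS
  have hbT := hST b hbS
  rw [hSab, Finset.sum_pair hab] at hLS hrh htw
  have ha1 := hr a haT
  have hb1 := hr b hbT
  have han := hrn a haT
  have hbn := hrn b hbT
  have hgcd := h.gcd a haT b hbT hab
  have hDne : D.Nonempty := by
    rw [Finset.nonempty_iff_ne_empty]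
    intro h0
    rw [h0, Finset.sum_empty, add_zero] at hrh
    have h1 : card (L a) = 1 := by omega
    have h2 : card (L b) = 1 := by omega
    apply hgcd n (by omega)
    rw [Large_one (hsum a haT) h1, Large_one (hsum b hbT) h2]
    constructor <;> intro e he <;> rw [Multiset.mem_singleton.1 he]
  -- not both defects are positive
  have hA : nd (d a) (L a) = card (L a) ∨ nd (d b) (L b) = card (L b) := by
    by_contra hcon
    push Not at hcon
    have h1 := hNr a
    have h2 := hNr b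
    have h3 := hSj a haS
    have h4 := hSj b hbS
    have h5 : (card (L a) : ℤ) - nd (d a) (L a) - 1 = 0 := by omega
    have h6 : (card (L b) : ℤ) - nd (d b) (L b) - 1 = 0 := by omega
    rw [h5, h6, zero_mul, zero_mul, zero_add, zero_add] at hLS
    obtain ⟨i, hi⟩ := hDne
    have h7 := Finset.single_le_sum (f := fun i => (n : ℤ) - card (L i))
        (fun j hj => by linarith [hDρ j hj]) hi
    have h8 := hDρ i hi
    linarith
  have hwti : ∀ i ∈ D, (wt (L i) : ℤ) ≤ 2 * n - 2 := by
    intro i hi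
    have h1 := Finset.single_le_sum (f := fun i => (wt (L i) : ℤ)) hDwt hi
    have h2 : (0 : ℤ) ≤ (wt (L a) : ℤ) := Int.natCast_nonneg _
    have h3 : (0 : ℤ) ≤ (wt (L b) : ℤ) := Int.natCast_nonneg _
    linarith
  have hba := hbig a haS
  have hbb := hbig b hbS
  have hD2 : ∀ i ∈ D, (n : ℤ) - card (L i) ≤ 2 := by
    intro i hi
    by_contra hcon
    push Not at hcon
    have h1 := hrn i (hDT i hi)
    have h2 : ¬ (3 * (n - card (L i)) + 9 ≤ 2 * n) := by
      intro h9
      have h3 := Large_mid (h.pos i (hDT i hi)) (hsum i (hDT i hi)) (hev i (hDT i hi)) hn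
        (ρ := n - card (L i)) (by omega) (by omega) h9
      have h4 := hwti i hi
      omega
    have h3 := Finset.single_le_sum (f := fun i => (n : ℤ) - card (L i))
        (fun j hj => by linarith [hDρ j hj]) hi
    have h4 : (n : ℤ) - 4 ≤ 3 * card (L a) := by omega
    have h5 : (n : ℤ) - 4 ≤ 3 * card (L b) := by omega
    have hd3 : ∀ x ∈ T, card (L x) ≤ nd (d x) (L x) + 1 → (n : ℤ) - 4 ≤ 3 * card (L x) →
        d x = 3 := by
      intro x hx hj h6
      have h7 := (hd x).two_le
      by_contra hne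
      rcases Nat.lt_or_ge (d x) 5 with h8 | h8
      · have h9 : d x = 2 ∨ d x = 4 := by omega
        rcases h9 with h9 | h9
        · have h10 : nd (d x) (L x) ≤ 4 := by
            refine le_trans (le_of_eq ?_) (hev x hx)
            unfold nd
            rw [h9]
            apply Multiset.countP_congr rfl
            intro e _
            exact propext even_iff_two_dvd.symm
          omega
        · have h10 := hd x
          rw [h9] at h10
          exact absurd h10 (by norm_num)
      · have h9 := Large_five (h.pos x hx) (hsum x hx) h8 hj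
        omega
    have hda := hd3 a haT (hSj a haS) h4
    have hdb := hd3 b hbT (hSj b hbS) h5
    have hja := hSj a haS
    have hjb := hSj b hbS
    rw [hda] at hA hja
    rw [hdb] at hA hjb
    have hNa : nd 3 (L a) ≤ card (L a) := countP_le_card _ _
    have hNb : nd 3 (L b) ≤ card (L b) := countP_le_card _ _
    by_cases h3n : 3 ∣ n
    · have h6 : nd 3 (L a) = card (L a) := by
        by_contra hne
        exact Large_three (by omega : card (L a) = nd 3 (L a) + 1) (by rw [hsum a haT]; exact h3n)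
      have h7 : nd 3 (L b) = card (L b) := by
        by_contra hne
        exact Large_three (by omega : card (L b) = nd 3 (L b) + 1) (by rw [hsum b hbT]; exact h3n)
      exact hgcd 3 (by norm_num) ⟨Large_DD h6, Large_DD h7⟩
    · rcases hA with h6 | h6
      · apply h3n
        rw [← hsum a haT]
        exact Multiset.dvd_sum (Large_DD h6)
      · apply h3n
        rw [← hsum b hbT]
        exact Multiset.dvd_sum (Large_DD h6)
  -- weights on D
  have hDw : ∀ i ∈ D, ((n : ℤ) - card (L i) = 1 ∧ (wt (L i) : ℤ) = n - 2) ∨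
      ((n : ℤ) - card (L i) = 2 ∧ (2 * n - 8 : ℤ) ≤ wt (L i)) := by
    intro i hi
    have h1 := hD2 i hi
    have h2 := hDρ i hi
    have h3 : (n : ℤ) - card (L i) = 1 ∨ (n : ℤ) - card (L i) = 2 := by omega
    rcases h3 with h3 | h3
    · left
      have h4 := ram_one (h.pos i (hDT i hi)) (by rw [hsum i (hDT i hi)]; omega)
      rw [hsum i (hDT i hi)] at h4
      exact ⟨h3, by omega⟩
    · right
      have h4 := ram_two (h.pos i (hDT i hi)) (by rw [hsum i (hDT i hi)]; omega)
      rw [hsum i (hDT i hi)] at h4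
      exact ⟨h3, by omega⟩
  have hDfin : ∑ i ∈ D, ((n : ℤ) - card (L i)) = 1 ∨
      (∑ i ∈ D, ((n : ℤ) - card (L i)) = 2 ∧ (2 * n - 8 : ℤ) ≤ ∑ i ∈ D, (wt (L i) : ℤ)) := by
    have hlow : ∀ i ∈ D, (n - 2 : ℤ) * ((n : ℤ) - card (L i)) - 4 *
        (((n : ℤ) - card (L i)) - 1) ≤ (wt (L i) : ℤ) := by
      intro i hi
      rcases hDw i hi with ⟨h1, h2⟩ | ⟨h1, h2⟩
      · rw [h1, h2]
        linarith
      · rw [h1]
        linarith
    have hlow2 : ∀ i ∈ D, (n - 4 : ℤ) * ((n : ℤ) - card (L i)) ≤ (wt (L i) : ℤ) := by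
      intro i hi
      rcases hDw i hi with ⟨h1, h2⟩ | ⟨h1, h2⟩
      · rw [h1, h2]
        linarith
      · rw [h1]
        linarith
    have h1 := Finset.sum_le_sum hlow2
    rw [← Finset.mul_sum] at h1
    have h2 : (0 : ℤ) ≤ (wt (L a) : ℤ) := Int.natCast_nonneg _
    have h3 : (0 : ℤ) ≤ (wt (L b) : ℤ) := Int.natCast_nonneg _
    have h4 : ∑ i ∈ D, ((n : ℤ) - card (L i)) ≤ 2 := by
      by_contra hcon
      push Not at hcon
      have h5 : (3 : ℤ) ≤ ∑ i ∈ D, ((n : ℤ) - card (L i)) := hcon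
      have h6 : (17 : ℤ) ≤ n - 4 := by omega
      nlinarith
    obtain ⟨i, hi⟩ := hDne
    have h5 := Finset.single_le_sum (f := fun i => (n : ℤ) - card (L i))
        (fun j hj => by linarith [hDρ j hj]) hi
    have h6 := hDρ i hi
    have h7 : ∑ i ∈ D, ((n : ℤ) - card (L i)) = 1 ∨ ∑ i ∈ D, ((n : ℤ) - card (L i)) = 2 := by
      omega
    rcases h7 with h7 | h7
    · exact Or.inl h7
    · right
      refine ⟨h7, ?_⟩
      rw [h7] at h1
      linarith
  rcases hDfin with h1 | ⟨h1, h2⟩
  · rw [h1] at hrh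
    have h3 : card (L a) + card (L b) = 3 := by omega
    rcases Nat.lt_or_ge (card (L a)) 2 with h4 | h4
    · exact ⟨a, haT, b, hbT, by omega, by omega⟩
    · exact ⟨b, hbT, a, haT, by omega, by omega⟩
  · exfalso
    rw [h1] at hrh
    have h3 : card (L a) + card (L b) = 4 := by omega
    have h4 : (wt (L a) : ℤ) + wt (L b) ≤ 6 := by linarith
    rcases Nat.lt_or_ge (card (L a)) 2 with h5 | h5
    · exact Large_13 hn (h.pos b hbT) (hsum a haT) (hsum b hbT) (by omega) (by omega)
        (fun d' hd' => hbest b d' hd') (hd b) (by omega) (fun d' hd' => hgcd d' hd')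
    · rcases Nat.lt_or_ge (card (L b)) 2 with h6 | h6
      · exact Large_13 hn (h.pos a haT) (hsum b hbT) (hsum a haT) (by omega) (by omega)
          (fun d' hd' => hbest a d' hd') (hd a) (by omega)
          (fun d' hd' h7 => hgcd d' hd' ⟨h7.2, h7.1⟩)
      · obtain ⟨g, hg1, hg2, hg3⟩ := wt_pair (h.pos a haT) (by omega)
        obtain ⟨g', hg1', hg2', hg3'⟩ := wt_pair (h.pos b hbT) (by omega)
        rw [hsum a haT] at hg3
        rw [hsum b hbT] at hg3'
        obtain ⟨k, hk⟩ : g ∣ n := by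
          rw [← hsum a haT]
          exact Multiset.dvd_sum hg2
        obtain ⟨k', hk'⟩ : g' ∣ n := by
          rw [← hsum b hbT]
          exact Multiset.dvd_sum hg2'
        have hk2 : 2 ≤ k := by
          by_contra hcon
          have h7 : k = 0 ∨ k = 1 := by omega
          rcases h7 with h7 | h7
          · rw [h7] at hk
            omega
          · rw [h7, mul_one] at hk
            omega
        have hk2' : 2 ≤ k' := by
          by_contra hcon
          have h7 : k' = 0 ∨ k' = 1 := by omega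
          rcases h7 with h7 | h7
          · rw [h7] at hk'
            omega
          · rw [h7, mul_one] at hk'
            omega
        have hsum' : n ≤ g + g' + 3 := by omega
        have hne : k ≠ k' := by
          intro heq
          have h7 : g = g' := by
            rw [heq] at hk
            rw [hk] at hk'
            exact Nat.eq_of_mul_eq_mul_right (by omega) hk'
          rw [← h7] at hg2'
          exact hgcd g (by omega) ⟨hg2, hg2'⟩
        have h7 : (2 ≤ k ∧ 3 ≤ k') ∨ (3 ≤ k ∧ 2 ≤ k') := by omega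
        rcases h7 with ⟨h7, h8⟩ | ⟨h7, h8⟩
        · have h9 : g * 2 ≤ n := by
            rw [hk]
            exact Nat.mul_le_mul_left g h7
          have h10 : g' * 3 ≤ n := by
            rw [hk']
            exact Nat.mul_le_mul_left g' h8
          omega
        · have h9 : g * 3 ≤ n := by
            rw [hk]
            exact Nat.mul_le_mul_left g h7
          have h10 : g' * 2 ≤ n := by
            rw [hk']
            exact Nat.mul_le_mul_left g' h8
          omega

end WildN
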