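import Pool.Agent.helper21.NI.Defs
import Pool.Agent.helper21.WV.NumFin

/-! Degree between `3` and `20`, by computation in the kernel. -/

namespace WildN

open Multiset WildV

/-- A candidate: the list of the parts, the index, the weight, the number of even parts and the
greatest common divisor of the parts. -/
abbrev Small_T : Type := List ℕ × ℕ × ℕ × ℕ × ℕ

/-- The number of even parts. -/
def Small_ev (l : List ℕ) : ℕ := l.countP fun a => a % 2 == 0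

/-- The candidates in degree `n`. -/
def Small_cand (n : ℕ) : List Small_T :=
  ((NumFin_parts n n n).filter fun l =>
    Nat.blt l.length n && (Nat.ble (NumFin_wt l) (2 * n - 2) && Nat.ble (Small_ev l) 4)).map
    fun l => (l, n - l.length, NumFin_wt l, Small_ev l, l.foldr Nat.gcd 0)

/-- The conclusion for a family of partitions. -/
def Small_concl (n : ℕ) (ch : List (List ℕ)) : Bool :=
  (ch.any (fun l => l.length == 1) && ch.any (fun l => l.length == 2)) ||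
  ((n == 3 * (n / 3) + 1 && (ch.length == 3 &&
    ch.all (fun l => l == List.replicate (n / 3) 3 ++ [1]))) ||
  spor.any (fun τ => τ.isPerm ch))

/-- The search. -/
def Small_srch (n : ℕ) : ℕ → ℕ → ℕ → ℕ → List Small_T → List Small_T → Bool
  | 0, _, _, _, _, _ => false
  | _ + 1, idx, _, _, [], ch => idx != 0 || Small_concl n (ch.map Prod.fst)
  | k + 1, idx, w, ev, a :: A, ch =>
    Small_srch n k idx w ev A ch &&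
      (bif (Nat.ble a.2.1 idx && (Nat.ble a.2.2.1 w && (Nat.ble a.2.2.2.1 ev &&
          ch.all (fun c => Nat.ble (Nat.gcd a.2.2.2.2 c.2.2.2.2) 1)))) then
        Small_srch n k (idx - a.2.1) (w - a.2.2.1) (ev - a.2.2.2.1) (a :: A) (a :: ch) else true)

theorem Small_sound {ι : Type} [DecidableEq ι] (key : ι → Small_T) (n : ℕ) :
    ∀ (k idx w ev : ℕ) (A ch : List Small_T) (T : Finset ι),
      Small_srch n k idx w ev A ch = true → (∀ c ∈ T, key c ∈ A) →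
      ∑ c ∈ T, (key c).2.1 = idx → ∑ c ∈ T, (key c).2.2.1 ≤ w → ∑ c ∈ T, (key c).2.2.2.1 ≤ ev →
      (∀ c ∈ T, ∀ a ∈ ch, Nat.gcd (key c).2.2.2.2 a.2.2.2.2 ≤ 1) →
      (∀ c ∈ T, ∀ c' ∈ T, c ≠ c' → Nat.gcd (key c).2.2.2.2 (key c').2.2.2.2 ≤ 1) →
      ∃ ch' : List Small_T, Small_concl n (ch'.map Prod.fst) = true ∧
        (ch' : Multiset Small_T) = T.val.map key + (ch : Multiset Small_T) := by
  intro k
  induction k with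
  | zero =>
    intro idx w ev A ch T h
    simp [Small_srch] at h
  | succ k ih =>
    intro idx w ev A ch T h hA hidx hw hev hch hT
    cases A with
    | nil =>
      have hT0 : T = ∅ := by
        rw [Finset.eq_empty_iff_forall_notMem]
        intro c hc
        have := hA c hc
        simp at this
      subst hT0
      rw [Finset.sum_empty] at hidx
      rw [Small_srch, ← hidx] at h
      exact ⟨ch, by simpa using h, by simp⟩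
    | cons a A =>
      rw [Small_srch, Bool.and_eq_true] at h
      obtain ⟨h1, h2⟩ := h
      by_cases hex : ∃ c ∈ T, key c = a
      · obtain ⟨c0, hc0, hk0⟩ := hex
        have hs1 : (key c0).2.1 + ∑ c ∈ T.erase c0, (key c).2.1 = idx := by
          rw [Finset.add_sum_erase T (fun c => (key c).2.1) hc0]
          exact hidx
        have hs2 : (key c0).2.2.1 + ∑ c ∈ T.erase c0, (key c).2.2.1 ≤ w := by
          rw [Finset.add_sum_erase T (fun c => (key c).2.2.1) hc0]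
          exact hw
        have hs3 : (key c0).2.2.2.1 + ∑ c ∈ T.erase c0, (key c).2.2.2.1 ≤ ev := by
          rw [Finset.add_sum_erase T (fun c => (key c).2.2.2.1) hc0]
          exact hev
        rw [hk0] at hs1 hs2 hs3
        have hcond : (Nat.ble a.2.1 idx && (Nat.ble a.2.2.1 w && (Nat.ble a.2.2.2.1 ev &&
            ch.all (fun c => Nat.ble (Nat.gcd a.2.2.2.2 c.2.2.2.2) 1)))) = true := by
          simp only [Bool.and_eq_true, Nat.ble_eq, List.all_eq_true]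
          refine ⟨by omega, by omega, by omega, ?_⟩
          intro b hb
          have h3 := hch c0 hc0 b hb
          rwa [hk0] at h3
        rw [hcond, cond_true] at h2
        obtain ⟨ch', hc1, hc2⟩ := ih (idx - a.2.1) (w - a.2.2.1) (ev - a.2.2.2.1) (a :: A)
          (a :: ch) (T.erase c0) h2 (fun c hc => hA c (Finset.mem_of_mem_erase hc)) (by omega)
          (by omega) (by omega)
          (by
            intro c hc b hb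
            rcases List.mem_cons.mp hb with h3 | h3
            · rw [h3, ← hk0]
              exact hT c (Finset.mem_of_mem_erase hc) c0 hc0 (Finset.ne_of_mem_erase hc)
            · exact hch c (Finset.mem_of_mem_erase hc) b h3)
          (fun c hc c' hc' hne => hT c (Finset.mem_of_mem_erase hc) c'
            (Finset.mem_of_mem_erase hc') hne)
        refine ⟨ch', hc1, ?_⟩
        rw [hc2]
        have h4 : T.val = c0 ::ₘ (T.erase c0).val := by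
          rw [Finset.erase_val]
          exact (Multiset.cons_erase hc0).symm
        rw [h4, Multiset.map_cons, hk0, ← Multiset.cons_coe, Multiset.add_cons, Multiset.cons_add]
      · refine ih idx w ev A ch T h1 (fun c hc => ?_) hidx hw hev hch hT
        rcases List.mem_cons.mp (hA c hc) with h3 | h3
        · exact absurd ⟨c, hc, h3⟩ hex
        · exact h3

theorem Small_ev_eq (l : List ℕ) : countP Even (l : Multiset ℕ) = Small_ev l := by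
  rw [Multiset.coe_countP]
  unfold Small_ev
  apply List.countP_congr
  intro a _
  simp [Nat.even_iff]

theorem Small_coe (τ : List (List ℕ)) : ((τ.map fun l => (l : Multiset ℕ) :
    List (Multiset ℕ)) : Multiset (Multiset ℕ)) = (List.map Multiset.ofList τ : List _) := by
  congr 1
  simp only [List.bind_eq_flatMap, List.map_id_fun', id_eq]
  induction τ with
  | nil => rfl
  | cons a τ ih =>
    rw [List.flatMap_cons, ih]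
    rfl

theorem Small_main {ι : Type} [DecidableEq ι] {T : Finset ι} {L : ι → Multiset ℕ} {n : ℕ}
    (h : NumD T L n) (hn : 3 ≤ n) (C : List Small_T) (hC : Small_cand n = C)
    (hS : Small_srch n 100 (2 * n - 2) (2 * n - 2) 4 C [] = true) :
    CAB T L ∨ C333 T L n ∨ CSp T L := by
  have hkey : ∀ c ∈ T, ∃ p : Small_T, p ∈ C ∧ (p.1 : Multiset ℕ) = L c ∧
      p.2.1 = n - card (L c) ∧ p.2.2.1 = wt (L c) ∧ p.2.2.2.1 = countP Even (L c) ∧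
      ∀ e ∈ L c, p.2.2.2.2 ∣ e := by
    intro c hc
    have hwc : (wt (L c) : ℤ) ≤ 2 * n - 2 :=
      (Finset.single_le_sum (f := fun c => (wt (L c) : ℤ)) (fun _ _ => Int.natCast_nonneg _)
        hc).trans h.tw
    have hec : countP Even (L c) ≤ 4 :=
      (Finset.single_le_sum (f := fun c => countP Even (L c)) (fun _ _ => Nat.zero_le _) hc).trans
        h.ev
    obtain ⟨l, hl1, hl2⟩ := NumFin_parts_mem n n n (L c) le_rfl (h.pos c hc)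
      (fun e he => (Multiset.le_sum_of_mem he).trans (h.sum c hc).le) (h.sum c hc)
    have hcard : l.length = card (L c) := by
      rw [← hl2]
      rfl
    have hwt : NumFin_wt l = wt (L c) := by rw [← NumFin_wt_eq, hl2]
    have hev : Small_ev l = countP Even (L c) := by rw [← Small_ev_eq, hl2]
    refine ⟨(l, n - l.length, NumFin_wt l, Small_ev l, l.foldr Nat.gcd 0), ?_, hl2, ?_, hwt, hev,
      ?_⟩
    · rw [← hC]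
      unfold Small_cand
      refine List.mem_map.mpr ⟨l, ?_, rfl⟩
      rw [List.mem_filter]
      refine ⟨hl1, ?_⟩
      have h1 := h.lt c hc
      simp only [Bool.and_eq_true, Nat.blt_eq, Nat.ble_eq]
      rw [hcard, hwt, hev]
      exact ⟨h1, by omega, hec⟩
    · change n - l.length = _
      rw [hcard]
    · intro e he
      rw [← hl2] at he
      exact NumFin_gcd_dvd l e (Multiset.mem_coe.mp he)
  choose! key hk1 hk2 hk3 hk4 hk5 hk6 using hkey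
  obtain ⟨ch, hc1, hc2⟩ := Small_sound key n 100 (2 * n - 2) (2 * n - 2) 4 C [] T hS hk1
    (by
      rw [Finset.sum_congr rfl hk3]
      have h1 : ((∑ i ∈ T, (n - card (L i)) : ℕ) : ℤ) = 2 * n - 2 := by
        rw [← h.rh, Nat.cast_sum]
        refine Finset.sum_congr rfl fun i hi => ?_
        rw [Nat.cast_sub (h.lt i hi).le]
      omega)
    (by
      rw [Finset.sum_congr rfl hk4]
      have h1 : ((∑ i ∈ T, wt (L i) : ℕ) : ℤ) ≤ 2 * n - 2 := by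
        rw [Nat.cast_sum]
        exact h.tw
      omega)
    (by
      rw [Finset.sum_congr rfl hk5]
      exact h.ev)
    (fun c _ a ha => by simp at ha)
    (by
      intro c hc c' hc' hne
      by_contra hcon
      refine h.gcd c hc c' hc' hne (Nat.gcd (key c).2.2.2.2 (key c').2.2.2.2) (by omega)
        ⟨fun e he => (Nat.gcd_dvd_left _ _).trans (hk6 c hc e he),
          fun e he => (Nat.gcd_dvd_right _ _).trans (hk6 c' hc' e he)⟩)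
  rw [Multiset.coe_nil, add_zero] at hc2
  have hk : ∀ a ∈ ch.map Prod.fst, ∃ c ∈ T, L c = (a : Multiset ℕ) := by
    intro a ha
    obtain ⟨p, hp, rfl⟩ := List.mem_map.mp ha
    have h1 : p ∈ T.val.map key := by
      rw [← hc2]
      exact Multiset.mem_coe.mpr hp
    obtain ⟨c, hc, rfl⟩ := Multiset.mem_map.mp h1
    exact ⟨c, hc, (hk2 c hc).symm⟩
  have hk' : ∀ c ∈ T, (key c).1 ∈ ch.map Prod.fst := by
    intro c hc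
    refine List.mem_map.mpr ⟨key c, ?_, rfl⟩
    rw [← Multiset.mem_coe, hc2]
    exact Multiset.mem_map.mpr ⟨c, hc, rfl⟩
  have hmap : T.val.map L = ((List.map Multiset.ofList (ch.map Prod.fst) :
      List (Multiset ℕ)) : Multiset (Multiset ℕ)) := by
    have h1 : T.val.map L = (T.val.map key).map fun p => Multiset.ofList p.1 := by
      rw [Multiset.map_map]
      exact Multiset.map_congr rfl fun c hc => (hk2 c hc).symm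
    rw [h1, ← hc2, Multiset.map_coe, List.map_map]
    rfl
  unfold Small_concl at hc1
  simp only [Bool.or_eq_true, Bool.and_eq_true, List.any_eq_true, List.all_eq_true,
    beq_iff_eq] at hc1
  rcases hc1 with ⟨⟨x, hx, hx1⟩, ⟨y, hy, hy1⟩⟩ | ⟨h4, h5, h6⟩ | ⟨τ, hτ, h7⟩
  · obtain ⟨c, hc, e1⟩ := hk x hx
    obtain ⟨c', hc', e2⟩ := hk y hy
    refine Or.inl ⟨c, hc, c', hc', ?_, ?_⟩
    · rw [e1]
      exact hx1
    · rw [e2]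
      exact hy1
  · refine Or.inr (Or.inl ⟨n / 3, h4, ?_, ?_⟩)
    · have h8 : card (T.val.map key) = ch.length := by
        rw [← hc2, Multiset.coe_card]
      rw [Multiset.card_map] at h8
      rw [List.length_map] at h5
      exact h8.trans h5
    · intro i hi
      rw [← hk2 i hi, h6 _ (hk' i hi)]
      have h9 : (List.replicate (n / 3) 3 ++ [1] : List ℕ).Perm (1 :: List.replicate (n / 3) 3) :=
        List.perm_append_comm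
      exact Multiset.coe_eq_coe.mpr h9
  · refine Or.inr (Or.inr ⟨τ, hτ, ?_⟩)
    rw [hmap]
    rw [List.isPerm_iff] at h7
    rw [Small_coe]
    exact Multiset.coe_eq_coe.mpr (h7.symm.map _)

/-- The candidates in degree `3`. -/
def Small_C3 : List Small_T :=
  [([3], 2, 0, 0, 3), ([2, 1], 1, 1, 1, 1)]

theorem Small_hC3 : Small_cand 3 = Small_C3 := by decide +kernel

theorem Small_hS3 : Small_srch 3 100 4 4 4 Small_C3 [] = true := by decide +kernel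

/-- The candidates in degree `4`. -/
def Small_C4 : List Small_T :=
  [([4], 3, 0, 1, 4), ([3, 1], 2, 2, 0, 1), ([2, 2], 2, 0, 2, 2), ([2, 1, 1], 1, 2, 1, 1)]

theorem Small_hC4 : Small_cand 4 = Small_C4 := by decide +kernel

theorem Small_hS4 : Small_srch 4 100 6 6 4 Small_C4 [] = true := by decide +kernel

/-- The candidates in degree `5`. -/
def Small_C5 : List Small_T :=
  [([5], 4, 0, 0, 5), ([4, 1], 3, 3, 1, 1), ([3, 2], 3, 3, 1, 1), ([3, 1, 1], 2, 4, 0, 1), ([2,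
  2, 1], 2, 2, 2, 1), ([2, 1, 1, 1], 1, 3, 1, 1)]

theorem Small_hC5 : Small_cand 5 = Small_C5 := by decide +kernel

theorem Small_hS5 : Small_srch 5 100 8 8 4 Small_C5 [] = true := by decide +kernel

/-- The candidates in degree `6`. -/
def Small_C6 : List Small_T :=
  [([6], 5, 0, 1, 6), ([5, 1], 4, 4, 0, 1), ([4, 2], 4, 2, 2, 2), ([4, 1, 1], 3, 6, 1, 1), ([3,
  3], 4, 0, 0, 3), ([3, 2, 1], 3, 6, 1, 1), ([3, 1, 1, 1], 2, 6, 0, 1), ([2, 2, 2], 3, 0, 3, 2),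
  ([2, 2, 1, 1], 2, 4, 2, 1), ([2, 1, 1, 1, 1], 1, 4, 1, 1)]

theorem Small_hC6 : Small_cand 6 = Small_C6 := by decide +kernel

theorem Small_hS6 : Small_srch 6 100 10 10 4 Small_C6 [] = true := by decide +kernel

/-- The candidates in degree `7`. -/
def Small_C7 : List Small_T :=
  [([7], 6, 0, 0, 7), ([6, 1], 5, 5, 1, 1), ([5, 2], 5, 5, 1, 1), ([5, 1, 1], 4, 8, 0, 1), ([4,
  3], 5, 5, 1, 1), ([4, 2, 1], 4, 6, 2, 1), ([4, 1, 1, 1], 3, 9, 1, 1), ([3, 3, 1], 4, 4, 0, 1),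
  ([3, 2, 2], 4, 6, 2, 1), ([3, 2, 1, 1], 3, 9, 1, 1), ([3, 1, 1, 1, 1], 2, 8, 0, 1), ([2, 2, 2,
  1], 3, 3, 3, 1), ([2, 2, 1, 1, 1], 2, 6, 2, 1), ([2, 1, 1, 1, 1, 1], 1, 5, 1, 1)]

theorem Small_hC7 : Small_cand 7 = Small_C7 := by decide +kernel

theorem Small_hS7 : Small_srch 7 100 12 12 4 Small_C7 [] = true := by decide +kernel

/-- The candidates in degree `8`. -/
def Small_C8 : List Small_T :=
  [([8], 7, 0, 1, 8), ([7, 1], 6, 6, 0, 1), ([6, 2], 6, 4, 2, 2), ([6, 1, 1], 5, 10, 1, 1), ([5,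
  3], 6, 6, 0, 1), ([5, 2, 1], 5, 10, 1, 1), ([5, 1, 1, 1], 4, 12, 0, 1), ([4, 4], 6, 0, 2, 4),
  ([4, 3, 1], 5, 10, 1, 1), ([4, 2, 2], 5, 4, 3, 2), ([4, 2, 1, 1], 4, 10, 2, 1), ([4, 1, 1, 1,
  1], 3, 12, 1, 1), ([3, 3, 2], 5, 6, 1, 1), ([3, 3, 1, 1], 4, 8, 0, 1), ([3, 2, 2, 1], 4, 10, 2,
  1), ([3, 2, 1, 1, 1], 3, 12, 1, 1), ([3, 1, 1, 1, 1, 1], 2, 10, 0, 1), ([2, 2, 2, 2], 4, 0, 4,
  2), ([2, 2, 2, 1, 1], 3, 6, 3, 1), ([2, 2, 1, 1, 1, 1], 2, 8, 2, 1), ([2, 1, 1, 1, 1, 1, 1], 1,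
  6, 1, 1)]

theorem Small_hC8 : Small_cand 8 = Small_C8 := by decide +kernel

theorem Small_hS8 : Small_srch 8 100 14 14 4 Small_C8 [] = true := by decide +kernel

/-- The candidates in degree `9`. -/
def Small_C9 : List Small_T :=
  [([9], 8, 0, 0, 9), ([8, 1], 7, 7, 1, 1), ([7, 2], 7, 7, 1, 1), ([7, 1, 1], 6, 12, 0, 1), ([6,
  3], 7, 3, 1, 3), ([6, 2, 1], 6, 10, 2, 1), ([6, 1, 1, 1], 5, 15, 1, 1), ([5, 4], 7, 7, 1, 1),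
  ([5, 3, 1], 6, 12, 0, 1), ([5, 2, 2], 6, 10, 2, 1), ([5, 2, 1, 1], 5, 15, 1, 1), ([5, 1, 1, 1,
  1], 4, 16, 0, 1), ([4, 4, 1], 6, 6, 2, 1), ([4, 3, 2], 6, 10, 2, 1), ([4, 3, 1, 1], 5, 15, 1,
  1), ([4, 2, 2, 1], 5, 9, 3, 1), ([4, 2, 1, 1, 1], 4, 14, 2, 1), ([4, 1, 1, 1, 1, 1], 3, 15, 1,
  1), ([3, 3, 3], 6, 0, 0, 3), ([3, 3, 2, 1], 5, 11, 1, 1), ([3, 3, 1, 1, 1], 4, 12, 0, 1), ([3,
  2, 2, 2], 5, 9, 3, 1), ([3, 2, 2, 1, 1], 4, 14, 2, 1), ([3, 2, 1, 1, 1, 1], 3, 15, 1, 1), ([3,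
  1, 1, 1, 1, 1, 1], 2, 12, 0, 1), ([2, 2, 2, 2, 1], 4, 4, 4, 1), ([2, 2, 2, 1, 1, 1], 3, 9, 3,
  1), ([2, 2, 1, 1, 1, 1, 1], 2, 10, 2, 1), ([2, 1, 1, 1, 1, 1, 1, 1], 1, 7, 1, 1)]

theorem Small_hC9 : Small_cand 9 = Small_C9 := by decide +kernel

theorem Small_hS9 : Small_srch 9 100 16 16 4 Small_C9 [] = true := by decide +kernel

/-- The candidates in degree `10`. -/
def Small_C10 : List Small_T :=
  [([10], 9, 0, 1, 10), ([9, 1], 8, 8, 0, 1), ([8, 2], 8, 6, 2, 2), ([8, 1, 1], 7, 14, 1, 1),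
  ([7, 3], 8, 8, 0, 1), ([7, 2, 1], 7, 14, 1, 1), ([7, 1, 1, 1], 6, 18, 0, 1), ([6, 4], 8, 6, 2,
  2), ([6, 3, 1], 7, 10, 1, 1), ([6, 2, 2], 7, 8, 3, 2), ([6, 2, 1, 1], 6, 16, 2, 1), ([5, 5], 8,
  0, 0, 5), ([5, 4, 1], 7, 14, 1, 1), ([5, 3, 2], 7, 14, 1, 1), ([5, 3, 1, 1], 6, 18, 0, 1), ([5,
  2, 2, 1], 6, 16, 2, 1), ([4, 4, 2], 7, 4, 3, 2), ([4, 4, 1, 1], 6, 12, 2, 1), ([4, 3, 3], 7,
  10, 1, 1), ([4, 3, 2, 1], 6, 16, 2, 1), ([4, 2, 2, 2], 6, 6, 4, 2), ([4, 2, 2, 1, 1], 5, 14, 3,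
  1), ([4, 2, 1, 1, 1, 1], 4, 18, 2, 1), ([4, 1, 1, 1, 1, 1, 1], 3, 18, 1, 1), ([3, 3, 3, 1], 6,
  6, 0, 1), ([3, 3, 2, 2], 6, 12, 2, 1), ([3, 3, 2, 1, 1], 5, 16, 1, 1), ([3, 3, 1, 1, 1, 1], 4,
  16, 0, 1), ([3, 2, 2, 2, 1], 5, 14, 3, 1), ([3, 2, 2, 1, 1, 1], 4, 18, 2, 1), ([3, 2, 1, 1, 1,
  1, 1], 3, 18, 1, 1), ([3, 1, 1, 1, 1, 1, 1, 1], 2, 14, 0, 1), ([2, 2, 2, 2, 1, 1], 4, 8, 4, 1),
  ([2, 2, 2, 1, 1, 1, 1], 3, 12, 3, 1), ([2, 2, 1, 1, 1, 1, 1, 1], 2, 12, 2, 1), ([2, 1, 1, 1, 1,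
  1, 1, 1, 1], 1, 8, 1, 1)]

theorem Small_hC10 : Small_cand 10 = Small_C10 := by decide +kernel

theorem Small_hS10 : Small_srch 10 100 18 18 4 Small_C10 [] = true := by decide +kernel

/-- The candidates in degree `11`. -/
def Small_C11 : List Small_T :=
  [([11], 10, 0, 0, 11), ([10, 1], 9, 9, 1, 1), ([9, 2], 9, 9, 1, 1), ([9, 1, 1], 8, 16, 0, 1),
  ([8, 3], 9, 9, 1, 1), ([8, 2, 1], 8, 14, 2, 1), ([7, 4], 9, 9, 1, 1), ([7, 3, 1], 8, 16, 0, 1),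
  ([7, 2, 2], 8, 14, 2, 1), ([6, 5], 9, 9, 1, 1), ([6, 4, 1], 8, 14, 2, 1), ([6, 3, 2], 8, 10, 2,
  1), ([6, 3, 1, 1], 7, 17, 1, 1), ([6, 2, 2, 1], 7, 15, 3, 1), ([5, 5, 1], 8, 8, 0, 1), ([5, 4,
  2], 8, 14, 2, 1), ([5, 3, 3], 8, 12, 0, 1), ([5, 2, 2, 2], 7, 15, 3, 1), ([4, 4, 3], 8, 10, 2,
  1), ([4, 4, 2, 1], 7, 11, 3, 1), ([4, 4, 1, 1, 1], 6, 18, 2, 1), ([4, 3, 3, 1], 7, 17, 1, 1),
  ([4, 3, 2, 2], 7, 15, 3, 1), ([4, 2, 2, 2, 1], 6, 12, 4, 1), ([4, 2, 2, 1, 1, 1], 5, 19, 3, 1),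
  ([3, 3, 3, 2], 7, 9, 1, 1), ([3, 3, 3, 1, 1], 6, 12, 0, 1), ([3, 3, 2, 2, 1], 6, 18, 2, 1),
  ([3, 3, 1, 1, 1, 1, 1], 4, 20, 0, 1), ([3, 2, 2, 2, 2], 6, 12, 4, 1), ([3, 2, 2, 2, 1, 1], 5,
  19, 3, 1), ([3, 1, 1, 1, 1, 1, 1, 1, 1], 2, 16, 0, 1), ([2, 2, 2, 2, 1, 1, 1], 4, 12, 4, 1),
  ([2, 2, 2, 1, 1, 1, 1, 1], 3, 15, 3, 1), ([2, 2, 1, 1, 1, 1, 1, 1, 1], 2, 14, 2, 1), ([2, 1, 1,
  1, 1, 1, 1, 1, 1, 1], 1, 9, 1, 1)]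

theorem Small_hC11 : Small_cand 11 = Small_C11 := by decide +kernel

theorem Small_hS11 : Small_srch 11 100 20 20 4 Small_C11 [] = true := by decide +kernel

/-- The candidates in degree `12`. -/
def Small_C12 : List Small_T :=
  [([12], 11, 0, 1, 12), ([11, 1], 10, 10, 0, 1), ([10, 2], 10, 8, 2, 2), ([10, 1, 1], 9, 18, 1,
  1), ([9, 3], 10, 6, 0, 3), ([9, 2, 1], 9, 18, 1, 1), ([8, 4], 10, 4, 2, 4), ([8, 3, 1], 9, 18,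
  1, 1), ([8, 2, 2], 9, 12, 3, 2), ([8, 2, 1, 1], 8, 22, 2, 1), ([7, 5], 10, 10, 0, 1), ([7, 4,
  1], 9, 18, 1, 1), ([7, 3, 2], 9, 18, 1, 1), ([7, 2, 2, 1], 8, 22, 2, 1), ([6, 6], 10, 0, 2, 6),
  ([6, 5, 1], 9, 18, 1, 1), ([6, 4, 2], 9, 12, 3, 2), ([6, 4, 1, 1], 8, 22, 2, 1), ([6, 3, 3], 9,
  6, 1, 3), ([6, 3, 2, 1], 8, 18, 2, 1), ([6, 2, 2, 2], 8, 12, 4, 2), ([6, 2, 2, 1, 1], 7, 22, 3,
  1), ([5, 5, 2], 9, 10, 1, 1), ([5, 5, 1, 1], 8, 16, 0, 1), ([5, 4, 3], 9, 18, 1, 1), ([5, 4, 2,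
  1], 8, 22, 2, 1), ([5, 3, 3, 1], 8, 20, 0, 1), ([5, 3, 2, 2], 8, 22, 2, 1), ([5, 2, 2, 2, 1],
  7, 22, 3, 1), ([4, 4, 4], 9, 0, 3, 4), ([4, 4, 3, 1], 8, 18, 2, 1), ([4, 4, 2, 2], 8, 8, 4, 2),
  ([4, 4, 2, 1, 1], 7, 18, 3, 1), ([4, 3, 3, 2], 8, 18, 2, 1), ([4, 3, 2, 2, 1], 7, 22, 3, 1),
  ([4, 2, 2, 2, 1, 1], 6, 18, 4, 1), ([3, 3, 3, 3], 8, 0, 0, 3), ([3, 3, 3, 2, 1], 7, 16, 1, 1),
  ([3, 3, 3, 1, 1, 1], 6, 18, 0, 1), ([3, 3, 2, 2, 2], 7, 18, 3, 1), ([3, 2, 2, 2, 2, 1], 6, 18,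
  4, 1), ([3, 1, 1, 1, 1, 1, 1, 1, 1, 1], 2, 18, 0, 1), ([2, 2, 2, 2, 1, 1, 1, 1], 4, 16, 4, 1),
  ([2, 2, 2, 1, 1, 1, 1, 1, 1], 3, 18, 3, 1), ([2, 2, 1, 1, 1, 1, 1, 1, 1, 1], 2, 16, 2, 1), ([2,
  1, 1, 1, 1, 1, 1, 1, 1, 1, 1], 1, 10, 1, 1)]

theorem Small_hC12 : Small_cand 12 = Small_C12 := by decide +kernel

theorem Small_hS12 : Small_srch 12 100 22 22 4 Small_C12 [] = true := by decide +kernel

/-- The candidates in degree `13`. -/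
def Small_C13 : List Small_T :=
  [([13], 12, 0, 0, 13), ([12, 1], 11, 11, 1, 1), ([11, 2], 11, 11, 1, 1), ([11, 1, 1], 10, 20,
  0, 1), ([10, 3], 11, 11, 1, 1), ([10, 2, 1], 10, 18, 2, 1), ([9, 4], 11, 11, 1, 1), ([9, 3, 1],
  10, 16, 0, 1), ([9, 2, 2], 10, 18, 2, 1), ([8, 5], 11, 11, 1, 1), ([8, 4, 1], 10, 14, 2, 1),
  ([8, 3, 2], 10, 18, 2, 1), ([8, 2, 2, 1], 9, 21, 3, 1), ([7, 6], 11, 11, 1, 1), ([7, 5, 1], 10,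
  20, 0, 1), ([7, 4, 2], 10, 18, 2, 1), ([7, 3, 3], 10, 16, 0, 1), ([7, 2, 2, 2], 9, 21, 3, 1),
  ([6, 6, 1], 10, 10, 2, 1), ([6, 5, 2], 10, 18, 2, 1), ([6, 4, 3], 10, 14, 2, 1), ([6, 4, 2, 1],
  9, 21, 3, 1), ([6, 3, 3, 1], 9, 15, 1, 1), ([6, 3, 2, 2], 9, 17, 3, 1), ([6, 2, 2, 2, 1], 8,
  20, 4, 1), ([5, 5, 3], 10, 12, 0, 1), ([5, 5, 2, 1], 9, 19, 1, 1), ([5, 5, 1, 1, 1], 8, 24, 0,
  1), ([5, 4, 4], 10, 14, 2, 1), ([5, 4, 2, 2], 9, 21, 3, 1), ([5, 3, 3, 2], 9, 23, 1, 1), ([5,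
  2, 2, 2, 2], 8, 20, 4, 1), ([4, 4, 4, 1], 9, 9, 3, 1), ([4, 4, 3, 2], 9, 17, 3, 1), ([4, 4, 2,
  2, 1], 8, 16, 4, 1), ([4, 3, 3, 3], 9, 15, 1, 1), ([4, 3, 2, 2, 2], 8, 20, 4, 1), ([4, 2, 2, 2,
  1, 1, 1], 6, 24, 4, 1), ([3, 3, 3, 3, 1], 8, 8, 0, 1), ([3, 3, 3, 2, 2], 8, 18, 2, 1), ([3, 3,
  3, 2, 1, 1], 7, 23, 1, 1), ([3, 3, 3, 1, 1, 1, 1], 6, 24, 0, 1), ([3, 2, 2, 2, 2, 1, 1], 6, 24,
  4, 1), ([3, 1, 1, 1, 1, 1, 1, 1, 1, 1, 1], 2, 20, 0, 1), ([2, 2, 2, 2, 1, 1, 1, 1, 1], 4, 20,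
  4, 1), ([2, 2, 2, 1, 1, 1, 1, 1, 1, 1], 3, 21, 3, 1), ([2, 2, 1, 1, 1, 1, 1, 1, 1, 1, 1], 2,
  18, 2, 1), ([2, 1, 1, 1, 1, 1, 1, 1, 1, 1, 1, 1], 1, 11, 1, 1)]

theorem Small_hC13 : Small_cand 13 = Small_C13 := by decide +kernel

theorem Small_hS13 : Small_srch 13 100 24 24 4 Small_C13 [] = true := by decide +kernel

/-- The candidates in degree `14`. -/
def Small_C14 : List Small_T :=
  [([14], 13, 0, 1, 14), ([13, 1], 12, 12, 0, 1), ([12, 2], 12, 10, 2, 2), ([12, 1, 1], 11, 22,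
  1, 1), ([11, 3], 12, 12, 0, 1), ([11, 2, 1], 11, 22, 1, 1), ([10, 4], 12, 10, 2, 2), ([10, 3,
  1], 11, 22, 1, 1), ([10, 2, 2], 11, 16, 3, 2), ([9, 5], 12, 12, 0, 1), ([9, 4, 1], 11, 22, 1,
  1), ([9, 3, 2], 11, 18, 1, 1), ([9, 3, 1, 1], 10, 26, 0, 1), ([8, 6], 12, 10, 2, 2), ([8, 5,
  1], 11, 22, 1, 1), ([8, 4, 2], 11, 12, 3, 2), ([8, 4, 1, 1], 10, 24, 2, 1), ([8, 3, 3], 11, 18,
  1, 1), ([8, 2, 2, 2], 10, 18, 4, 2), ([7, 7], 12, 0, 0, 7), ([7, 6, 1], 11, 22, 1, 1), ([7, 5,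
  2], 11, 22, 1, 1), ([7, 4, 3], 11, 22, 1, 1), ([7, 3, 3, 1], 10, 26, 0, 1), ([6, 6, 2], 11, 8,
  3, 2), ([6, 6, 1, 1], 10, 20, 2, 1), ([6, 5, 3], 11, 18, 1, 1), ([6, 4, 4], 11, 12, 3, 2), ([6,
  4, 3, 1], 10, 24, 2, 1), ([6, 4, 2, 2], 10, 18, 4, 2), ([6, 3, 3, 2], 10, 16, 2, 1), ([6, 3, 3,
  1, 1], 9, 24, 1, 1), ([6, 3, 2, 2, 1], 9, 26, 3, 1), ([5, 5, 4], 11, 14, 1, 1), ([5, 5, 3, 1],
  10, 22, 0, 1), ([5, 5, 2, 2], 10, 20, 2, 1), ([5, 4, 4, 1], 10, 24, 2, 1), ([5, 3, 3, 3], 10,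
  18, 0, 1), ([4, 4, 4, 2], 10, 6, 4, 2), ([4, 4, 4, 1, 1], 9, 18, 3, 1), ([4, 4, 3, 3], 10, 20,
  2, 1), ([4, 4, 3, 2, 1], 9, 26, 3, 1), ([4, 4, 2, 2, 1, 1], 8, 24, 4, 1), ([4, 3, 3, 3, 1], 9,
  24, 1, 1), ([4, 3, 3, 2, 2], 9, 26, 3, 1), ([3, 3, 3, 3, 2], 9, 12, 1, 1), ([3, 3, 3, 3, 1, 1],
  8, 16, 0, 1), ([3, 3, 3, 2, 2, 1], 8, 26, 2, 1), ([3, 3, 2, 2, 2, 2], 8, 24, 4, 1), ([3, 1, 1,
  1, 1, 1, 1, 1, 1, 1, 1, 1], 2, 22, 0, 1), ([2, 2, 2, 2, 1, 1, 1, 1, 1, 1], 4, 24, 4, 1), ([2,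
  2, 2, 1, 1, 1, 1, 1, 1, 1, 1], 3, 24, 3, 1), ([2, 2, 1, 1, 1, 1, 1, 1, 1, 1, 1, 1], 2, 20, 2,
  1), ([2, 1, 1, 1, 1, 1, 1, 1, 1, 1, 1, 1, 1], 1, 12, 1, 1)]

theorem Small_hC14 : Small_cand 14 = Small_C14 := by decide +kernel

theorem Small_hS14 : Small_srch 14 100 26 26 4 Small_C14 [] = true := by decide +kernel

/-- The candidates in degree `15`. -/
def Small_C15 : List Small_T :=
  [([15], 14, 0, 0, 15), ([14, 1], 13, 13, 1, 1), ([13, 2], 13, 13, 1, 1), ([13, 1, 1], 12, 24,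
  0, 1), ([12, 3], 13, 9, 1, 3), ([12, 2, 1], 12, 22, 2, 1), ([11, 4], 13, 13, 1, 1), ([11, 3,
  1], 12, 24, 0, 1), ([11, 2, 2], 12, 22, 2, 1), ([10, 5], 13, 5, 1, 5), ([10, 4, 1], 12, 22, 2,
  1), ([10, 3, 2], 12, 22, 2, 1), ([10, 2, 2, 1], 11, 27, 3, 1), ([9, 6], 13, 9, 1, 3), ([9, 5,
  1], 12, 24, 0, 1), ([9, 4, 2], 12, 22, 2, 1), ([9, 3, 3], 12, 12, 0, 3), ([9, 2, 2, 2], 11, 27,
  3, 1), ([8, 7], 13, 13, 1, 1), ([8, 6, 1], 12, 22, 2, 1), ([8, 5, 2], 12, 22, 2, 1), ([8, 4,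
  3], 12, 18, 2, 1), ([8, 4, 2, 1], 11, 23, 3, 1), ([8, 3, 2, 2], 11, 27, 3, 1), ([8, 2, 2, 2,
  1], 10, 28, 4, 1), ([7, 7, 1], 12, 12, 0, 1), ([7, 6, 2], 12, 22, 2, 1), ([7, 5, 3], 12, 24, 0,
  1), ([7, 4, 4], 12, 18, 2, 1), ([7, 4, 2, 2], 11, 27, 3, 1), ([7, 2, 2, 2, 2], 10, 28, 4, 1),
  ([6, 6, 3], 12, 6, 2, 3), ([6, 6, 2, 1], 11, 19, 3, 1), ([6, 5, 4], 12, 22, 2, 1), ([6, 5, 2,
  2], 11, 27, 3, 1), ([6, 4, 4, 1], 11, 23, 3, 1), ([6, 4, 3, 2], 11, 23, 3, 1), ([6, 4, 2, 2,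
  1], 10, 28, 4, 1), ([6, 3, 3, 3], 11, 9, 1, 3), ([6, 3, 3, 2, 1], 10, 26, 2, 1), ([6, 3, 2, 2,
  2], 10, 24, 4, 1), ([5, 5, 5], 12, 0, 0, 5), ([5, 5, 4, 1], 11, 25, 1, 1), ([5, 5, 3, 2], 11,
  25, 1, 1), ([5, 4, 4, 2], 11, 23, 3, 1), ([5, 4, 2, 2, 2], 10, 28, 4, 1), ([5, 3, 3, 3, 1], 10,
  28, 0, 1), ([4, 4, 4, 3], 11, 15, 3, 1), ([4, 4, 4, 2, 1], 10, 16, 4, 1), ([4, 4, 4, 1, 1, 1],
  9, 27, 3, 1), ([4, 4, 3, 2, 2], 10, 24, 4, 1), ([4, 3, 3, 3, 2], 10, 26, 2, 1), ([3, 3, 3, 3,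
  3], 10, 0, 0, 3), ([3, 3, 3, 3, 2, 1], 9, 21, 1, 1), ([3, 3, 3, 3, 1, 1, 1], 8, 24, 0, 1), ([3,
  3, 3, 2, 2, 2], 9, 27, 3, 1), ([3, 1, 1, 1, 1, 1, 1, 1, 1, 1, 1, 1, 1], 2, 24, 0, 1), ([2, 2,
  2, 2, 1, 1, 1, 1, 1, 1, 1], 4, 28, 4, 1), ([2, 2, 2, 1, 1, 1, 1, 1, 1, 1, 1, 1], 3, 27, 3, 1),
  ([2, 2, 1, 1, 1, 1, 1, 1, 1, 1, 1, 1, 1], 2, 22, 2, 1), ([2, 1, 1, 1, 1, 1, 1, 1, 1, 1, 1, 1,
  1, 1], 1, 13, 1, 1)]

theorem Small_hC15 : Small_cand 15 = Small_C15 := by decide +kernel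

theorem Small_hS15 : Small_srch 15 100 28 28 4 Small_C15 [] = true := by decide +kernel

/-- The candidates in degree `16`. -/
def Small_C16 : List Small_T :=
  [([16], 15, 0, 1, 16), ([15, 1], 14, 14, 0, 1), ([14, 2], 14, 12, 2, 2), ([14, 1, 1], 13, 26,
  1, 1), ([13, 3], 14, 14, 0, 1), ([13, 2, 1], 13, 26, 1, 1), ([12, 4], 14, 8, 2, 4), ([12, 3,
  1], 13, 22, 1, 1), ([12, 2, 2], 13, 20, 3, 2), ([11, 5], 14, 14, 0, 1), ([11, 4, 1], 13, 26, 1,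
  1), ([11, 3, 2], 13, 26, 1, 1), ([10, 6], 14, 12, 2, 2), ([10, 5, 1], 13, 18, 1, 1), ([10, 4,
  2], 13, 20, 3, 2), ([10, 3, 3], 13, 22, 1, 1), ([10, 2, 2, 2], 12, 24, 4, 2), ([9, 7], 14, 14,
  0, 1), ([9, 6, 1], 13, 22, 1, 1), ([9, 5, 2], 13, 26, 1, 1), ([9, 4, 3], 13, 22, 1, 1), ([9, 3,
  3, 1], 12, 24, 0, 1), ([9, 3, 2, 2], 12, 30, 2, 1), ([8, 8], 14, 0, 2, 8), ([8, 7, 1], 13, 26,
  1, 1), ([8, 6, 2], 13, 20, 3, 2), ([8, 5, 3], 13, 26, 1, 1), ([8, 4, 4], 13, 8, 3, 4), ([8, 4,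
  3, 1], 12, 30, 2, 1), ([8, 4, 2, 2], 12, 20, 4, 2), ([8, 3, 3, 2], 12, 30, 2, 1), ([7, 7, 2],
  13, 14, 1, 1), ([7, 7, 1, 1], 12, 24, 0, 1), ([7, 6, 3], 13, 22, 1, 1), ([7, 5, 4], 13, 26, 1,
  1), ([7, 4, 4, 1], 12, 30, 2, 1), ([7, 3, 3, 3], 12, 24, 0, 1), ([6, 6, 4], 13, 12, 3, 2), ([6,
  6, 3, 1], 12, 18, 2, 1), ([6, 6, 2, 2], 12, 16, 4, 2), ([6, 6, 2, 1, 1], 11, 30, 3, 1), ([6, 5,
  5], 13, 18, 1, 1), ([6, 5, 3, 2], 12, 30, 2, 1), ([6, 4, 4, 2], 12, 20, 4, 2), ([6, 4, 3, 3],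
  12, 22, 2, 1), ([6, 3, 3, 3, 1], 11, 20, 1, 1), ([6, 3, 3, 2, 2], 11, 26, 3, 1), ([5, 5, 5, 1],
  12, 12, 0, 1), ([5, 5, 4, 2], 12, 26, 2, 1), ([5, 5, 3, 3], 12, 24, 0, 1), ([5, 5, 2, 2, 2],
  11, 30, 3, 1), ([5, 4, 4, 3], 12, 30, 2, 1), ([4, 4, 4, 4], 12, 0, 4, 4), ([4, 4, 4, 3, 1], 11,
  26, 3, 1), ([4, 4, 4, 2, 1, 1], 10, 26, 4, 1), ([4, 4, 3, 3, 2], 11, 30, 3, 1), ([4, 3, 3, 3,
  3], 11, 20, 1, 1), ([3, 3, 3, 3, 3, 1], 10, 10, 0, 1), ([3, 3, 3, 3, 2, 2], 10, 24, 2, 1), ([3,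
  3, 3, 3, 2, 1, 1], 9, 30, 1, 1), ([3, 1, 1, 1, 1, 1, 1, 1, 1, 1, 1, 1, 1, 1], 2, 26, 0, 1),
  ([2, 2, 2, 1, 1, 1, 1, 1, 1, 1, 1, 1, 1], 3, 30, 3, 1), ([2, 2, 1, 1, 1, 1, 1, 1, 1, 1, 1, 1,
  1, 1], 2, 24, 2, 1), ([2, 1, 1, 1, 1, 1, 1, 1, 1, 1, 1, 1, 1, 1, 1], 1, 14, 1, 1)]

theorem Small_hC16 : Small_cand 16 = Small_C16 := by decide +kernel

theorem Small_hS16 : Small_srch 16 100 30 30 4 Small_C16 [] = true := by decide +kernel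

/-- The candidates in degree `17`. -/
def Small_C17 : List Small_T :=
  [([17], 16, 0, 0, 17), ([16, 1], 15, 15, 1, 1), ([15, 2], 15, 15, 1, 1), ([15, 1, 1], 14, 28,
  0, 1), ([14, 3], 15, 15, 1, 1), ([14, 2, 1], 14, 26, 2, 1), ([13, 4], 15, 15, 1, 1), ([13, 3,
  1], 14, 28, 0, 1), ([13, 2, 2], 14, 26, 2, 1), ([12, 5], 15, 15, 1, 1), ([12, 4, 1], 14, 22, 2,
  1), ([12, 3, 2], 14, 22, 2, 1), ([11, 6], 15, 15, 1, 1), ([11, 5, 1], 14, 28, 0, 1), ([11, 4,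
  2], 14, 26, 2, 1), ([11, 3, 3], 14, 24, 0, 1), ([10, 7], 15, 15, 1, 1), ([10, 6, 1], 14, 26, 2,
  1), ([10, 5, 2], 14, 18, 2, 1), ([10, 5, 1, 1], 13, 31, 1, 1), ([10, 4, 3], 14, 26, 2, 1), ([9,
  8], 15, 15, 1, 1), ([9, 7, 1], 14, 28, 0, 1), ([9, 6, 2], 14, 22, 2, 1), ([9, 5, 3], 14, 24, 0,
  1), ([9, 4, 4], 14, 22, 2, 1), ([9, 3, 3, 2], 13, 27, 1, 1), ([8, 8, 1], 14, 14, 2, 1), ([8, 7,
  2], 14, 26, 2, 1), ([8, 6, 3], 14, 22, 2, 1), ([8, 5, 4], 14, 22, 2, 1), ([8, 4, 4, 1], 13, 21,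
  3, 1), ([8, 4, 3, 2], 13, 29, 3, 1), ([8, 4, 2, 2, 1], 12, 32, 4, 1), ([8, 3, 3, 3], 13, 27, 1,
  1), ([7, 7, 3], 14, 16, 0, 1), ([7, 7, 2, 1], 13, 27, 1, 1), ([7, 6, 4], 14, 26, 2, 1), ([7, 5,
  5], 14, 20, 0, 1), ([7, 4, 4, 2], 13, 29, 3, 1), ([6, 6, 5], 14, 18, 2, 1), ([6, 6, 4, 1], 13,
  25, 3, 1), ([6, 6, 3, 2], 13, 17, 3, 1), ([6, 6, 3, 1, 1], 12, 30, 2, 1), ([6, 6, 2, 2, 1], 12,
  28, 4, 1), ([6, 5, 5, 1], 13, 31, 1, 1), ([6, 5, 3, 3], 13, 27, 1, 1), ([6, 4, 4, 3], 13, 25,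
  3, 1), ([6, 4, 4, 2, 1], 12, 32, 4, 1), ([6, 4, 3, 2, 2], 12, 32, 4, 1), ([6, 3, 3, 3, 2], 12,
  22, 2, 1), ([6, 3, 3, 3, 1, 1], 11, 31, 1, 1), ([5, 5, 5, 2], 13, 15, 1, 1), ([5, 5, 5, 1, 1],
  12, 24, 0, 1), ([5, 5, 4, 3], 13, 31, 1, 1), ([5, 4, 4, 4], 13, 21, 3, 1), ([5, 4, 4, 2, 2],
  12, 32, 4, 1), ([5, 3, 3, 3, 3], 12, 24, 0, 1), ([4, 4, 4, 4, 1], 12, 12, 4, 1), ([4, 4, 4, 3,
  2], 12, 24, 4, 1), ([4, 4, 3, 3, 3], 12, 30, 2, 1), ([4, 3, 3, 3, 3, 1], 11, 31, 1, 1), ([3, 3,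
  3, 3, 3, 2], 11, 15, 1, 1), ([3, 3, 3, 3, 3, 1, 1], 10, 20, 0, 1), ([3, 1, 1, 1, 1, 1, 1, 1, 1,
  1, 1, 1, 1, 1, 1], 2, 28, 0, 1), ([2, 2, 1, 1, 1, 1, 1, 1, 1, 1, 1, 1, 1, 1, 1], 2, 26, 2, 1),
  ([2, 1, 1, 1, 1, 1, 1, 1, 1, 1, 1, 1, 1, 1, 1, 1], 1, 15, 1, 1)]

theorem Small_hC17 : Small_cand 17 = Small_C17 := by decide +kernel

theorem Small_hS17 : Small_srch 17 100 32 32 4 Small_C17 [] = true := by decide +kernel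

/-- The candidates in degree `18`. -/
def Small_C18 : List Small_T :=
  [([18], 17, 0, 1, 18), ([17, 1], 16, 16, 0, 1), ([16, 2], 16, 14, 2, 2), ([16, 1, 1], 15, 30,
  1, 1), ([15, 3], 16, 12, 0, 3), ([15, 2, 1], 15, 30, 1, 1), ([14, 4], 16, 14, 2, 2), ([14, 3,
  1], 15, 30, 1, 1), ([14, 2, 2], 15, 24, 3, 2), ([13, 5], 16, 16, 0, 1), ([13, 4, 1], 15, 30, 1,
  1), ([13, 3, 2], 15, 30, 1, 1), ([12, 6], 16, 6, 2, 6), ([12, 5, 1], 15, 30, 1, 1), ([12, 4,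
  2], 15, 20, 3, 2), ([12, 3, 3], 15, 18, 1, 3), ([12, 2, 2, 2], 14, 30, 4, 2), ([11, 7], 16, 16,
  0, 1), ([11, 6, 1], 15, 30, 1, 1), ([11, 5, 2], 15, 30, 1, 1), ([11, 4, 3], 15, 30, 1, 1),
  ([10, 8], 16, 14, 2, 2), ([10, 7, 1], 15, 30, 1, 1), ([10, 6, 2], 15, 24, 3, 2), ([10, 5, 3],
  15, 22, 1, 1), ([10, 5, 2, 1], 14, 32, 2, 1), ([10, 4, 4], 15, 20, 3, 2), ([10, 4, 2, 2], 14,
  30, 4, 2), ([9, 9], 16, 0, 0, 9), ([9, 8, 1], 15, 30, 1, 1), ([9, 7, 2], 15, 30, 1, 1), ([9, 6,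
  3], 15, 18, 1, 3), ([9, 5, 4], 15, 30, 1, 1), ([9, 3, 3, 3], 14, 18, 0, 3), ([8, 8, 2], 15, 12,
  3, 2), ([8, 8, 1, 1], 14, 28, 2, 1), ([8, 7, 3], 15, 30, 1, 1), ([8, 6, 4], 15, 20, 3, 2), ([8,
  6, 2, 2], 14, 30, 4, 2), ([8, 5, 5], 15, 22, 1, 1), ([8, 4, 4, 2], 14, 18, 4, 2), ([8, 4, 4, 1,
  1], 13, 34, 3, 1), ([8, 4, 3, 3], 14, 32, 2, 1), ([7, 7, 4], 15, 18, 1, 1), ([7, 7, 3, 1], 14,
  30, 0, 1), ([7, 7, 2, 2], 14, 28, 2, 1), ([7, 6, 5], 15, 30, 1, 1), ([7, 5, 5, 1], 14, 34, 0,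
  1), ([6, 6, 6], 15, 0, 3, 6), ([6, 6, 5, 1], 14, 32, 2, 1), ([6, 6, 4, 2], 14, 22, 4, 2), ([6,
  6, 3, 3], 14, 12, 2, 3), ([6, 6, 3, 2, 1], 13, 30, 3, 1), ([6, 5, 5, 2], 14, 32, 2, 1), ([6, 4,
  4, 4], 14, 18, 4, 2), ([6, 4, 3, 3, 2], 13, 34, 3, 1), ([6, 3, 3, 3, 3], 13, 12, 1, 3), ([6, 3,
  3, 3, 2, 1], 12, 34, 2, 1), ([5, 5, 5, 3], 14, 18, 0, 1), ([5, 5, 5, 2, 1], 13, 28, 1, 1), ([5,
  5, 4, 4], 14, 28, 2, 1), ([5, 4, 4, 4, 1], 13, 34, 3, 1), ([4, 4, 4, 4, 1, 1], 12, 24, 4, 1),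
  ([4, 4, 4, 3, 3], 13, 30, 3, 1), ([4, 3, 3, 3, 3, 2], 12, 34, 2, 1), ([3, 3, 3, 3, 3, 3], 12,
  0, 0, 3), ([3, 3, 3, 3, 3, 2, 1], 11, 26, 1, 1), ([3, 3, 3, 3, 3, 1, 1, 1], 10, 30, 0, 1), ([3,
  1, 1, 1, 1, 1, 1, 1, 1, 1, 1, 1, 1, 1, 1, 1], 2, 30, 0, 1), ([2, 2, 1, 1, 1, 1, 1, 1, 1, 1, 1,
  1, 1, 1, 1, 1], 2, 28, 2, 1), ([2, 1, 1, 1, 1, 1, 1, 1, 1, 1, 1, 1, 1, 1, 1, 1, 1], 1, 16, 1,
  1)]

theorem Small_hC18 : Small_cand 18 = Small_C18 := by decide +kernel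

theorem Small_hS18 : Small_srch 18 100 34 34 4 Small_C18 [] = true := by decide +kernel

/-- The candidates in degree `19`. -/
def Small_C19 : List Small_T :=
  [([19], 18, 0, 0, 19), ([18, 1], 17, 17, 1, 1), ([17, 2], 17, 17, 1, 1), ([17, 1, 1], 16, 32,
  0, 1), ([16, 3], 17, 17, 1, 1), ([16, 2, 1], 16, 30, 2, 1), ([15, 4], 17, 17, 1, 1), ([15, 3,
  1], 16, 28, 0, 1), ([15, 2, 2], 16, 30, 2, 1), ([14, 5], 17, 17, 1, 1), ([14, 4, 1], 16, 30, 2,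
  1), ([14, 3, 2], 16, 30, 2, 1), ([13, 6], 17, 17, 1, 1), ([13, 5, 1], 16, 32, 0, 1), ([13, 4,
  2], 16, 30, 2, 1), ([13, 3, 3], 16, 28, 0, 1), ([12, 7], 17, 17, 1, 1), ([12, 6, 1], 16, 22, 2,
  1), ([12, 5, 2], 16, 30, 2, 1), ([12, 4, 3], 16, 22, 2, 1), ([12, 4, 2, 1], 15, 35, 3, 1),
  ([12, 3, 3, 1], 15, 33, 1, 1), ([12, 3, 2, 2], 15, 35, 3, 1), ([11, 8], 17, 17, 1, 1), ([11, 7,
  1], 16, 32, 0, 1), ([11, 6, 2], 16, 30, 2, 1), ([11, 5, 3], 16, 32, 0, 1), ([11, 4, 4], 16, 26,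
  2, 1), ([10, 9], 17, 17, 1, 1), ([10, 8, 1], 16, 30, 2, 1), ([10, 7, 2], 16, 30, 2, 1), ([10,
  6, 3], 16, 26, 2, 1), ([10, 5, 4], 16, 22, 2, 1), ([10, 5, 2, 2], 15, 31, 3, 1), ([10, 4, 4,
  1], 15, 35, 3, 1), ([10, 3, 3, 3], 15, 33, 1, 1), ([9, 9, 1], 16, 16, 0, 1), ([9, 8, 2], 16,
  30, 2, 1), ([9, 7, 3], 16, 28, 0, 1), ([9, 6, 4], 16, 26, 2, 1), ([9, 6, 3, 1], 15, 33, 1, 1),
  ([9, 6, 2, 2], 15, 35, 3, 1), ([9, 5, 5], 16, 24, 0, 1), ([9, 4, 4, 2], 15, 35, 3, 1), ([9, 4,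
  3, 3], 15, 33, 1, 1), ([9, 3, 3, 3, 1], 14, 32, 0, 1), ([8, 8, 3], 16, 18, 2, 1), ([8, 8, 2,
  1], 15, 27, 3, 1), ([8, 7, 4], 16, 26, 2, 1), ([8, 6, 5], 16, 30, 2, 1), ([8, 6, 4, 1], 15, 35,
  3, 1), ([8, 6, 3, 2], 15, 35, 3, 1), ([8, 5, 4, 2], 15, 35, 3, 1), ([8, 4, 4, 3], 15, 27, 3,
  1), ([8, 4, 4, 2, 1], 14, 32, 4, 1), ([7, 7, 5], 16, 20, 0, 1), ([7, 7, 4, 1], 15, 33, 1, 1),
  ([7, 7, 3, 2], 15, 33, 1, 1), ([7, 6, 6], 16, 22, 2, 1), ([7, 6, 3, 3], 15, 33, 1, 1), ([7, 4,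
  4, 4], 15, 27, 3, 1), ([7, 3, 3, 3, 3], 14, 32, 0, 1), ([6, 6, 6, 1], 15, 15, 3, 1), ([6, 6, 5,
  2], 15, 31, 3, 1), ([6, 6, 4, 3], 15, 23, 3, 1), ([6, 6, 4, 2, 1], 14, 36, 4, 1), ([6, 6, 3, 3,
  1], 14, 26, 2, 1), ([6, 6, 3, 2, 2], 14, 28, 4, 1), ([6, 5, 5, 3], 15, 33, 1, 1), ([6, 5, 4,
  4], 15, 35, 3, 1), ([6, 4, 4, 4, 1], 14, 32, 4, 1), ([6, 4, 4, 3, 2], 14, 36, 4, 1), ([6, 4, 3,
  3, 3], 14, 30, 2, 1), ([6, 3, 3, 3, 3, 1], 13, 25, 1, 1), ([6, 3, 3, 3, 2, 2], 13, 35, 3, 1),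
  ([5, 5, 5, 4], 15, 21, 1, 1), ([5, 5, 5, 3, 1], 14, 32, 0, 1), ([5, 5, 5, 2, 2], 14, 30, 2, 1),
  ([5, 5, 3, 3, 3], 14, 36, 0, 1), ([5, 4, 4, 4, 2], 14, 32, 4, 1), ([4, 4, 4, 4, 3], 14, 20, 4,
  1), ([4, 4, 4, 4, 1, 1, 1], 12, 36, 4, 1), ([4, 3, 3, 3, 3, 3], 13, 25, 1, 1), ([3, 3, 3, 3, 3,
  3, 1], 12, 12, 0, 1), ([3, 3, 3, 3, 3, 2, 2], 12, 30, 2, 1), ([3, 1, 1, 1, 1, 1, 1, 1, 1, 1, 1,
  1, 1, 1, 1, 1, 1], 2, 32, 0, 1), ([2, 2, 1, 1, 1, 1, 1, 1, 1, 1, 1, 1, 1, 1, 1, 1, 1], 2, 30,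
  2, 1), ([2, 1, 1, 1, 1, 1, 1, 1, 1, 1, 1, 1, 1, 1, 1, 1, 1, 1], 1, 17, 1, 1)]

theorem Small_hC19 : Small_cand 19 = Small_C19 := by decide +kernel

theorem Small_hS19 : Small_srch 19 100 36 36 4 Small_C19 [] = true := by decide +kernel

/-- The candidates in degree `20`. -/
def Small_C20 : List Small_T :=
  [([20], 19, 0, 1, 20), ([19, 1], 18, 18, 0, 1), ([18, 2], 18, 16, 2, 2), ([18, 1, 1], 17, 34,
  1, 1), ([17, 3], 18, 18, 0, 1), ([17, 2, 1], 17, 34, 1, 1), ([16, 4], 18, 12, 2, 4), ([16, 3,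
  1], 17, 34, 1, 1), ([16, 2, 2], 17, 28, 3, 2), ([15, 5], 18, 10, 0, 5), ([15, 4, 1], 17, 34, 1,
  1), ([15, 3, 2], 17, 30, 1, 1), ([14, 6], 18, 16, 2, 2), ([14, 5, 1], 17, 34, 1, 1), ([14, 4,
  2], 17, 28, 3, 2), ([14, 3, 3], 17, 30, 1, 1), ([14, 2, 2, 2], 16, 36, 4, 2), ([13, 7], 18, 18,
  0, 1), ([13, 6, 1], 17, 34, 1, 1), ([13, 5, 2], 17, 34, 1, 1), ([13, 4, 3], 17, 34, 1, 1),
  ([12, 8], 18, 12, 2, 4), ([12, 7, 1], 17, 34, 1, 1), ([12, 6, 2], 17, 20, 3, 2), ([12, 6, 1,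
  1], 16, 38, 2, 1), ([12, 5, 3], 17, 30, 1, 1), ([12, 4, 4], 17, 16, 3, 4), ([12, 4, 3, 1], 16,
  38, 2, 1), ([12, 4, 2, 2], 16, 32, 4, 2), ([12, 3, 3, 2], 16, 34, 2, 1), ([11, 9], 18, 18, 0,
  1), ([11, 8, 1], 17, 34, 1, 1), ([11, 7, 2], 17, 34, 1, 1), ([11, 6, 3], 17, 30, 1, 1), ([11,
  5, 4], 17, 34, 1, 1), ([11, 3, 3, 3], 16, 36, 0, 1), ([10, 10], 18, 0, 2, 10), ([10, 9, 1], 17,
  34, 1, 1), ([10, 8, 2], 17, 28, 3, 2), ([10, 7, 3], 17, 34, 1, 1), ([10, 6, 4], 17, 28, 3, 2),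
  ([10, 6, 2, 2], 16, 36, 4, 2), ([10, 5, 5], 17, 10, 1, 5), ([10, 5, 4, 1], 16, 38, 2, 1), ([10,
  5, 3, 2], 16, 38, 2, 1), ([10, 4, 4, 2], 16, 32, 4, 2), ([9, 9, 2], 17, 18, 1, 1), ([9, 9, 1,
  1], 16, 32, 0, 1), ([9, 8, 3], 17, 30, 1, 1), ([9, 7, 4], 17, 34, 1, 1), ([9, 6, 5], 17, 30, 1,
  1), ([9, 6, 3, 2], 16, 34, 2, 1), ([9, 5, 3, 3], 16, 36, 0, 1), ([9, 4, 4, 3], 16, 38, 2, 1),
  ([9, 3, 3, 3, 2], 15, 36, 1, 1), ([8, 8, 4], 17, 8, 3, 4), ([8, 8, 3, 1], 16, 34, 2, 1), ([8,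
  8, 2, 2], 16, 24, 4, 2), ([8, 7, 5], 17, 34, 1, 1), ([8, 6, 6], 17, 20, 3, 2), ([8, 6, 4, 2],
  16, 32, 4, 2), ([8, 6, 3, 3], 16, 34, 2, 1), ([8, 5, 5, 2], 16, 38, 2, 1), ([8, 4, 4, 4], 16,
  12, 4, 4), ([8, 3, 3, 3, 3], 15, 36, 1, 1), ([7, 7, 6], 17, 22, 1, 1), ([7, 7, 5, 1], 16, 36,
  0, 1), ([7, 7, 4, 2], 16, 34, 2, 1), ([7, 7, 3, 3], 16, 32, 0, 1), ([7, 6, 6, 1], 16, 38, 2,
  1), ([6, 6, 6, 2], 16, 12, 4, 2), ([6, 6, 6, 1, 1], 15, 30, 3, 1), ([6, 6, 5, 3], 16, 30, 2,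
  1), ([6, 6, 4, 4], 16, 24, 4, 2), ([6, 6, 4, 3, 1], 15, 38, 3, 1), ([6, 6, 3, 3, 2], 15, 26, 3,
  1), ([6, 5, 5, 4], 16, 38, 2, 1), ([6, 5, 3, 3, 3], 15, 36, 1, 1), ([6, 4, 4, 3, 3], 15, 38, 3,
  1), ([6, 3, 3, 3, 3, 2], 14, 28, 2, 1), ([6, 3, 3, 3, 3, 1, 1], 13, 38, 1, 1), ([5, 5, 5, 5],
  16, 0, 0, 5), ([5, 5, 5, 4, 1], 15, 36, 1, 1), ([5, 5, 5, 3, 2], 15, 36, 1, 1), ([5, 3, 3, 3,
  3, 3], 14, 30, 0, 1), ([4, 4, 4, 4, 3, 1], 14, 34, 4, 1), ([4, 3, 3, 3, 3, 3, 1], 13, 38, 1,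
  1), ([3, 3, 3, 3, 3, 3, 2], 13, 18, 1, 1), ([3, 3, 3, 3, 3, 3, 1, 1], 12, 24, 0, 1), ([3, 1, 1,
  1, 1, 1, 1, 1, 1, 1, 1, 1, 1, 1, 1, 1, 1, 1], 2, 34, 0, 1), ([2, 2, 1, 1, 1, 1, 1, 1, 1, 1, 1,
  1, 1, 1, 1, 1, 1, 1], 2, 32, 2, 1), ([2, 1, 1, 1, 1, 1, 1, 1, 1, 1, 1, 1, 1, 1, 1, 1, 1, 1, 1],
  1, 18, 1, 1)]

theorem Small_hC20 : Small_cand 20 = Small_C20 := by decide +kernel

theorem Small_hS20 : Small_srch 20 100 38 38 4 Small_C20 [] = true := by decide +kernel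

variable {ι : Type} [DecidableEq ι]

/-- **Degree between `3` and `20`.**

Proof.  The model is WV/NumFin.lean (`NumFin_parts`, `NumFin_parts_mem`, `NumFin_compat`, `NumFin_srch`,
`NumFin_sound`, `NumFin_main`, and the evaluations by `decide +kernel`).  Candidates for degree `n`: the
partitions of `n` (lists with decreasing parts, `NumFin_parts n n n`) with length `< n`, weight at most
`2 n - 2` and at most four even parts, as tuples (list, weight, number of even parts).  The search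
carries the remaining index `2 n - 2`, the remaining weight `2 n - 2`, the remaining number of even
parts `4`, the list of the remaining candidates and the list `ch` of the chosen partitions
(compatible: no common divisor `≥ 2` of all parts of two of them).  At the end (index zero) check: some
`l ∈ ch` has length one and some `l ∈ ch` has length two; or `n = 3 k + 1`, `ch` has length three and all its
elements are `replicate k 3 ++ [1]`; or `ch` is a permutation of an element of `spor` (`List.isPerm`, or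
insert the candidates in a fixed order such that `ch.reverse` is an element of `spor` up to order;
`isPerm` is decidable and cheap here).  There are at most about 20000 steps for each `n`.
The soundness needs in addition that the final `ch` consists exactly of the partitions of the family:
`(ch : Multiset _)` = the image of `T` plus the initial list. -/
theorem num_small {T : Finset ι} {L : ι → Multiset ℕ} {n : ℕ} (h : NumD T L n) (hn : 3 ≤ n)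
    (hn' : n ≤ 20) : CAB T L ∨ C333 T L n ∨ CSp T L := by
  interval_cases n
  · exact Small_main h hn _ Small_hC3 Small_hS3
  · exact Small_main h hn _ Small_hC4 Small_hS4
  · exact Small_main h hn _ Small_hC5 Small_hS5
  · exact Small_main h hn _ Small_hC6 Small_hS6
  · exact Small_main h hn _ Small_hC7 Small_hS7
  · exact Small_main h hn _ Small_hC8 Small_hS8
  · exact Small_main h hn _ Small_hC9 Small_hS9
  · exact Small_main h hn _ Small_hC10 Small_hS10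
  · exact Small_main h hn _ Small_hC11 Small_hS11
  · exact Small_main h hn _ Small_hC12 Small_hS12
  · exact Small_main h hn _ Small_hC13 Small_hS13
  · exact Small_main h hn _ Small_hC14 Small_hS14
  · exact Small_main h hn _ Small_hC15 Small_hS15
  · exact Small_main h hn _ Small_hC16 Small_hS16
  · exact Small_main h hn _ Small_hC17 Small_hS17
  · exact Small_main h hn _ Small_hC18 Small_hS18
  · exact Small_main h hn _ Small_hC19 Small_hS19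
  · exact Small_main h hn _ Small_hC20 Small_hS20

end WildN
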