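import Pool.Agent.helper21.NI.Large
import Pool.Agent.helper21.NI.Small
import Pool.Agent.helper21.HD.Defs
import Pool.Agent.helper44.Wild.Rigid

/-! The explicit ramification types. -/

namespace WildN

open Polynomial WildRat WildS WildV WildH

/-- `C` has the ramification type `τ`: there are distinct values with these partitions. -/
def HasTy (C : RF) (τ : List (List ℕ)) : Prop :=
  ∃ c : Fin τ.length → P1, Function.Injective c ∧ ∀ i, pas C (c i) = (τ.get i : Multiset ℕ)

/-- Three values over which all indices but one are `3`, and the last index is `1`. -/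
def Ty333 (C : RF) : Prop :=
  ∃ k, C.n = 3 * k + 1 ∧ HasTy C (List.replicate 3 (1 :: List.replicate k 3))

/-- The explicit types for irreducible curves. -/
def TyI (C : RF) : Prop := TypAB C ∨ Ty333 C ∨ ∃ τ ∈ spor, HasTy C τ

theorem Types_wt_zero {L : Multiset ℕ} (h : ∀ e ∈ L, e = 1) : wt L = 0 := by
  have h1 : L = Multiset.replicate (Multiset.card L) 1 := Multiset.eq_replicate.2 ⟨rfl, h⟩
  rw [h1]
  unfold wt
  simp

/-- All indices over a value with `n` points are one. -/
theorem Types_ones {C : RF} (hn : 1 ≤ C.n) {c : P1} (hc : c ∉ critV C hn) :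
    wt (pas C c) = 0 := by
  apply Types_wt_zero
  intro e he
  obtain ⟨z, hz, rfl⟩ := Multiset.mem_map.1 he
  have h1 : ¬ 2 ≤ C.e z := fun h2 => hc ((mem_critV hn).2 ⟨z, (mem_fibP hn).1 hz, h2⟩)
  have := C.one_le_e hn z
  omega

/-- If the listed fibres account for the whole ramification, the numerical condition is an
inequality for the list.

Proof.  Let `c` be as in `HasTy`.  For a finite set `T` of values: `rh_fibres` (WV/Asm.lean; `critV`) gives
`∑ over critV of (n - card (pas C c)) = 2 n - 2`, and the values `c i` with `card < n` are critical and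
account for the whole sum, so every other value has `card (pas C c) = n`, i.e. all indices are one and
the weight is zero (`card_pas_le`, `pas_sum`, `wt_replicate`).  So `∑ over T of wt ≤ ∑ i, wt (τ i) ≤ 2 n - 2`. -/
theorem TW_of_HasTy {C : RF} (hn : 1 ≤ C.n) {τ : List (List ℕ)} (h : HasTy C τ)
    (hrh : (τ.map fun l => C.n - l.length).sum = 2 * C.n - 2)
    (hw : (τ.map fun l : List ℕ => wt (l : Multiset ℕ)).sum ≤ 2 * C.n - 2) : TW C := by
  classical
  obtain ⟨c, hc, hp⟩ := h
  -- the sum of the indices over the listed values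
  have h1 : ∑ v ∈ Finset.univ.image c, ((C.n : ℤ) - Multiset.card (pas C v)) = 2 * C.n - 2 := by
    rw [Finset.sum_image fun i _ j _ hij => hc hij]
    have h2 : ∑ i, ((C.n : ℤ) - Multiset.card (pas C (c i))) =
        ((∑ i : Fin τ.length, (C.n - (τ.get i).length) : ℕ) : ℤ) := by
      rw [Nat.cast_sum]
      refine Finset.sum_congr rfl fun i _ => ?_
      have h3 := card_pas_le hn (c i)
      rw [hp i, Multiset.coe_card] at h3
      rw [hp i, Multiset.coe_card, Nat.cast_sub h3]
    rw [h2]
    have h3 : ∑ i : Fin τ.length, (C.n - (τ.get i).length) = (τ.map fun l => C.n - l.length).sum := by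
      rw [← List.sum_ofFn]
      congr 1
      conv_rhs => rw [← List.ofFn_get τ, List.map_ofFn]
      rfl
    rw [h3, hrh]
    push_cast [show 2 ≤ 2 * C.n by omega]
    ring
  have hsub : critV C hn ⊆ Finset.univ.image c := by
    intro v hv
    by_contra hv'
    have h2 := rh_fibres hn
    have h3 : ∑ w ∈ Finset.univ.image c, ((C.n : ℤ) - Multiset.card (pas C w)) =
        ∑ w ∈ (Finset.univ.image c) ∩ critV C hn, ((C.n : ℤ) - Multiset.card (pas C w)) := by
      symm
      refine Finset.sum_subset Finset.inter_subset_left ?_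
      intro w hw hw'
      have hwc : w ∉ critV C hn := fun h => hw' (Finset.mem_inter.2 ⟨hw, h⟩)
      rw [← sum_sub_one hn w]
      refine Finset.sum_eq_zero fun z hz => ?_
      have h4 : ¬ 2 ≤ C.e z := fun h5 => hwc ((mem_critV hn).2 ⟨z, (mem_fibP hn).1 hz, h5⟩)
      have := C.one_le_e hn z
      omega
    have h4 : ∑ w ∈ (Finset.univ.image c) ∩ critV C hn, ((C.n : ℤ) - Multiset.card (pas C w)) <
        ∑ w ∈ critV C hn, ((C.n : ℤ) - Multiset.card (pas C w)) := by
      refine Finset.sum_lt_sum_of_subset Finset.inter_subset_right hv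
        (fun h => hv' (Finset.mem_inter.1 h).1) ?_ ?_
      · obtain ⟨z, hz, he⟩ := (mem_critV hn).1 hv
        have := card_pas_lt hn hz he
        omega
      · intro w _ _
        have := card_pas_le hn w
        omega
    rw [h2, ← h3, h1] at h4
    exact lt_irrefl _ h4
  intro T
  have h2 : ∑ v ∈ T, (wt (pas C v) : ℤ) ≤ ∑ v ∈ Finset.univ.image c, (wt (pas C v) : ℤ) := by
    have h3 : ∑ v ∈ T, (wt (pas C v) : ℤ) =
        ∑ v ∈ T ∩ Finset.univ.image c, (wt (pas C v) : ℤ) := by
      symm
      refine Finset.sum_subset Finset.inter_subset_left ?_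
      intro w hw hw'
      rw [Types_ones hn fun h => hw' (Finset.mem_inter.2 ⟨hw, hsub h⟩)]
      rfl
    rw [h3]
    exact Finset.sum_le_sum_of_subset_of_nonneg Finset.inter_subset_right
      fun _ _ _ => Int.natCast_nonneg _
  refine h2.trans ?_
  rw [Finset.sum_image fun i _ j _ hij => hc hij]
  have h3 : ∑ i, (wt (pas C (c i)) : ℤ) =
      ((τ.map fun l : List ℕ => wt (l : Multiset ℕ)).sum : ℕ) := by
    have h4 : ∑ i : Fin τ.length, wt ((τ.get i : List ℕ) : Multiset ℕ) =
        (τ.map fun l : List ℕ => wt (l : Multiset ℕ)).sum := by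
      rw [← List.sum_ofFn]
      congr 1
      conv_rhs => rw [← List.ofFn_get τ, List.map_ofFn]
      rfl
    rw [← h4, Nat.cast_sum]
    exact Finset.sum_congr rfl fun i _ => by rw [hp i]
  rw [h3]
  omega

/-- Proof: `wt (1 ::ₘ replicate k 3) = 2 k`, `3 * 2 k = 2 n - 2`; the index of each fibre is `2 k`. -/
theorem TW_of_333 {C : RF} (hn : 1 ≤ C.n) (h : Ty333 C) : TW C := by
  obtain ⟨k, hk, h⟩ := h
  have hw : wt ((1 :: List.replicate k 3 : List ℕ) : Multiset ℕ) = 2 * k := by
    have h1 : ((1 :: List.replicate k 3 : List ℕ) : Multiset ℕ) =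
        1 ::ₘ Multiset.replicate k 3 := rfl
    rw [h1]
    unfold wt
    simp
    omega
  refine TW_of_HasTy hn h ?_ ?_
  · simp only [List.map_replicate, List.sum_replicate, List.length_cons, List.length_replicate]
    rw [hk, smul_eq_mul]
    omega
  · rw [List.map_replicate, List.sum_replicate, hw, smul_eq_mul]
    omega

theorem Types_spor_ok : ∀ τ ∈ spor, τ ≠ [] ∧ ∀ l ∈ τ,
    (τ.map fun l' => l.sum - l'.length).sum = 2 * l.sum - 2 ∧
    (τ.map fun l' : List ℕ => wt (l' : Multiset ℕ)).sum ≤ 2 * l.sum - 2 := by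
  decide +kernel

/-- Proof: for every `τ ∈ spor` all lists have the same sum `n`, which is `C.n` (`pas_sum`); the two
conditions of `TW_of_HasTy` are checked by `decide` for the `51` types. -/
theorem TW_of_spor {C : RF} (hn : 1 ≤ C.n) {τ : List (List ℕ)} (hτ : τ ∈ spor) (h : HasTy C τ) :
    TW C := by
  obtain ⟨h1, h2⟩ := Types_spor_ok τ hτ
  obtain ⟨c, -, hp⟩ := id h
  have hpos : 0 < τ.length := List.length_pos_iff.2 h1
  have h3 : ((τ.get ⟨0, hpos⟩).sum) = C.n := by
    have h4 := pas_sum hn (c ⟨0, hpos⟩)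
    rw [hp, Multiset.sum_coe] at h4
    exact h4
  obtain ⟨h4, h5⟩ := h2 (τ.get ⟨0, hpos⟩) (List.get_mem _ _)
  rw [h3] at h4 h5
  exact TW_of_HasTy hn h h4 h5

/-- Enumeration of a family of fibres. -/
theorem Types_enum {ι : Type} [DecidableEq ι] (L : ι → Multiset ℕ) (τ : List (List ℕ)) :
    ∀ T : Finset ι, T.val.map L =
      ((List.map (fun l : List ℕ => (l : Multiset ℕ)) τ : List (Multiset ℕ)) :
        Multiset (Multiset ℕ)) →
    ∃ c : Fin τ.length → ι, Function.Injective c ∧ (∀ i, c i ∈ T) ∧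
      ∀ i, L (c i) = (τ.get i : Multiset ℕ) := by
  induction τ with
  | nil =>
    intro T _
    exact ⟨fun i => i.elim0, fun i => i.elim0, fun i => i.elim0, fun i => i.elim0⟩
  | cons l τ ih =>
    intro T hT
    have h1 : (l : Multiset ℕ) ∈ T.val.map L := by
      rw [hT]
      simp
    obtain ⟨z, hz, hzL⟩ := Multiset.mem_map.1 h1
    have h2 : (T.erase z).val.map L =
        ((List.map (fun l : List ℕ => (l : Multiset ℕ)) τ : List (Multiset ℕ)) :
          Multiset (Multiset ℕ)) := by
      have h3 : T.val = z ::ₘ T.val.erase z := (Multiset.cons_erase hz).symm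
      rw [h3, Multiset.map_cons, List.map_cons, ← Multiset.cons_coe, hzL,
        Multiset.cons_inj_right] at hT
      rw [Finset.erase_val, hT]
    obtain ⟨c, hc, hcm, hcL⟩ := ih (T.erase z) h2
    refine ⟨Fin.cons z c, ?_, ?_, ?_⟩
    · rw [Fin.cons_injective_iff]
      refine ⟨?_, hc⟩
      rintro ⟨i, hi⟩
      have := hcm i
      rw [hi] at this
      exact (Finset.notMem_erase z T) this
    · intro i
      refine Fin.cases ?_ (fun j => ?_) i
      · exact hz
      · exact Finset.mem_of_mem_erase (hcm j)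
    · intro i
      refine Fin.cases ?_ (fun j => ?_) i
      · exact hzL
      · exact hcL j

/-- A totally ramified fibre. -/
theorem Types_F {C : RF} (hn : 1 ≤ C.n) {z : P1} (hz : C.e z = C.n) :
    ∃ k : ℂ, C.F (C.val z) = Polynomial.C k * Rigid_Lp z ^ C.n := by
  have hF := C.F_ne_zero hn (C.val z)
  have hd := C.natDegree_F_le (C.val z)
  cases z with
  | none =>
    have h1 : C.n - (C.F (C.val none)).natDegree = C.n := hz
    have h2 : (C.F (C.val none)).natDegree = 0 := by omega
    refine ⟨(C.F (C.val none)).coeff 0, ?_⟩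
    rw [Rigid_Lp_none, one_pow, mul_one]
    exact eq_C_of_natDegree_eq_zero h2
  | some a =>
    have h1 : (C.F (C.val (some a))).rootMultiplicity a = C.n := hz
    have h2 : (X - Polynomial.C a) ^ C.n ∣ C.F (C.val (some a)) := by
      rw [← h1]
      exact pow_rootMultiplicity_dvd _ _
    obtain ⟨g, hg⟩ := h2
    have hg0 : g ≠ 0 := by
      rintro rfl
      rw [mul_zero] at hg
      exact hF hg
    have h3 : g.natDegree = 0 := by
      have h4 := hd
      rw [hg, natDegree_mul (pow_ne_zero _ (X_sub_C_ne_zero a)) hg0, natDegree_pow,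
        natDegree_X_sub_C] at h4
      omega
    refine ⟨g.coeff 0, ?_⟩
    rw [Rigid_Lp_some, ← eq_C_of_natDegree_eq_zero h3, mul_comm, ← hg]

/-- Two totally ramified points: the curve is reducible. -/
theorem Types_cyclic {C : RF} (hn : 3 ≤ C.n) (hC : DT C) {z1 z2 : P1} (h12 : z1 ≠ z2)
    (h1 : C.e z1 = C.n) (h2 : C.e z2 = C.n) (hv : C.val z1 ≠ C.val z2) : False := by
  have hn1 : 1 ≤ C.n := by omega
  obtain ⟨k1, hk1⟩ := Types_F hn1 h1
  obtain ⟨k2, hk2⟩ := Types_F hn1 h2
  set M : RF := Rigid_M h12 1 one_ne_zero with hM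
  have hMn : M.n = 1 := Rigid_M_n h12 1 one_ne_zero
  obtain ⟨-, -, M', hM'n, -, -, happ⟩ := moebius_facts M hMn
  obtain ⟨ζ, hζ⟩ : ∃ ζ : ℂ, IsPrimitiveRoot ζ C.n :=
    ⟨_, Complex.isPrimitiveRoot_exp C.n (by omega)⟩
  have hζ1 : ζ ≠ 1 := hζ.ne_one (by omega)
  have hζ0 : ζ ≠ 0 := hζ.ne_zero (by omega)
  have hX := ratFuncX_nonConst
  have hMX : NonConst (M.app (RatFunc.X : E)) := M.app_nonConst (by omega) hX
  set t : E := algebraMap ℂ E ζ * M.app (RatFunc.X : E) with ht
  have htN : NonConst t := by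
    intro c hc
    apply hMX (ζ⁻¹ * c)
    rw [map_mul, ← hc, ht, ← mul_assoc, ← map_mul, inv_mul_cancel₀ hζ0, map_one, one_mul]
  set Y : E := M'.app t with hY
  have hYN : NonConst Y := M'.app_nonConst (by omega) htN
  have hMY : M.app Y = t := (happ E t htN).1
  have hYX : Y ≠ RatFunc.X := by
    intro h
    rw [h] at hMY
    have h3 : (algebraMap ℂ E ζ - 1) * M.app (RatFunc.X : E) = 0 := by
      rw [sub_mul, one_mul, ← ht, ← hMY, sub_self]
    rcases mul_eq_zero.1 h3 with h4 | h4
    · apply hζ1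
      apply (algebraMap ℂ E).injective
      rw [map_one]
      exact sub_eq_zero.1 h4
    · exact hMX.ne_zero h4
  have hL : ∀ U : E, NonConst U → M.app U = aeval U (Rigid_Lp z1) / aeval U (Rigid_Lp z2) := by
    intro U _
    show aeval U (Polynomial.C 1 * Rigid_Lp z1) / aeval U (Rigid_Lp z2) = _
    rw [map_one, one_mul]
  have hE : aeval Y (Rigid_Lp z1) * aeval (RatFunc.X : E) (Rigid_Lp z2) =
      algebraMap ℂ E ζ * (aeval (RatFunc.X : E) (Rigid_Lp z1) * aeval Y (Rigid_Lp z2)) := by
    have h3 := hMY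
    rw [ht, hL Y hYN, hL _ hX] at h3
    have h4 := Rigid_aeval_ne hYN z2
    have h5 := Rigid_aeval_ne hX z2
    field_simp at h3
    linear_combination h3
  have hEq : C.Eqn (RatFunc.X : E) Y := by
    refine eqn_of_fibres C hv _ _ ?_
    rw [hk1, hk2]
    simp only [map_mul, map_pow, aeval_C]
    have h3 : (aeval Y (Rigid_Lp z1) * aeval (RatFunc.X : E) (Rigid_Lp z2)) ^ C.n =
        (aeval (RatFunc.X : E) (Rigid_Lp z1) * aeval Y (Rigid_Lp z2)) ^ C.n := by
      rw [hE, mul_pow, ← map_pow, hζ.pow_eq_one, map_one, one_mul]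
    rw [mul_pow, mul_pow] at h3
    linear_combination (-(algebraMap ℂ E k1 * algebraMap ℂ E k2)) * h3
  obtain ⟨ψ, hψ⟩ := exists_subst hYN
  have hfin : FinC (AlgHom.id ℂ E) := RingHom.Finite.id E
  have hne : AlgHom.id ℂ E ≠ ψ := by
    intro h
    apply hYX
    rw [← hψ, ← h]
    rfl
  have heq : (AlgHom.id ℂ E) (elt C) = ψ (elt C) := by
    rw [coord_elt, coord_elt, hψ]
    exact hEq.app_eq hn1 hX
  have h3 := DT_deg hn1 hC hfin hne heq
  have h4 : (mu (AlgHom.id ℂ E) (ψ RatFunc.X)).natDegree = 1 := by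
    unfold mu
    let := (AlgHom.id ℂ E).toRingHom.toAlgebra
    rw [minpoly.natDegree_eq_one_iff]
    exact ⟨ψ RatFunc.X, rfl⟩
  omega

/-- No two fibres of a doubly transitive function of degree at least three have all indices
divisible by `d ≥ 2`. -/
theorem Types_gcd {C : RF} (hn : 3 ≤ C.n) (hC : DT C) {c c' : P1} (hcc : c ≠ c') {d : ℕ}
    (hd : 2 ≤ d) (h : ∀ z, C.val z = c → d ∣ C.e z) (h' : ∀ z, C.val z = c' → d ∣ C.e z) :
    False := by
  have hn1 : 1 ≤ C.n := by omega
  obtain ⟨B, hBn, hBc, hBc', hB1⟩ := exists_power (by omega : 1 ≤ d) hcc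
  obtain ⟨H, hH, hcomp⟩ := lift_comp (A := C) (B := B) (by omega) (by omega) (by
    intro a b hb
    by_cases h1 : B.val b = c
    · rw [hBc b h1]
      exact h _ (hb.symm.trans h1)
    · by_cases h2 : B.val b = c'
      · rw [hBc' b h2]
        exact h' _ (hb.symm.trans h2)
      · rw [hB1 b h1 h2]
        exact one_dvd _)
  obtain ⟨-, hnn, hv, he⟩ := comp_facts hcomp (by omega) hH
  have hHn : H.n = 1 := by
    rcases DT_indec (by omega) hC hH hcomp with h1 | h1
    · exact h1
    · omega
  have hdn : C.n = d := by rw [hnn, hHn, hBn, mul_one]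
  obtain ⟨z1, hz1⟩ := CDefs_surj C hn1 c
  obtain ⟨z2, hz2⟩ := CDefs_surj C hn1 c'
  have e1 : C.e z1 = C.n := by
    refine le_antisymm (C.e_le hn1 z1) ?_
    rw [hdn]
    exact Nat.le_of_dvd (C.one_le_e hn1 z1) (h z1 hz1)
  have e2 : C.e z2 = C.n := by
    refine le_antisymm (C.e_le hn1 z2) ?_
    rw [hdn]
    exact Nat.le_of_dvd (C.one_le_e hn1 z2) (h' z2 hz2)
  refine Types_cyclic hn hC (z1 := z1) (z2 := z2) ?_ e1 e2 (by rw [hz1, hz2]; exact hcc)
  rintro rfl
  exact hcc (hz1.symm.trans hz2)

/-- **Explicit types.**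

Proof.  `T = critV C`, `L = pas C`: `NumD` from `pas_pos`, `pas_sum`, `card_pas_lt`, `rh_fibres`, `hTW`, `hev` (the
finite set of the points with even index over the values in `T`; `countP Even (pas C c)` is the number of
the points `z` over `c` with `C.e z` even), `DT_gcd` (WV/Elim.lean).  `num_large`, `num_small`.
`CAB`: a fibre with one point and a fibre with two points: `TypAB` (`pas_sum`; see `typ_of_W` in
WV/Asm.lean).  `C333`, `CSp`: enumerate `T` according to the list (`T.val.map L = ↑list` gives a bijection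
`Fin _ → T`). -/
theorem types_of_DT {C : RF} (hn : 3 ≤ C.n) (hC : DT C) (hTW : TW C)
    (hev : ∀ S : Finset P1, (∀ z ∈ S, Even (C.e z)) → S.card ≤ 4) : TyI C := by
  classical
  have hn1 : 1 ≤ C.n := by omega
  have hN : NumD (critV C hn1) (pas C) C.n := by
    constructor
    · intro c _
      exact pas_pos hn1 c
    · intro c _
      exact pas_sum hn1 c
    · intro c hc
      obtain ⟨z, hz, he⟩ := (mem_critV hn1).1 hc
      exact card_pas_lt hn1 hz he
    · exact rh_fibres hn1
    · exact hTW _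
    · have h1 := hev ((critV C hn1).biUnion fun c => (fibP C c).filter fun z => Even (C.e z))
        (fun z hz => by
          obtain ⟨c, -, hc⟩ := Finset.mem_biUnion.1 hz
          exact (Finset.mem_filter.1 hc).2)
      rw [Finset.card_biUnion] at h1
      · refine le_trans (le_of_eq (Finset.sum_congr rfl fun c _ => ?_)) h1
        unfold pas
        rw [Multiset.countP_map, Finset.card_def, Finset.filter_val]
      · intro c _ c' _ hcc
        rw [Function.onFun, Finset.disjoint_left]
        intro z hz hz'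
        apply hcc
        rw [← (mem_fibP hn1).1 (Finset.mem_filter.1 hz).1,
          (mem_fibP hn1).1 (Finset.mem_filter.1 hz').1]
    · intro c _ c' _ hcc d hd hdd
      exact Types_gcd hn hC hcc hd (fun z hz => hdd.1 _ (mem_pas hn1 hz))
        (fun z hz => hdd.2 _ (mem_pas hn1 hz))
  have hcon : CAB (critV C hn1) (pas C) ∨ C333 (critV C hn1) (pas C) C.n ∨
      CSp (critV C hn1) (pas C) := by
    rcases Nat.lt_or_ge 20 C.n with h1 | h1
    · rcases num_large hN h1 with h2 | h2
      · exact Or.inl h2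
      · exact Or.inr (Or.inl h2)
    · exact num_small hN hn h1
  rcases hcon with ⟨c, -, c', -, h1, h2⟩ | ⟨k, hk, hT, hL⟩ | ⟨τ, hτ, hL⟩
  · left
    obtain ⟨a, ha⟩ := Multiset.card_eq_one.1 h1
    obtain ⟨b1, b2, hb⟩ := Multiset.card_eq_two.1 h2
    obtain ⟨z, hz, he, -⟩ := exists_one hn1 (M := 0) (a := a) (by rw [ha]; rfl)
    obtain ⟨z1, z2, h12, hz1, hz2, he1, he2, -⟩ := exists_two hn1 (M := 0) (a := b1) (b := b2)
      (by rw [hb]; rfl)
    have hsa := pas_sum hn1 c
    have hsb := pas_sum hn1 c'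
    rw [ha, Multiset.sum_singleton] at hsa
    rw [hb] at hsb
    refine ⟨by omega, z, z1, z2, by rw [he, hsa], h12, by rw [hz1, hz2], ?_⟩
    rw [he1, he2, ← hsb]
    simp
  · right; left
    refine ⟨k, hk, ?_⟩
    have h1 : (critV C hn1).val.map (pas C) =
        ((List.map (fun l : List ℕ => (l : Multiset ℕ))
          (List.replicate 3 (1 :: List.replicate k 3)) : List (Multiset ℕ)) :
            Multiset (Multiset ℕ)) := by
      rw [List.map_replicate, Multiset.coe_replicate]
      rw [Multiset.eq_replicate]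
      refine ⟨by rw [Multiset.card_map]; exact hT, ?_⟩
      intro b hb
      obtain ⟨z, hz, rfl⟩ := Multiset.mem_map.1 hb
      exact hL z hz
    obtain ⟨c, hc, -, hcL⟩ := Types_enum (pas C) _ (critV C hn1) h1
    exact ⟨c, hc, hcL⟩
  · right; right
    obtain ⟨c, hc, -, hcL⟩ := Types_enum (pas C) τ (critV C hn1) (hL.trans (by
      rw [List.map_id', List.map_eq_flatMap]
      rfl))
    exact ⟨τ, hτ, c, hc, hcL⟩

end WildN
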